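import Pool.Agent.Work.MP_8aaf67_al.PT.Stmts

/-!
# ActE: the case of a commutator of a pair that need not generate
-/

set_option autoImplicit false

open Subgroup MP_8aaf67.PS

namespace MP_8aaf67.PT

theorem prf_ActE (hL : LiftN) (hV : ActV) (hGV : GV) : ActE := by
  intro p _ T X _ _ _ π hπ hfr hker B hB a b hab hmod hnorm hcm
  refine hV p T X π hπ hker B hB (cm a b) hcm fun k => ?_
  obtain ⟨a', ha', b', hb', rfl, rfl, hn⟩ := hL p T X π hπ hfr hker B hB.2.1 k a b (hab k).1
    (hab k).2 hmod hnorm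
  refine ⟨cm a' b', vals_dtree_succ_subset k T ⟨a', hGV T k ha', b', hGV T k hb', rfl⟩, ?_, hn⟩
  rw [map_cm]

end MP_8aaf67.PT
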