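import Pool.Agent.Work.MP_8aaf67_al.PT.Stmts

/-! Item ActG: the case of an element of GT. -/

set_option autoImplicit false

open Subgroup MP_8aaf67.PS

namespace MP_8aaf67.PT

theorem prf_ActG (hG : GTLp) (hB : LiftB) (hV : ActV) (hGV : GV) : ActG := by
  intro p _ T X _ _ _ π hπ hfr hcard B hB' g hg hn hc
  refine hV p T X π hπ hcard B hB' g hc ?_
  obtain ⟨g', hg', hnorm⟩ := hB p T X π hπ hcard B hB' g hn
  intro k
  obtain ⟨c, hck, hcc, hcg⟩ := hG p T X π hπ hfr hcard B hB'.2.1 k g' hnorm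
    (by rw [hg']; exact hg k)
  refine ⟨g' * c, hGV T k hcg, by rw [map_mul, hg', MonoidHom.mem_ker.1 hck, mul_one], ?_⟩
  intro q hq
  have h1 : g' * c * q * (g' * c)⁻¹ = g' * q * g'⁻¹ := by
    rw [mul_assoc g' c q, hcc q hq]
    group
  rw [h1]
  exact hnorm q hq

end MP_8aaf67.PT
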