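import Pool.Agent.Work.MP_8aaf67_al.PT.Stmts

/-!
# MP_8aaf67_al, project PT: item CenE
-/

set_option autoImplicit false

open Subgroup MP_8aaf67.PS

namespace MP_8aaf67.PT

theorem CenE_det {F : Type} [Field F] (A : SL2 F) :
    A.1 0 0 * A.1 1 1 - A.1 0 1 * A.1 1 0 = 1 := by
  have := A.2
  rwa [Matrix.det_fin_two] at this

theorem CenE_ext {F : Type} [Field F] {A B : SL2 F} (h00 : A.1 0 0 = B.1 0 0)
    (h01 : A.1 0 1 = B.1 0 1) (h10 : A.1 1 0 = B.1 1 0) (h11 : A.1 1 1 = B.1 1 1) : A = B := by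
  apply Subtype.ext
  ext i j
  fin_cases i <;> fin_cases j
  · exact h00
  · exact h01
  · exact h10
  · exact h11

theorem CenE_mul {F : Type} [Field F] (A B : SL2 F) (i j : Fin 2) :
    (A * B).1 i j = A.1 i 0 * B.1 0 j + A.1 i 1 * B.1 1 j := by
  show (A.1 * B.1) i j = _
  rw [Matrix.mul_apply, Fin.sum_univ_two]

theorem CenE_center {F : Type} [Field F] (h2 : (2 : F) = 0) {A : SL2 F}
    (hA : A ∈ center (SL2 F)) : A = 1 := by
  rw [Matrix.SpecialLinearGroup.mem_center_iff] at hA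
  obtain ⟨r, hr, hs⟩ := hA
  have hr1 : r = 1 := by
    rw [Fintype.card_fin] at hr
    have : (r - 1) ^ 2 = 0 := by linear_combination hr + (1 - r) * h2
    exact sub_eq_zero.1 (pow_eq_zero_iff two_ne_zero |>.1 this)
  apply Subtype.ext
  rw [← hs, hr1]
  simp

theorem CenE_inj {F : Type} [Field F] (h2 : (2 : F) = 0) {A B : SL2 F} (h : pr A = pr B) :
    A = B := by
  have h1 : A⁻¹ * B ∈ center (SL2 F) := QuotientGroup.eq.1 h
  have h3 := CenE_center h2 h1
  rw [inv_mul_eq_one] at h3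
  exact h3

theorem CenE_main {F : Type} [Field F] (h2 : (2 : F) = 0) {C : SL2 F} (hC : C ≠ 1)
    (hCC : C * C = 1) : C.1 0 0 = C.1 1 1 ∧ (C.1 0 1 ≠ 0 ∨ C.1 1 0 ≠ 0) := by
  have hd := CenE_det C
  have e00 : C.1 0 0 * C.1 0 0 + C.1 0 1 * C.1 1 0 = 1 := by
    rw [← CenE_mul, hCC]; rfl
  have e01 : C.1 0 0 * C.1 0 1 + C.1 0 1 * C.1 1 1 = 0 := by
    rw [← CenE_mul, hCC]; rfl
  have e10 : C.1 1 0 * C.1 0 0 + C.1 1 1 * C.1 1 0 = 0 := by
    rw [← CenE_mul, hCC]; rfl
  have e11 : C.1 1 0 * C.1 0 1 + C.1 1 1 * C.1 1 1 = 1 := by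
    rw [← CenE_mul, hCC]; rfl
  have h1 : C.1 0 0 = C.1 1 1 := by
    by_contra hne
    have hne' : C.1 0 0 + C.1 1 1 ≠ 0 := by
      intro h
      apply hne
      linear_combination h - C.1 1 1 * h2
    have z01 : C.1 0 1 = 0 := by
      have : (C.1 0 0 + C.1 1 1) * C.1 0 1 = 0 := by linear_combination e01
      exact (mul_eq_zero.1 this).resolve_left hne'
    have z00 : C.1 0 0 = 0 := by
      have : (C.1 0 0 + C.1 1 1) * C.1 0 0 = 0 := by
        linear_combination e00 + hd + h2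
      exact (mul_eq_zero.1 this).resolve_left hne'
    rw [z01, z00] at hd
    simp at hd
  refine ⟨h1, ?_⟩
  by_contra hcon
  push Not at hcon
  obtain ⟨z01, z10⟩ := hcon
  apply hC
  have h00 : C.1 0 0 = 1 := by
    rw [z01, z10, mul_zero, add_zero] at e00
    have : (C.1 0 0 - 1) ^ 2 = 0 := by linear_combination e00 + (1 - C.1 0 0) * h2
    exact sub_eq_zero.1 (pow_eq_zero_iff two_ne_zero |>.1 this)
  refine CenE_ext ?_ ?_ ?_ ?_
  · rw [h00]; rfl
  · rw [z01]; rfl
  · rw [z10]; rfl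
  · rw [← h1, h00]; rfl

theorem CenE_comm {F : Type} [Field F] {C D : SL2 F} (hC1 : C.1 0 0 = C.1 1 1)
    (hC2 : C.1 0 1 ≠ 0 ∨ C.1 1 0 ≠ 0) (h : D * C = C * D) :
    D.1 0 0 = D.1 1 1 ∧ D.1 0 1 * C.1 1 0 = C.1 0 1 * D.1 1 0 := by
  have e : ∀ i j, (D * C).1 i j = (C * D).1 i j := fun i j => by rw [h]
  have e00 := e 0 0
  have e01 := e 0 1
  have e10 := e 1 0
  rw [CenE_mul, CenE_mul] at e00 e01 e10
  constructor
  · rcases hC2 with hb | hc
    · have : C.1 0 1 * (D.1 0 0 - D.1 1 1) = 0 := by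
        linear_combination e01 + D.1 0 1 * hC1
      exact sub_eq_zero.1 ((mul_eq_zero.1 this).resolve_left hb)
    · have : C.1 1 0 * (D.1 0 0 - D.1 1 1) = 0 := by
        linear_combination -e10 + D.1 1 0 * hC1
      exact sub_eq_zero.1 ((mul_eq_zero.1 this).resolve_left hc)
  · linear_combination e00

theorem prf_CenE : CenE := by
  intro F _ h2 v hv hvv x y hx hy
  obtain ⟨C, rfl⟩ := QuotientGroup.mk'_surjective (center (SL2 F)) v
  obtain ⟨D, rfl⟩ := QuotientGroup.mk'_surjective (center (SL2 F)) x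
  obtain ⟨E, rfl⟩ := QuotientGroup.mk'_surjective (center (SL2 F)) y
  have inj := fun {A B : SL2 F} => CenE_inj (F := F) h2 (A := A) (B := B)
  have hC1 : C ≠ 1 := by
    rintro rfl
    exact hv (map_one _)
  have hCC : C * C = 1 := by
    apply inj
    show (QuotientGroup.mk' (center (SL2 F))) (C * C) = (QuotientGroup.mk' (center (SL2 F))) 1
    rw [map_mul, map_one]
    exact hvv
  have hDC : D * C = C * D := by
    apply inj
    show (QuotientGroup.mk' (center (SL2 F))) (D * C) = (QuotientGroup.mk' (center (SL2 F))) (C * D)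
    rw [map_mul, map_mul]
    exact hx
  have hEC : E * C = C * E := by
    apply inj
    show (QuotientGroup.mk' (center (SL2 F))) (E * C) = (QuotientGroup.mk' (center (SL2 F))) (C * E)
    rw [map_mul, map_mul]
    exact hy
  obtain ⟨c1, c2⟩ := CenE_main h2 hC1 hCC
  obtain ⟨d1, d2⟩ := CenE_comm c1 c2 hDC
  obtain ⟨e1, e2⟩ := CenE_comm c1 c2 hEC
  have hdD := CenE_det D
  constructor
  · rw [← map_mul, ← map_one (QuotientGroup.mk' (center (SL2 F)))]
    congr 1
    refine CenE_ext ?_ ?_ ?_ ?_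
    · rw [CenE_mul]
      show _ = (1 : F)
      linear_combination hdD + D.1 0 0 * d1 + D.1 0 1 * D.1 1 0 * h2
    · rw [CenE_mul]
      show _ = (0 : F)
      linear_combination D.1 0 1 * d1 + D.1 0 1 * D.1 1 1 * h2
    · rw [CenE_mul]
      show _ = (0 : F)
      linear_combination D.1 1 0 * d1 + D.1 1 0 * D.1 1 1 * h2
    · rw [CenE_mul]
      show _ = (1 : F)
      linear_combination hdD - D.1 1 1 * d1 + D.1 0 1 * D.1 1 0 * h2
  · rw [← map_mul, ← map_mul]
    congr 1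
    have key : D.1 0 1 * E.1 1 0 = E.1 0 1 * D.1 1 0 := by
      rcases c2 with hb | hc
      · apply mul_left_cancel₀ hb
        linear_combination E.1 0 1 * d2 - D.1 0 1 * e2
      · apply mul_left_cancel₀ hc
        linear_combination E.1 1 0 * d2 - D.1 1 0 * e2
    refine CenE_ext ?_ ?_ ?_ ?_
    · rw [CenE_mul, CenE_mul]
      linear_combination key
    · rw [CenE_mul, CenE_mul]
      linear_combination E.1 0 1 * d1 - D.1 0 1 * e1
    · rw [CenE_mul, CenE_mul]
      linear_combination D.1 1 0 * e1 - E.1 1 0 * d1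
    · rw [CenE_mul, CenE_mul]
      linear_combination -key

end MP_8aaf67.PT
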