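import Pool.Agent.Work.MP_8aaf67_al.PT.Stmts

/-!
# Centralisers of involutions of PSL(2,F), `F` odd
-/

set_option autoImplicit false

open Subgroup MP_8aaf67.PS

namespace MP_8aaf67.PT

private lemma CenInv_det {F : Type} [Field F] (A : SL2 F) :
    A.1 0 0 * A.1 1 1 - A.1 0 1 * A.1 1 0 = 1 := by
  rw [← Matrix.det_fin_two]
  exact A.2

private lemma CenInv_center {F : Type} [Field F] (A : SL2 F) :
    A ∈ center (SL2 F) ↔ A.1 0 1 = 0 ∧ A.1 1 0 = 0 ∧ A.1 0 0 = A.1 1 1 := by
  rw [Matrix.SpecialLinearGroup.mem_center_iff]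
  constructor
  · rintro ⟨r, -, hr⟩
    have h01 := congrFun (congrFun hr 0) 1
    have h10 := congrFun (congrFun hr 1) 0
    have h00 := congrFun (congrFun hr 0) 0
    have h11 := congrFun (congrFun hr 1) 1
    simp [Matrix.scalar_apply] at h01 h10 h00 h11
    exact ⟨h01.symm, h10.symm, by rw [← h00, ← h11]⟩
  · rintro ⟨h1, h2, h3⟩
    refine ⟨A.1 0 0, ?_, ?_⟩
    · have := CenInv_det A
      rw [h1, ← h3] at this
      simp only [Fintype.card_fin]
      linear_combination this
    · ext i j
      fin_cases i <;> fin_cases j <;> simp [Matrix.scalar_apply, h1, h2, h3]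

private lemma CenInv_pr_one {F : Type} [Field F] (A : SL2 F) :
    pr A = 1 ↔ A ∈ center (SL2 F) := by
  simp only [pr, QuotientGroup.mk'_apply]
  exact QuotientGroup.eq_one_iff A

private lemma CenInv_pr_mul {F : Type} [Field F] (A B : SL2 F) : pr (A * B) = pr A * pr B := rfl

private lemma CenInv_pr_inv {F : Type} [Field F] (A : SL2 F) : pr A⁻¹ = (pr A)⁻¹ := rfl

private lemma CenInv_surj {F : Type} [Field F] (x : PSL2 F) : ∃ A : SL2 F, pr A = x := by
  obtain ⟨A, hA⟩ := QuotientGroup.mk'_surjective (center (SL2 F)) x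
  exact ⟨A, hA⟩

private lemma CenInv_mul {F : Type} [Field F] (A B : SL2 F) (i j : Fin 2) :
    (A * B).1 i j = A.1 i 0 * B.1 0 j + A.1 i 1 * B.1 1 j := by
  rw [Matrix.SpecialLinearGroup.coe_mul, Matrix.mul_apply, Fin.sum_univ_two]

/-- an element of PSL(2,F) commutes with `pr C`: `D C = ± C D` -/
private lemma CenInv_comm {F : Type} [Field F] (C D : SL2 F)
    (h : pr D * pr C = pr C * pr D) : D * C = C * D ∨ D * C = -(C * D) := by
  have h1 : (C * D)⁻¹ * (D * C) ∈ center (SL2 F) := by
    rw [← CenInv_pr_one, CenInv_pr_mul, CenInv_pr_inv, CenInv_pr_mul, CenInv_pr_mul, h,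
      inv_mul_cancel]
  set Z := (C * D)⁻¹ * (D * C) with hZ
  have hZ' : D * C = C * D * Z := by rw [hZ]; group
  rw [CenInv_center] at h1
  obtain ⟨h1, h2, h3⟩ := h1
  have hd := CenInv_det Z
  have h4 : Z.1 1 1 = 1 ∨ Z.1 1 1 = -1 := by
    have : (Z.1 1 1 - 1) * (Z.1 1 1 + 1) = 0 := by
      rw [h1, h3] at hd
      linear_combination hd
    rcases mul_eq_zero.1 this with h | h
    · left; linear_combination h
    · right; linear_combination h
  rcases h4 with h4 | h4
  · left
    have : Z = 1 := by
      ext i j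
      fin_cases i <;> fin_cases j <;> simp [h1, h2, h3, h4]
    rw [hZ', this, mul_one]
  · right
    have : Z = -1 := by
      ext i j
      fin_cases i <;> fin_cases j <;> simp [h1, h2, h3, h4]
    rw [hZ', this, mul_neg, mul_one]

private lemma CenInv_ext {F : Type} [Field F] {A B : SL2 F} (h : A = B) (i j : Fin 2) :
    A.1 i j = B.1 i j := by rw [h]

/-- `D` commutes with `C`, `C ^ 2 = -1` -/
private lemma CenInv_lin {F : Type} [Field F] (h2 : (2 : F) ≠ 0) (C D : SL2 F)
    (ht : C.1 1 1 = -C.1 0 0) (h : D * C = C * D) :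
    ∃ x y : F, ∀ i j, D.1 i j = x * (if i = j then 1 else 0) + y * C.1 i j := by
  have hd := CenInv_det C
  have h00 := CenInv_ext h 0 0
  have h01 := CenInv_ext h 0 1
  have h10 := CenInv_ext h 1 0
  simp only [CenInv_mul] at h00 h01 h10
  rw [ht] at hd h01 h10
  refine ⟨(D.1 0 0 + D.1 1 1) / 2, -(D.1 0 0 * C.1 0 0 + D.1 0 1 * C.1 1 0 + D.1 1 0 * C.1 0 1 -
    D.1 1 1 * C.1 0 0) / 2, ?_⟩
  intro i j
  fin_cases i <;> fin_cases j <;> simp only [Fin.zero_eta, Fin.mk_one, Fin.isValue, ht,
    if_true, if_false, zero_ne_one, one_ne_zero]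
  · field_simp
    linear_combination (-C.1 0 0) * h00 + (-C.1 1 0) * h01 + (D.1 1 1 - D.1 0 0) * hd
  · field_simp
    linear_combination (C.1 0 0) * h01 + (-C.1 0 1) * h00 + (-2 * D.1 0 1) * hd
  · field_simp
    linear_combination (-C.1 0 0) * h10 + (C.1 1 0) * h00 + (-2 * D.1 1 0) * hd
  · field_simp
    linear_combination (-C.1 0 1) * h10 + (-C.1 0 0) * h00 + (D.1 0 0 - D.1 1 1) * hd

private lemma CenInv_ext' {F : Type} [Field F] {A B : SL2 F} (h : ∀ i j, A.1 i j = B.1 i j) :
    A = B := by
  apply Subtype.ext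
  ext i j
  exact h i j

private lemma CenInv_neg {F : Type} [Field F] (A : SL2 F) (i j : Fin 2) :
    (-A).1 i j = - A.1 i j := by
  rw [Matrix.SpecialLinearGroup.coe_neg, Matrix.neg_apply]

theorem prf_CenInv : CenInv := by
  intro F _ h2 v hv hvv
  obtain ⟨C, rfl⟩ := CenInv_surj v
  have hC : C ∉ center (SL2 F) := fun h => hv ((CenInv_pr_one C).2 h)
  have hCC : C * C ∈ center (SL2 F) := by
    rw [← CenInv_pr_one, CenInv_pr_mul, hvv]
  have hd := CenInv_det C
  have ht : C.1 1 1 = -C.1 0 0 := by
    rw [CenInv_center] at hCC hC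
    simp only [CenInv_mul] at hCC
    obtain ⟨e1, e2, e3⟩ := hCC
    by_contra hne
    have hne' : C.1 0 0 + C.1 1 1 ≠ 0 := fun h => hne (by linear_combination h)
    apply hC
    refine ⟨?_, ?_, ?_⟩
    · have : (C.1 0 0 + C.1 1 1) * C.1 0 1 = 0 := by linear_combination e1
      exact (mul_eq_zero.1 this).resolve_left hne'
    · have : (C.1 0 0 + C.1 1 1) * C.1 1 0 = 0 := by linear_combination e2
      exact (mul_eq_zero.1 this).resolve_left hne'
    · have : (C.1 0 0 + C.1 1 1) * (C.1 0 0 - C.1 1 1) = 0 := by linear_combination e3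
      exact sub_eq_zero.1 ((mul_eq_zero.1 this).resolve_left hne')
  refine ⟨(centralizer {C}).map (QuotientGroup.mk' (center (SL2 F))), ?_, ?_, ?_, ?_⟩
  · exact ⟨C, mem_centralizer_singleton_iff.2 rfl, rfl⟩
  · rintro _ ⟨A, hA, rfl⟩ _ ⟨B, hB, rfl⟩
    have hA' : A * C = C * A := mem_centralizer_singleton_iff.1 hA
    have hB' : B * C = C * B := mem_centralizer_singleton_iff.1 hB
    obtain ⟨x, y, hxy⟩ := CenInv_lin h2 C A ht hA'
    obtain ⟨z, w, hzw⟩ := CenInv_lin h2 C B ht hB'
    rw [← map_mul, ← map_mul]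
    congr 1
    apply CenInv_ext'
    intro i j
    simp only [CenInv_mul, hxy, hzw]
    fin_cases i <;> fin_cases j <;> simp <;> ring
  · rintro _ ⟨A, hA, rfl⟩ hAA
    have hA' : A * C = C * A := mem_centralizer_singleton_iff.1 hA
    obtain ⟨x, y, hxy⟩ := CenInv_lin h2 C A ht hA'
    have hAA' : A * A ∈ center (SL2 F) := by
      rw [← CenInv_pr_one, CenInv_pr_mul]
      exact hAA
    have hxy0 : x * y = 0 := by
      by_contra hne
      apply hC
      rw [CenInv_center] at hAA' ⊢
      simp only [CenInv_mul, hxy] at hAA'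
      simp at hAA'
      obtain ⟨e1, e2, e3⟩ := hAA'
      rw [ht] at e1 e2 e3 ⊢
      have hne2 : 2 * (x * y) ≠ 0 := mul_ne_zero h2 hne
      refine ⟨?_, ?_, ?_⟩
      · have : (2 * (x * y)) * C.1 0 1 = 0 := by linear_combination e1
        exact (mul_eq_zero.1 this).resolve_left hne2
      · have : (2 * (x * y)) * C.1 1 0 = 0 := by linear_combination e2
        exact (mul_eq_zero.1 this).resolve_left hne2
      · have : (2 * (x * y)) * (C.1 0 0 - -C.1 0 0) = 0 := by linear_combination e3
        exact sub_eq_zero.1 ((mul_eq_zero.1 this).resolve_left hne2)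
    rcases mul_eq_zero.1 hxy0 with hx | hy
    · right
      have hdA := CenInv_det A
      simp only [hxy, hx] at hdA
      simp at hdA
      have hy2 : y * y = 1 := by
        linear_combination hdA - y * y * hd
      have : C⁻¹ * A ∈ center (SL2 F) := by
        rw [CenInv_center]
        simp only [CenInv_mul, hxy, hx, Matrix.SpecialLinearGroup.coe_inv,
          Matrix.adjugate_fin_two]
        simp [ht]
        refine ⟨by ring, by ring, by ring⟩
      have h3 : pr (C⁻¹ * A) = 1 := (CenInv_pr_one _).2 this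
      rw [CenInv_pr_mul, CenInv_pr_inv, inv_mul_eq_one] at h3
      exact h3.symm
    · left
      apply (CenInv_pr_one A).2
      rw [CenInv_center]
      simp only [hxy, hy]
      simp
  · intro x hx
    obtain ⟨D, rfl⟩ := CenInv_surj x
    rcases CenInv_comm C D hx with h | h
    · left
      exact ⟨D, mem_centralizer_singleton_iff.2 h, rfl⟩
    · right
      have htD : D.1 1 1 = -D.1 0 0 := by
        have h00 := CenInv_ext h 0 0
        have h01 := CenInv_ext h 0 1
        have h10 := CenInv_ext h 1 0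
        have h11 := CenInv_ext h 1 1
        simp only [CenInv_mul, CenInv_neg] at h00 h01 h10 h11
        rw [ht] at hd h01 h10 h11
        have e1 : 2 * (D.1 0 0 + D.1 1 1) = 0 := by
          linear_combination (-C.1 0 0) * h00 + (C.1 0 0) * h11 + (-2 * C.1 1 0) * h01 -
            2 * (D.1 0 0 + D.1 1 1) * hd
        have e2 := (mul_eq_zero.1 e1).resolve_left h2
        linear_combination e2
      refine ⟨?_, ?_, ?_⟩
      · rw [← CenInv_pr_mul, CenInv_pr_one, CenInv_center]
        simp only [CenInv_mul, htD]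
        refine ⟨by ring, by ring, by ring⟩
      · rintro _ ⟨A, hA, rfl⟩
        have hA' : A * C = C * A := mem_centralizer_singleton_iff.1 hA
        obtain ⟨x, y, hxy⟩ := CenInv_lin h2 C A ht hA'
        change pr D * pr A * (pr D)⁻¹ = (pr A)⁻¹
        have key : D * A = A⁻¹ * D := by
          have h00 := CenInv_ext h 0 0
          have h01 := CenInv_ext h 0 1
          have h10 := CenInv_ext h 1 0
          have h11 := CenInv_ext h 1 1
          simp only [CenInv_mul, CenInv_neg] at h00 h01 h10 h11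
          apply CenInv_ext'
          intro i j
          simp only [CenInv_mul, hxy, Matrix.SpecialLinearGroup.coe_inv,
            Matrix.adjugate_fin_two]
          fin_cases i <;> fin_cases j <;> simp
          · linear_combination y * h00 - (y * D.1 0 0) * ht
          · linear_combination y * h01 - (y * D.1 0 1) * ht
          · linear_combination y * h10 - (y * D.1 1 0) * ht
          · linear_combination y * h11 - (y * D.1 1 1) * ht
        rw [← CenInv_pr_mul, key, CenInv_pr_mul, CenInv_pr_inv, mul_inv_cancel_right]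
      · intro y hy
        obtain ⟨E, rfl⟩ := CenInv_surj y
        rcases CenInv_comm C E hy with h' | h'
        · left
          exact ⟨E, mem_centralizer_singleton_iff.2 h', rfl⟩
        · right
          refine ⟨D * E, mem_centralizer_singleton_iff.2 ?_, rfl⟩
          rw [mul_assoc, h', mul_neg, ← mul_assoc, h, neg_mul, neg_neg, mul_assoc]

end MP_8aaf67.PT
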