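import Pool.Agent.Work.MP_8aaf67_al.PT.Stmts
import Pool.Agent.Work.MP_8aaf67_al.PS.InvConj

/-!
# Item CfgE: the pair in the Borel subgroup, `F` even
-/

set_option autoImplicit false

open Subgroup MP_8aaf67.PS

namespace MP_8aaf67.PT

private abbrev CfgE_pi (F : Type) [Field F] : SL2 F →* PSL2 F :=
  QuotientGroup.mk' (center (SL2 F))

private lemma CfgE_one_of_sq {F : Type} [Field F] (h2 : (2 : F) = 0) (a : F) (h : a * a = 1) :
    a = 1 := by
  have h1 : (a - 1) * (a - 1) = 0 := by linear_combination h + (1 - a) * h2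
  have h3 := mul_self_eq_zero.mp h1
  exact sub_eq_zero.mp h3

private lemma CfgE_det {F : Type} [Field F] (A : SL2 F) :
    A.1 0 0 * A.1 1 1 - A.1 0 1 * A.1 1 0 = 1 := by
  have := A.2
  rwa [Matrix.det_fin_two] at this

private lemma CfgE_tr {F : Type} [Field F] (A : SL2 F) : tr A = A.1 0 0 + A.1 1 1 :=
  Matrix.trace_fin_two A.1

private lemma CfgE_ext {F : Type} [Field F] {A B : SL2 F} (h1 : A.1 0 0 = B.1 0 0)
    (h2 : A.1 0 1 = B.1 0 1) (h3 : A.1 1 0 = B.1 1 0) (h4 : A.1 1 1 = B.1 1 1) : A = B := by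
  apply Subtype.ext
  ext i j
  fin_cases i <;> fin_cases j
  · exact h1
  · exact h2
  · exact h3
  · exact h4

private lemma CfgE_mul {F : Type} [Field F] (A B : SL2 F) (i j : Fin 2) :
    (A * B).1 i j = A.1 i 0 * B.1 0 j + A.1 i 1 * B.1 1 j := by
  have : (A * B).1 = A.1 * B.1 := rfl
  rw [this, Matrix.mul_apply, Fin.sum_univ_two]

private lemma CfgE_inv {F : Type} [Field F] (A : SL2 F) :
    (A⁻¹).1 0 0 = A.1 1 1 ∧ (A⁻¹).1 0 1 = -A.1 0 1 ∧ (A⁻¹).1 1 0 = -A.1 1 0 ∧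
      (A⁻¹).1 1 1 = A.1 0 0 := by
  rw [Matrix.SpecialLinearGroup.SL2_inv_expl]
  exact ⟨rfl, rfl, rfl, rfl⟩

private lemma CfgE_one {F : Type} [Field F] :
    (1 : SL2 F).1 0 0 = 1 ∧ (1 : SL2 F).1 0 1 = 0 ∧ (1 : SL2 F).1 1 0 = 0 ∧
      (1 : SL2 F).1 1 1 = 1 := by
  have : (1 : SL2 F).1 = 1 := rfl
  rw [this]
  exact ⟨Matrix.one_apply_eq 0, Matrix.one_apply_ne (by decide), Matrix.one_apply_ne (by decide),
    Matrix.one_apply_eq 1⟩

private lemma CfgE_sq {F : Type} [Field F] (h2 : (2 : F) = 0) (A : SL2 F) (h : tr A = 0) :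
    A * A = 1 := by
  rw [CfgE_tr] at h
  have hd := CfgE_det A
  obtain ⟨o1, o2, o3, o4⟩ := CfgE_one (F := F)
  apply CfgE_ext
  · rw [CfgE_mul, o1]
    linear_combination A.1 0 0 * h - hd - h2
  · rw [CfgE_mul, o2]
    linear_combination A.1 0 1 * h
  · rw [CfgE_mul, o3]
    linear_combination A.1 1 0 * h
  · rw [CfgE_mul, o4]
    linear_combination A.1 1 1 * h - hd - h2

private lemma CfgE_center {F : Type} [Field F] (h2 : (2 : F) = 0) (A : SL2 F)
    (hA : A ∈ center (SL2 F)) : A = 1 := by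
  rw [Matrix.SpecialLinearGroup.mem_center_iff] at hA
  obtain ⟨r, hr, h⟩ := hA
  rw [Fintype.card_fin, pow_two] at hr
  have hr1 := CfgE_one_of_sq h2 r hr
  apply Subtype.ext
  have : (1 : SL2 F).1 = 1 := rfl
  rw [this, ← h, hr1]
  exact map_one _

private lemma CfgE_inj {F : Type} [Field F] (h2 : (2 : F) = 0) :
    Function.Injective (CfgE_pi F) := by
  rw [← MonoidHom.ker_eq_bot_iff, QuotientGroup.ker_mk', eq_bot_iff]
  intro A hA
  exact CfgE_center h2 A hA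

/-- diagonal matrices -/
private def CfgE_D {F : Type} [Field F] : Fˣ →* SL2 F where
  toFun y := ⟨!![(y : F), 0; 0, ((y⁻¹ : Fˣ) : F)], by
    rw [Matrix.det_fin_two_of, mul_zero, sub_zero, ← Units.val_mul, mul_inv_cancel,
      Units.val_one]⟩
  map_one' := by
    obtain ⟨o1, o2, o3, o4⟩ := CfgE_one (F := F)
    apply CfgE_ext
    · rw [o1]; simp
    · rw [o2]; simp
    · rw [o3]; simp
    · rw [o4]; simp
  map_mul' a b := by
    apply CfgE_ext <;> rw [CfgE_mul] <;> simp [mul_comm]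

/-- unipotent matrices -/
private def CfgE_U {F : Type} [Field F] (b : F) : SL2 F := ⟨!![1, b; 0, 1], by
    rw [Matrix.det_fin_two_of]; ring⟩

private lemma CfgE_Dv {F : Type} [Field F] (y : Fˣ) : (CfgE_D y).1 0 0 = y ∧
    (CfgE_D y).1 0 1 = 0 ∧ (CfgE_D y).1 1 0 = 0 ∧ (CfgE_D y).1 1 1 = ((y⁻¹ : Fˣ) : F) :=
  ⟨rfl, rfl, rfl, rfl⟩

private lemma CfgE_Uv {F : Type} [Field F] (b : F) : (CfgE_U b).1 0 0 = 1 ∧
    (CfgE_U b).1 0 1 = b ∧ (CfgE_U b).1 1 0 = 0 ∧ (CfgE_U b).1 1 1 = 1 :=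
  ⟨rfl, rfl, rfl, rfl⟩

private lemma CfgE_DU {F : Type} [Field F] (y : Fˣ) (b : F) :
    CfgE_D y * CfgE_U b * (CfgE_D y)⁻¹ = CfgE_U ((y : F) ^ 2 * b) := by
  rw [mul_inv_eq_iff_eq_mul]
  obtain ⟨d1, d2, d3, d4⟩ := CfgE_Dv y
  obtain ⟨u1, u2, u3, u4⟩ := CfgE_Uv b
  obtain ⟨w1, w2, w3, w4⟩ := CfgE_Uv ((y : F) ^ 2 * b)
  have hy : (y : F) * ((y⁻¹ : Fˣ) : F) = 1 := by rw [← Units.val_mul, mul_inv_cancel, Units.val_one]
  apply CfgE_ext
  · rw [CfgE_mul, CfgE_mul, d1, d2, d3, u1, u3, w1, w2]; ring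
  · rw [CfgE_mul, CfgE_mul, d1, d2, d4, u2, u4, w1, w2]
    linear_combination (-(y : F) * b) * hy
  · rw [CfgE_mul, CfgE_mul, d1, d3, d4, u1, u3, w3, w4]; ring
  · rw [CfgE_mul, CfgE_mul, d2, d3, d4, u2, u4, w3, w4]; ring

private lemma CfgE_UU {F : Type} [Field F] (a b : F) : CfgE_U a * CfgE_U b = CfgE_U (a + b) := by
  obtain ⟨u1, u2, u3, u4⟩ := CfgE_Uv a
  obtain ⟨v1, v2, v3, v4⟩ := CfgE_Uv b
  obtain ⟨w1, w2, w3, w4⟩ := CfgE_Uv (a + b)
  apply CfgE_ext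
  · rw [CfgE_mul, u1, u2, v1, v3, w1]; ring
  · rw [CfgE_mul, u1, u2, v2, v4, w2]; ring
  · rw [CfgE_mul, u3, u4, v1, v3, w3]; ring
  · rw [CfgE_mul, u3, u4, v2, v4, w4]; ring

private lemma CfgE_Uinv {F : Type} [Field F] (a : F) : (CfgE_U a)⁻¹ = CfgE_U (-a) := by
  rw [inv_eq_iff_mul_eq_one, CfgE_UU, add_neg_cancel]
  obtain ⟨o1, o2, o3, o4⟩ := CfgE_one (F := F)
  obtain ⟨w1, w2, w3, w4⟩ := CfgE_Uv (0 : F)
  apply CfgE_ext
  · rw [o1, w1]
  · rw [o2, w2]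
  · rw [o3, w3]
  · rw [o4, w4]

/-- an upper triangular matrix is a product -/
private lemma CfgE_tri {F : Type} [Field F] (A : SL2 F) (hA : A.1 1 0 = 0) :
    ∃ (y : Fˣ) (b : F), A = CfgE_D y * CfgE_U b := by
  have hd := CfgE_det A
  rw [hA, mul_zero, sub_zero] at hd
  have hne : A.1 0 0 ≠ 0 := left_ne_zero_of_mul_eq_one hd
  refine ⟨⟨A.1 0 0, A.1 1 1, hd, by rw [mul_comm]; exact hd⟩, A.1 1 1 * A.1 0 1, ?_⟩
  obtain ⟨d1, d2, d3, d4⟩ := CfgE_Dv
    (⟨A.1 0 0, A.1 1 1, hd, by rw [mul_comm]; exact hd⟩ : Fˣ)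
  obtain ⟨u1, u2, u3, u4⟩ := CfgE_Uv (A.1 1 1 * A.1 0 1)
  apply CfgE_ext
  · rw [CfgE_mul, d1, d2, u1, u3]; simp
  · rw [CfgE_mul, d1, d2, u2, u4]
    simp only
    linear_combination (-(A.1 0 1)) * hd
  · rw [CfgE_mul, d3, d4, u1, u3, hA]; ring
  · rw [CfgE_mul, d3, d4, u2, u4]
    simp

private lemma CfgE_bor {F : Type} [Field F] (x : PSL2 F) (hx : x ∈ Bor F) :
    ∃ A : SL2 F, A.1 1 0 = 0 ∧ x = CfgE_pi F A := by
  unfold Bor at hx
  induction hx using closure_induction with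
  | mem x hx =>
    obtain ⟨A, h1, h2⟩ := hx
    exact ⟨A, h1, h2⟩
  | one => exact ⟨1, CfgE_one.2.2.1, (map_one _).symm⟩
  | mul x y _ _ hx hy =>
    obtain ⟨A, h1, rfl⟩ := hx
    obtain ⟨B, h2, rfl⟩ := hy
    refine ⟨A * B, ?_, (map_mul _ _ _).symm⟩
    rw [CfgE_mul, h1, h2]; ring
  | inv x _ hx =>
    obtain ⟨A, h1, rfl⟩ := hx
    refine ⟨A⁻¹, ?_, (map_inv _ _).symm⟩
    rw [(CfgE_inv A).2.2.1, h1, neg_zero]

/-- the involution that inverts the torus of `X₀` -/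
private lemma CfgE_t0 {F : Type} [Field F] (h2 : (2 : F) = 0) (X : SL2 F) (hX : tr X ≠ 0) :
    ∃ t : SL2 F, t ≠ 1 ∧ tr t = 0 ∧ tr (t * X) = 0 := by
  rw [CfgE_tr] at hX
  obtain ⟨o1, o2, o3, o4⟩ := CfgE_one (F := F)
  by_cases hb : X.1 0 1 = 0
  · by_cases hc : X.1 1 0 = 0
    · refine ⟨⟨!![0, 1; 1, 0], by rw [Matrix.det_fin_two_of]; linear_combination -h2⟩, ?_, ?_, ?_⟩
      · intro h
        have := congrArg (fun A : SL2 F => A.1 0 1) h
        simp only [o2] at this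
        simp at this
      · rw [CfgE_tr]; simp
      · rw [CfgE_tr, CfgE_mul, CfgE_mul, hb, hc]; simp
    · refine ⟨CfgE_U ((X.1 0 0 + X.1 1 1) / X.1 1 0), ?_, ?_, ?_⟩
      · intro h
        have h3 := congrArg (fun A : SL2 F => A.1 0 1) h
        simp only [o2, (CfgE_Uv _).2.1] at h3
        exact hX ((div_eq_zero_iff.mp h3).resolve_right hc)
      · rw [CfgE_tr, (CfgE_Uv _).1, (CfgE_Uv _).2.2.2]; linear_combination h2
      · rw [CfgE_tr, CfgE_mul, CfgE_mul, (CfgE_Uv _).1, (CfgE_Uv _).2.2.2, (CfgE_Uv _).2.1,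
          (CfgE_Uv _).2.2.1]
        field_simp
        linear_combination (X.1 0 0 + X.1 1 1) * h2
  · refine ⟨⟨!![1, 0; (X.1 0 0 + X.1 1 1) / X.1 0 1, 1], by
      rw [Matrix.det_fin_two_of]; ring⟩, ?_, ?_, ?_⟩
    · intro h
      have h3 := congrArg (fun A : SL2 F => A.1 1 0) h
      simp only [o3] at h3
      simp at h3
      rcases h3 with h3 | h3
      · exact hX h3
      · exact hb h3
    · rw [CfgE_tr]; simp; linear_combination h2
    · rw [CfgE_tr, CfgE_mul, CfgE_mul]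
      simp
      field_simp
      linear_combination (X.1 0 0 + X.1 1 1) * h2

private lemma CfgE_two (F : Type) [Field F] [Finite F] (h2 : (2 : F) = 0) :
    ∃ n : ℕ, Nat.card F = 2 ^ n := by
  classical
  have := Fintype.ofFinite F
  obtain ⟨l, hl⟩ := CharP.exists F
  obtain ⟨n, hlp, hcard⟩ := FiniteField.card F l
  have h3 : l ∣ 2 := by
    rw [← CharP.cast_eq_zero_iff F l 2]
    exact_mod_cast h2
  have h4 : l = 2 := (Nat.prime_dvd_prime_iff_eq hlp Nat.prime_two).mp h3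
  exact ⟨n, by rw [Nat.card_eq_fintype_card, hcard, h4]⟩

/-- every unit is the square of a power of `s` -/
private lemma CfgE_sqr {F : Type} [Field F] [Finite F] (h2 : (2 : F) = 0) (y : Fˣ) :
    ∃ z : Fˣ, z ^ 2 = y := by
  have := Fintype.ofFinite F
  have hch : ringChar F = 2 := by
    have h3 : ringChar F ∣ 2 := by
      apply ringChar.dvd
      exact_mod_cast h2
    rcases (Nat.dvd_prime Nat.prime_two).mp h3 with h4 | h4
    · exfalso
      have : CharP F 1 := by rw [← h4]; exact ringChar.charP F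
      exact one_ne_zero ((CharP.cast_eq_zero_iff F 1 1).mpr dvd_rfl |> fun h => by
        rwa [Nat.cast_one] at h : (1 : F) = 0)
    · exact h4
  obtain ⟨a, ha⟩ := FiniteField.isSquare_of_char_two hch (y : F)
  have ha0 : a ≠ 0 := by
    intro h
    rw [h, mul_zero] at ha
    exact y.ne_zero ha
  refine ⟨Units.mk0 a ha0, ?_⟩
  apply Units.ext
  rw [Units.val_pow_eq_pow_val, Units.val_mk0, ha, pow_two]

/-- conjugating the condition on modules -/
private lemma CfgE_mod {p : ℕ} {X : Type} [Group X] (g : X) (L L' Q Q' : Subgroup X)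
    (hL : ∀ l ∈ L', g * l * g⁻¹ ∈ L) (hQ : ∀ q ∈ Q, g⁻¹ * q * g ∈ Q')
    (h : ModC p X L' Q') : ModC p X L Q := by
  intro V _ _ ρ hp hs hn v
  obtain ⟨w, hw, z, hz, e⟩ := h V ρ hp hs hn (ρ g⁻¹ v)
  refine ⟨ρ g w, ?_, ρ g z, ?_, ?_⟩
  · have h1 : ρ g w ∈ (closure {w : V | ∃ l ∈ L', ∃ u : V, w = ρ l u * u⁻¹}).map
        (ρ g : V ≃* V).toMonoidHom := ⟨w, hw, rfl⟩
    rw [MonoidHom.map_closure] at h1
    refine closure_mono ?_ h1
    rintro _ ⟨_, ⟨l, hl, u, rfl⟩, rfl⟩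
    refine ⟨g * l * g⁻¹, hL l hl, ρ g u, ?_⟩
    have h2 : ρ (g * l * g⁻¹) (ρ g u) = ρ g (ρ l u) := by
      rw [← MulAut.mul_apply, ← MulAut.mul_apply, ← map_mul, ← map_mul]
      congr 2
      group
    rw [h2]
    show (ρ g) (ρ l u * u⁻¹) = _
    rw [map_mul, map_inv]
  · intro q hq
    have h1 := hz _ (hQ q hq)
    have h2 : ρ q (ρ g z) = ρ g (ρ (g⁻¹ * q * g) z) := by
      rw [← MulAut.mul_apply, ← MulAut.mul_apply, ← map_mul, ← map_mul]
      congr 2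
      group
    rw [h2, h1]
  · rw [← map_mul, ← e, ← MulAut.mul_apply, ← map_mul, mul_inv_cancel, map_one,
      MulAut.one_apply]

theorem prf_CfgE (hTor : TorS) (hMod : ModB) : CfgE := by
  intro F _ _ h2 hF p _ hp hne P hP hP1
  have hpp : p.Prime := Fact.out
  have hpF : ¬ p ∣ Nat.card F := by
    obtain ⟨n, hn⟩ := CfgE_two F h2
    rw [hn]
    intro h
    exact hp ((Nat.prime_dvd_prime_iff_eq hpp Nat.prime_two).mp (hpp.dvd_of_dvd_pow h))
  obtain ⟨X₀, hX1, hX2, hX3, hX4, hX5⟩ := hTor F p hp hpF P hP hP1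
  obtain ⟨t, ht1, ht2, ht3⟩ := CfgE_t0 h2 X₀ hX2
  have hinj := CfgE_inj (F := F) h2
  have htt : t * t = 1 := CfgE_sq h2 t ht2
  -- `t` inverts `P`
  have hinv : ∀ x ∈ P, CfgE_pi F t * x * (CfgE_pi F t)⁻¹ = x⁻¹ := by
    intro x hx
    obtain ⟨a, b, e, rfl, he⟩ := hX5 x hx
    have h3 : tr (t * e) = 0 := by
      have h4 : (t * e : SL2 F).1 = t.1 * e.1 := rfl
      have h5 : tr (t * e) = a * tr t + b * tr (t * X₀) := by
        unfold tr
        have h6 : ((t * e : SL2 F) : Matrix (Fin 2) (Fin 2) F) = t.1 * e.1 := rfl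
        have h7 : ((t * X₀ : SL2 F) : Matrix (Fin 2) (Fin 2) F) = t.1 * X₀.1 := rfl
        rw [h6, h7, he, mul_add, Matrix.trace_add, mul_smul_comm, mul_smul_comm, mul_one,
          Matrix.trace_smul, Matrix.trace_smul, smul_eq_mul, smul_eq_mul]
      rw [h5, ht2, ht3, mul_zero, mul_zero, add_zero]
    have h4 := CfgE_sq h2 _ h3
    have h5 : t * e * t⁻¹ = e⁻¹ := by
      rw [eq_inv_iff_mul_eq_one]
      have h6 : t⁻¹ = t := by rw [inv_eq_iff_mul_eq_one]; exact htt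
      rw [h6]
      calc t * e * t * e = t * e * (t * e) := by group
        _ = 1 := h4
    show CfgE_pi F t * CfgE_pi F e * (CfgE_pi F t)⁻¹ = (CfgE_pi F e)⁻¹
    rw [← map_inv, ← map_inv, ← map_mul, ← map_mul, h5]
  -- conjugate to `u(1)`
  obtain ⟨g, hg⟩ : ∃ g : SL2 F, CfgE_pi F g * CfgE_pi F (CfgE_U 1) * (CfgE_pi F g)⁻¹ =
      CfgE_pi F t := by
    have h3 : IsConj (CfgE_pi F (CfgE_U 1)) (CfgE_pi F t) := by
      apply prf_InvConj
      · intro h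
        have h4 : CfgE_U (1 : F) = 1 := hinj (by rw [h, map_one])
        have h5 := congrArg (fun A : SL2 F => A.1 0 1) h4
        simp only [CfgE_one.2.1, (CfgE_Uv _).2.1] at h5
        exact one_ne_zero h5
      · intro h
        exact ht1 (hinj (by rw [h, map_one]))
      · rw [← map_mul, CfgE_sq h2 _ (by
          rw [CfgE_tr, (CfgE_Uv _).1, (CfgE_Uv _).2.2.2]; linear_combination h2), map_one]
      · rw [← map_mul, htt, map_one]
    obtain ⟨g', hg'⟩ := isConj_iff.mp h3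
    obtain ⟨g, rfl⟩ := QuotientGroup.mk'_surjective (center (SL2 F)) g'
    exact ⟨g, hg'⟩
  -- the generator
  obtain ⟨s, hs⟩ := IsCyclic.exists_generator (α := Fˣ)
  have hs1 : (s : F) * s ≠ 1 := by
    intro h
    have h3 := CfgE_one_of_sq h2 _ h
    have h4 : s = 1 := Units.ext h3
    have h5 : ∀ x : Fˣ, x = 1 := by
      intro x
      obtain ⟨k, hk⟩ := hs x
      rw [← hk, h4]
      exact one_zpow k
    have h6 : Nat.card Fˣ = 1 := by
      rw [Nat.card_eq_one_iff_unique]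
      exact ⟨⟨fun a b => by rw [h5 a, h5 b]⟩, ⟨1⟩⟩
    rw [Nat.card_units] at h6
    omega
  have hsi : (s : F) * ((s⁻¹ : Fˣ) : F) = 1 := by
    rw [← Units.val_mul, mul_inv_cancel, Units.val_one]
  have hq : (1 : F) - ((s⁻¹ : Fˣ) : F) ^ 2 ≠ 0 := by
    intro h
    apply hs1
    linear_combination ((s : F) ^ 2) * h + (1 + (s : F) * ((s⁻¹ : Fˣ) : F)) * hsi
  set b : F := (1 - ((s⁻¹ : Fˣ) : F) ^ 2)⁻¹ with hb
  have hb0 : b ≠ 0 := inv_ne_zero hq
  have htrs : (s : F) + ((s⁻¹ : Fˣ) : F) ≠ 0 := by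
    intro h
    apply hs1
    linear_combination (s : F) * h - hsi - h2
  have hcm : cm (CfgE_D s) (CfgE_D s * CfgE_U b) = CfgE_U 1 := by
    have h3 : CfgE_D s⁻¹ * CfgE_U (-b) * (CfgE_D s⁻¹)⁻¹ = (CfgE_D s)⁻¹ * (CfgE_U b)⁻¹ * CfgE_D s := by
      rw [map_inv, inv_inv, CfgE_Uinv]
    rw [CfgE_DU] at h3
    have h4 : cm (CfgE_D s) (CfgE_D s * CfgE_U b) =
        (CfgE_D s)⁻¹ * (CfgE_U b)⁻¹ * CfgE_D s * CfgE_U b := by
      unfold cm; group
    rw [h4, ← h3, CfgE_UU]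
    congr 1
    have h5 : (1 - ((s⁻¹ : Fˣ) : F) ^ 2) * b = 1 := mul_inv_cancel₀ hq
    linear_combination h5
  have htr : ∀ A : SL2 F, tr (g * A * g⁻¹) = tr A := by
    intro A
    unfold tr
    have h3 : ((g * A * g⁻¹ : SL2 F) : Matrix (Fin 2) (Fin 2) F) =
      ((g * A : SL2 F) : Matrix (Fin 2) (Fin 2) F) * ((g⁻¹ : SL2 F) : Matrix (Fin 2) (Fin 2) F) :=
      rfl
    have h4 : ((g⁻¹ * (g * A) : SL2 F) : Matrix (Fin 2) (Fin 2) F) =
      ((g⁻¹ : SL2 F) : Matrix (Fin 2) (Fin 2) F) * ((g * A : SL2 F) : Matrix (Fin 2) (Fin 2) F) :=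
      rfl
    rw [h3, Matrix.trace_mul_comm, ← h4, inv_mul_cancel_left]
  refine ⟨g * CfgE_D s * g⁻¹, g * (CfgE_D s * CfgE_U b) * g⁻¹, ?_, ?_, ?_, ?_⟩
  · rw [htr, CfgE_tr, (CfgE_Dv _).1, (CfgE_Dv _).2.2.2]
    exact htrs
  · rw [htr, CfgE_tr, CfgE_mul, CfgE_mul, (CfgE_Dv _).1, (CfgE_Dv _).2.2.2, (CfgE_Dv _).2.1,
      (CfgE_Dv _).2.2.1, (CfgE_Uv _).1, (CfgE_Uv _).2.1, (CfgE_Uv _).2.2.1, (CfgE_Uv _).2.2.2]
    simpa using htrs
  · have h3 : cm (pr (g * CfgE_D s * g⁻¹)) (pr (g * (CfgE_D s * CfgE_U b) * g⁻¹)) =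
        CfgE_pi F t := by
      rw [← hg, ← map_inv, ← map_mul, ← map_mul, ← hcm]
      have h4 : g * cm (CfgE_D s) (CfgE_D s * CfgE_U b) * g⁻¹ =
          cm (g * CfgE_D s * g⁻¹) (g * (CfgE_D s * CfgE_U b) * g⁻¹) := by
        unfold cm; group
      rw [h4]
      unfold cm
      rw [map_mul, map_mul, map_mul, map_inv, map_inv]
      rfl
    rw [h3]
    exact hinv
  · set P' : Subgroup (PSL2 F) := P.map (MulAut.conj (CfgE_pi F g)⁻¹).toMonoidHom with hP'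
    have hmem : ∀ y ∈ P', ∃ x ∈ P, y = (CfgE_pi F g)⁻¹ * x * CfgE_pi F g := by
      rintro _ ⟨x, hx, rfl⟩
      refine ⟨x, hx, ?_⟩
      show MulAut.conj (CfgE_pi F g)⁻¹ x = _
      rw [MulAut.conj_apply, inv_inv]
    have hPP : IsPGroup p P' := hP.map _
    have hint : P' ⊓ Bor F = ⊥ := by
      rw [eq_bot_iff]
      rintro y ⟨hy1, hy2⟩
      obtain ⟨A, hA, rfl⟩ := CfgE_bor y hy2
      obtain ⟨x, hx, he⟩ := hmem _ hy1
      have h3 := hinv x hx
      have h4 : CfgE_pi F (CfgE_U 1) * CfgE_pi F A * (CfgE_pi F (CfgE_U 1))⁻¹ =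
          (CfgE_pi F A)⁻¹ := by
        have h5 : x = CfgE_pi F g * CfgE_pi F A * (CfgE_pi F g)⁻¹ := by rw [he]; group
        rw [← hg, h5] at h3
        have h6 := congrArg (fun z => (CfgE_pi F g)⁻¹ * z * CfgE_pi F g) h3
        simp only [mul_inv_rev, inv_inv] at h6
        have h7 : (CfgE_pi F g)⁻¹ * (CfgE_pi F g * CfgE_pi F (CfgE_U 1) * (CfgE_pi F g)⁻¹ *
            (CfgE_pi F g * CfgE_pi F A * (CfgE_pi F g)⁻¹) *
            (CfgE_pi F g * ((CfgE_pi F (CfgE_U 1))⁻¹ * (CfgE_pi F g)⁻¹))) * CfgE_pi F g =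
            CfgE_pi F (CfgE_U 1) * CfgE_pi F A * (CfgE_pi F (CfgE_U 1))⁻¹ := by group
        have h8 : (CfgE_pi F g)⁻¹ * (CfgE_pi F g * ((CfgE_pi F A)⁻¹ * (CfgE_pi F g)⁻¹)) *
            CfgE_pi F g = (CfgE_pi F A)⁻¹ := by group
        rw [h7, h8] at h6
        exact h6
      rw [← map_inv, ← map_inv, ← map_mul, ← map_mul] at h4
      have h5 := hinj h4
      have h6 : CfgE_U 1 * A = A⁻¹ * CfgE_U 1 := by
        rw [← h5]; group
      have h7 := congrArg (fun B : SL2 F => B.1 0 0) h6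
      simp only [CfgE_mul] at h7
      rw [(CfgE_Uv _).1, (CfgE_Uv _).2.1, (CfgE_Uv _).2.2.1, hA, (CfgE_inv A).1,
        (CfgE_inv A).2.1] at h7
      have h8 := CfgE_det A
      have h9 : A.1 0 0 = 1 := by
        apply CfgE_one_of_sq h2
        rw [hA] at h8
        linear_combination (A.1 0 0) * h7 + h8
      have h10 : A.1 1 1 = 1 := by linear_combination h9 - h7
      have h11 : A * A = 1 := by
        apply CfgE_sq h2
        rw [CfgE_tr, h9, h10]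
        linear_combination h2
      obtain ⟨k, hk⟩ := hPP ⟨CfgE_pi F A, hy1⟩
      have h12 : (CfgE_pi F A) ^ p ^ k = 1 := by
        have := congrArg Subtype.val hk
        simpa using this
      have h13 : (CfgE_pi F A) ^ 2 = 1 := by rw [pow_two, ← map_mul, h11, map_one]
      have h14 : orderOf (CfgE_pi F A) ∣ Nat.gcd 2 (p ^ k) :=
        Nat.dvd_gcd (orderOf_dvd_of_pow_eq_one h13) (orderOf_dvd_of_pow_eq_one h12)
      have h15 : Nat.gcd 2 (p ^ k) = 1 :=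
        Nat.Coprime.pow_right k ((Nat.coprime_primes Nat.prime_two hpp).mpr (Ne.symm hp))
      rw [h15, Nat.dvd_one, orderOf_eq_one_iff] at h14
      rw [h14]
      exact one_mem _
    refine CfgE_mod (CfgE_pi F g) _ (Bor F) P P' ?_ ?_
      (hMod F h2 p hne P' hPP hint)
    · intro l hl
      obtain ⟨A, hA, rfl⟩ := CfgE_bor l hl
      have hc : CfgE_pi F (g * CfgE_D s * g⁻¹) ∈ closure
          ({pr (g * CfgE_D s * g⁻¹), pr (g * (CfgE_D s * CfgE_U b) * g⁻¹)} : Set (PSL2 F)) :=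
        subset_closure (Or.inl rfl)
      have hd : CfgE_pi F (g * (CfgE_D s * CfgE_U b) * g⁻¹) ∈ closure
          ({pr (g * CfgE_D s * g⁻¹), pr (g * (CfgE_D s * CfgE_U b) * g⁻¹)} : Set (PSL2 F)) :=
        subset_closure (Or.inr rfl)
      set K := closure
          ({pr (g * CfgE_D s * g⁻¹), pr (g * (CfgE_D s * CfgE_U b) * g⁻¹)} : Set (PSL2 F)) with hK
      have hD : ∀ y : Fˣ, CfgE_pi F (g * CfgE_D y * g⁻¹) ∈ K := by
        intro y
        obtain ⟨k, hk⟩ := hs y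
        have h3 : g * CfgE_D y * g⁻¹ = (g * CfgE_D s * g⁻¹) ^ k := by
          rw [conj_zpow, ← map_zpow]
          have : s ^ k = y := hk
          rw [this]
        rw [h3, map_zpow]
        exact zpow_mem hc k
      have hU : ∀ a : F, CfgE_pi F (g * CfgE_U a * g⁻¹) ∈ K := by
        intro a
        by_cases ha : a = 0
        · have h3 : CfgE_U (0 : F) = 1 := by
            have := CfgE_UU (0 : F) 0
            rw [add_zero] at this
            exact mul_eq_left.mp this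
          rw [ha, h3, mul_one, mul_inv_cancel, map_one]
          exact one_mem _
        · obtain ⟨z, hz⟩ := CfgE_sqr h2 (Units.mk0 (a / b) (div_ne_zero ha hb0))
          have h3 : (z : F) ^ 2 * b = a := by
            have h4 := congrArg (fun u : Fˣ => (u : F)) hz
            simp only [Units.val_pow_eq_pow_val, Units.val_mk0] at h4
            rw [h4, div_mul_cancel₀ _ hb0]
          have h4 : g * CfgE_U a * g⁻¹ = (g * CfgE_D z * g⁻¹) * ((g * CfgE_D s * g⁻¹)⁻¹ *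
              (g * (CfgE_D s * CfgE_U b) * g⁻¹)) * (g * CfgE_D z * g⁻¹)⁻¹ := by
            rw [← h3, ← CfgE_DU]; group
          rw [h4, map_mul, map_mul, map_mul, map_inv, map_inv]
          exact mul_mem (mul_mem (hD z) (mul_mem (inv_mem hc) hd)) (inv_mem (hD z))
      obtain ⟨y, a, hya⟩ := CfgE_tri A hA
      have h3 : CfgE_pi F g * CfgE_pi F A * (CfgE_pi F g)⁻¹ =
          CfgE_pi F (g * CfgE_D y * g⁻¹) * CfgE_pi F (g * CfgE_U a * g⁻¹) := by
        rw [hya, ← map_inv, ← map_mul, ← map_mul, ← map_mul]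
        congr 1
        group
      rw [h3]
      exact mul_mem (hD y) (hU a)
    · intro q hq
      refine ⟨q, hq, ?_⟩
      show MulAut.conj (CfgE_pi F g)⁻¹ q = _
      rw [MulAut.conj_apply, inv_inv]

end MP_8aaf67.PT
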