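import Pool.Agent.Work.MP_8aaf67_al.PT.Stmts
import Pool.Agent.Work.MP_8aaf67_al.PS.SylInv

/-!
# Project PT: Sylow p-subgroups of PSL(2,F) for the characteristic p
-/

set_option autoImplicit false

open Subgroup MP_8aaf67.PS

namespace MP_8aaf67.PT

/-- the upper unitriangular matrices -/
def CfgU_u {F : Type} [Field F] (b : F) : SL2 F := ⟨!![1, b; 0, 1], by simp [Matrix.det_fin_two_of]⟩

/-- the diagonal matrices -/
def CfgU_d {F : Type} [Field F] (r : F) (hr : r ≠ 0) : SL2 F :=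
  ⟨!![r ^ 2, 0; 0, (r ^ 2)⁻¹], by
    rw [Matrix.det_fin_two_of, mul_inv_cancel₀ (pow_ne_zero 2 hr)]
    ring⟩

theorem CfgU_u_mul {F : Type} [Field F] (a b : F) : CfgU_u a * CfgU_u b = CfgU_u (a + b) := by
  apply Subtype.ext
  rw [Matrix.SpecialLinearGroup.coe_mul]
  ext i j
  fin_cases i <;> fin_cases j <;> simp [CfgU_u, Matrix.mul_apply, Fin.sum_univ_two]
  ring

theorem CfgU_u_zero {F : Type} [Field F] : CfgU_u (0 : F) = 1 := by
  apply Subtype.ext
  ext i j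
  fin_cases i <;> fin_cases j <;> simp [CfgU_u]

theorem CfgU_u_inv {F : Type} [Field F] (a : F) : (CfgU_u a)⁻¹ = CfgU_u (-a) := by
  apply inv_eq_of_mul_eq_one_right
  rw [CfgU_u_mul, add_neg_cancel, CfgU_u_zero]

theorem CfgU_d_conj {F : Type} [Field F] (r : F) (hr : r ≠ 0) (b : F) :
    CfgU_d r hr * CfgU_u b = CfgU_u (r ^ 4 * b) * CfgU_d r hr := by
  apply Subtype.ext
  rw [Matrix.SpecialLinearGroup.coe_mul, Matrix.SpecialLinearGroup.coe_mul]
  ext i j
  fin_cases i <;> fin_cases j <;> simp [CfgU_u, CfgU_d, Matrix.mul_apply, Fin.sum_univ_two]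
  field_simp

theorem CfgU_pr_inv {F : Type} [Field F] (A : SL2 F) : pr A⁻¹ = (pr A)⁻¹ :=
  map_inv (QuotientGroup.mk' (center (SL2 F))) A

/-- commuting with a unipotent element -/
theorem CfgU_comm {F : Type} [Field F] (h2 : (2 : F) ≠ 0) {b : F} (hb : b ≠ 0) (D : SL2 F)
    (h : pr D * pr (CfgU_u b) = pr (CfgU_u b) * pr D) : ∃ c, pr D = pr (CfgU_u c) := by
  have hd := InvConj_det D
  rcases SylInv_comm (CfgU_u b) D h with h1 | h1
  · have h1' : D.1 * (CfgU_u b).1 = (CfgU_u b).1 * D.1 := congrArg Subtype.val h1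
    have e00 := congrFun (congrFun h1' 0) 0
    have e01 := congrFun (congrFun h1' 0) 1
    simp [CfgU_u, Matrix.mul_apply, Fin.sum_univ_two] at e00 e01
    have h10 : D.1 1 0 = 0 := by
      rcases e00 with h3 | h3
      · exact absurd h3 hb
      · exact h3
    have h00 : D.1 0 0 = D.1 1 1 := by
      have h3 : b * (D.1 0 0 - D.1 1 1) = 0 := by linear_combination e01
      exact sub_eq_zero.1 ((mul_eq_zero.1 h3).resolve_left hb)
    refine ⟨D.1 0 1 * D.1 0 0, ?_⟩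
    have h3 : pr (D * (CfgU_u (D.1 0 1 * D.1 0 0))⁻¹) = 1 := by
      rw [SylInv_one_iff, CfgU_u_inv]
      have hsq : D.1 0 0 * D.1 0 0 = 1 := by
        rw [h10, ← h00] at hd
        linear_combination hd
      have hval : (D * CfgU_u (-(D.1 0 1 * D.1 0 0))).1 =
          D.1 * !![1, -(D.1 0 1 * D.1 0 0); 0, 1] := rfl
      apply InvConj_center
      · rw [hval]
        simp [Matrix.mul_apply, Fin.sum_univ_two]
        linear_combination (-D.1 0 1) * hsq
      · rw [hval]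
        simp [Matrix.mul_apply, Fin.sum_univ_two]
        exact h10
      · rw [hval]
        simp [Matrix.mul_apply, Fin.sum_univ_two]
        rw [h10]
        linear_combination h00
    rw [SylInv_mul, CfgU_pr_inv, mul_inv_eq_one] at h3
    exact h3
  · exfalso
    have e00 : D.1 0 0 * 1 + D.1 0 1 * 0 = -(1 * D.1 0 0 + b * D.1 1 0) := by
      have h3 := congrFun (congrFun h1 0) 0
      rw [Matrix.neg_apply, Matrix.mul_apply, Matrix.mul_apply, Fin.sum_univ_two,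
        Fin.sum_univ_two] at h3
      exact h3
    have e10 : D.1 1 0 * 1 + D.1 1 1 * 0 = -(0 * D.1 0 0 + 1 * D.1 1 0) := by
      have h3 := congrFun (congrFun h1 1) 0
      rw [Matrix.neg_apply, Matrix.mul_apply, Matrix.mul_apply, Fin.sum_univ_two,
        Fin.sum_univ_two] at h3
      exact h3
    have h10 : D.1 1 0 = 0 := by
      have h3 : 2 * D.1 1 0 = 0 := by linear_combination e10
      exact (mul_eq_zero.1 h3).resolve_left h2
    have h00 : D.1 0 0 = 0 := by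
      have h3 : 2 * D.1 0 0 = 0 := by linear_combination e00 - b * h10
      exact (mul_eq_zero.1 h3).resolve_left h2
    rw [h10, h00] at hd
    simp at hd

/-- the group of the unipotent elements -/
def CfgU_U (F : Type) [Field F] : Subgroup (PSL2 F) where
  carrier := {x | ∃ b : F, x = pr (CfgU_u b)}
  one_mem' := ⟨0, by
    rw [CfgU_u_zero]
    exact (map_one (QuotientGroup.mk' (center (SL2 F)))).symm⟩
  mul_mem' := by
    rintro _ _ ⟨a, rfl⟩ ⟨b, rfl⟩
    exact ⟨a + b, by rw [← CfgU_u_mul, SylInv_mul]⟩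
  inv_mem' := by
    rintro _ ⟨a, rfl⟩
    exact ⟨-a, by rw [← CfgU_u_inv, CfgU_pr_inv]⟩

theorem CfgU_cast {F : Type} [Field F] [Finite F] {p : ℕ} [Fact p.Prime]
    (hp : p ∣ Nat.card F) : (p : F) = 0 := by
  obtain ⟨a, ha⟩ := exists_prime_addOrderOf_dvd_card' (G := F) p hp
  have h1 : p • a = 0 := by
    rw [← ha]
    exact addOrderOf_nsmul_eq_zero a
  rw [nsmul_eq_mul] at h1
  rcases mul_eq_zero.1 h1 with h | h
  · exact h
  · exfalso
    rw [h, addOrderOf_zero] at ha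
    exact (Fact.out : p.Prime).one_lt.ne ha

theorem CfgU_u_pow {F : Type} [Field F] (a : F) (n : ℕ) : (CfgU_u a) ^ n = CfgU_u (n * a) := by
  induction n with
  | zero => rw [pow_zero, Nat.cast_zero, zero_mul, CfgU_u_zero]
  | succ n ih =>
    rw [pow_succ, ih, CfgU_u_mul]
    congr 1
    push_cast
    ring

theorem CfgU_pgroup {F : Type} [Field F] [Finite F] {p : ℕ} [Fact p.Prime]
    (hp : p ∣ Nat.card F) : IsPGroup p (CfgU_U F) := by
  rintro ⟨x, b, rfl⟩
  refine ⟨1, ?_⟩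
  apply Subtype.ext
  show (pr (CfgU_u b)) ^ p ^ 1 = 1
  have h1 : (pr (CfgU_u b)) ^ p ^ 1 = pr ((CfgU_u b) ^ p ^ 1) :=
    (map_pow (QuotientGroup.mk' (center (SL2 F))) _ _).symm
  rw [h1, CfgU_u_pow, pow_one, CfgU_cast hp, zero_mul, CfgU_u_zero]
  exact map_one (QuotientGroup.mk' (center (SL2 F)))

theorem CfgU_syl {F : Type} [Field F] [Finite F] (h2 : (2 : F) ≠ 0) {p : ℕ} [Fact p.Prime]
    (hp : p ∣ Nat.card F) : SylIn p (CfgU_U F) ⊤ := by
  obtain ⟨Q, hUQ, hQ⟩ := SylIn.exists_ge (p := p) (CfgU_pgroup (F := F) hp) le_top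
  have hu1 : pr (CfgU_u (1 : F)) ∈ Q := hUQ ⟨1, rfl⟩
  have hne : ∀ c : F, pr (CfgU_u c) ≠ 1 → c ≠ 0 := by
    rintro c hc rfl
    apply hc
    rw [CfgU_u_zero]
    exact map_one (QuotientGroup.mk' (center (SL2 F)))
  have hu1' : pr (CfgU_u (1 : F)) ≠ 1 := by
    intro h
    rw [SylInv_one_iff, Matrix.SpecialLinearGroup.mem_center_iff] at h
    obtain ⟨r, -, hr⟩ := h
    have h3 := congrFun (congrFun hr 0) 1
    simp [CfgU_u] at h3
  have hnt : Nontrivial Q := ⟨⟨_, hu1⟩, 1, fun h => hu1' (congrArg Subtype.val h)⟩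
  have hcen : Nontrivial (center Q) := hQ.2.1.center_nontrivial
  obtain ⟨z, hz⟩ := exists_ne (1 : center Q)
  have hz1 : (z.1.1 : PSL2 F) ≠ 1 := by
    intro h
    apply hz
    apply Subtype.ext
    apply Subtype.ext
    exact h
  have hzc : ∀ x ∈ Q, x * z.1.1 = z.1.1 * x := by
    intro x hx
    exact congrArg Subtype.val (Subgroup.mem_center_iff.1 z.2 ⟨x, hx⟩)
  obtain ⟨Z, hZ⟩ := QuotientGroup.mk'_surjective (center (SL2 F)) z.1.1
  have hZ' : pr Z = z.1.1 := hZ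
  obtain ⟨c, hc⟩ := CfgU_comm h2 (one_ne_zero (α := F)) Z (by
    rw [hZ']
    exact (hzc _ hu1).symm)
  have hzu : z.1.1 = pr (CfgU_u c) := by rw [← hZ', hc]
  have hc0 : c ≠ 0 := hne c (by rw [← hzu]; exact hz1)
  have hQU : Q ≤ CfgU_U F := by
    intro x hx
    obtain ⟨D, rfl⟩ := QuotientGroup.mk'_surjective (center (SL2 F)) x
    obtain ⟨c', hc'⟩ := CfgU_comm h2 hc0 D (by
      rw [← hzu]
      exact hzc _ hx)
    exact ⟨c', hc'⟩
  rw [le_antisymm hUQ hQU]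
  exact hQ

theorem CfgU_ex {F : Type} [Field F] [Finite F] (h7 : 7 ≤ Nat.card F) :
    ∃ r : F, r ≠ 0 ∧ r ^ 4 ≠ 1 := by
  classical
  have := Fintype.ofFinite F
  by_contra hcon
  push Not at hcon
  have h1 : ∀ r : F, r ^ 5 - r = 0 := by
    intro r
    by_cases hr : r = 0
    · rw [hr]
      ring
    · linear_combination r * hcon r hr
  let f : Polynomial F := Polynomial.X ^ 5 - Polynomial.X
  have hdeg : f.natDegree = 5 := by
    show (Polynomial.X ^ 5 - Polynomial.X : Polynomial F).natDegree = 5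
    compute_degree!
  have hf : f ≠ 0 := by
    intro h
    rw [h, Polynomial.natDegree_zero] at hdeg
    exact absurd hdeg (by norm_num)
  have h2 : (Finset.univ : Finset F).val ⊆ f.roots := by
    intro r _
    rw [Polynomial.mem_roots hf]
    show Polynomial.eval r (Polynomial.X ^ 5 - Polynomial.X) = 0
    simp only [Polynomial.eval_sub, Polynomial.eval_pow, Polynomial.eval_X]
    exact h1 r
  have h3 : (Finset.univ : Finset F).card ≤ Multiset.card f.roots :=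
    Multiset.card_le_card ((Multiset.le_iff_subset Finset.univ.nodup).2 h2)
  have h4 := f.card_roots'
  rw [Finset.card_univ, ← Nat.card_eq_fintype_card] at h3
  omega

theorem prf_CfgU : CfgU := by
  intro F _ _ h2 p _ hp h7 P hP
  obtain ⟨r, hr, hr4⟩ := CfgU_ex h7
  obtain ⟨k, -, hk⟩ := SylIn.conj (CfgU_syl h2 hp) hP
  obtain ⟨h, rfl⟩ := QuotientGroup.mk'_surjective (center (SL2 F)) k
  change ∀ x, x ∈ P ↔ (pr h)⁻¹ * x * pr h ∈ CfgU_U F at hk
  have hr2 : r ^ 2 ≠ 0 := pow_ne_zero 2 hr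
  have hr40 : r ^ 4 ≠ 0 := pow_ne_zero 4 hr
  have hprg : pr (h * CfgU_d r hr * h⁻¹) = pr h * pr (CfgU_d r hr) * (pr h)⁻¹ := by
    rw [SylInv_mul, SylInv_mul, CfgU_pr_inv]
  have hdconj : ∀ b : F, pr (CfgU_d r hr) * pr (CfgU_u b) =
      pr (CfgU_u (r ^ 4 * b)) * pr (CfgU_d r hr) := by
    intro b
    rw [← SylInv_mul, CfgU_d_conj, SylInv_mul]
  refine ⟨h * CfgU_d r hr * h⁻¹, r - r⁻¹, ?_, ?_, ?_, ?_, ?_⟩
  · intro h0
    apply hr4
    have h3 : r = r⁻¹ := sub_eq_zero.1 h0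
    have h4 : r * r = 1 := by
      nth_rewrite 2 [h3]
      exact mul_inv_cancel₀ hr
    calc r ^ 4 = (r * r) * (r * r) := by ring
      _ = 1 := by rw [h4, one_mul]
  · show ((h * CfgU_d r hr * h⁻¹ : SL2 F) : Matrix (Fin 2) (Fin 2) F).trace = 2 + (r - r⁻¹) ^ 2
    rw [Matrix.SpecialLinearGroup.coe_mul, Matrix.trace_mul_comm,
      ← Matrix.SpecialLinearGroup.coe_mul, inv_mul_cancel_left]
    rw [Matrix.trace_fin_two]
    show r ^ 2 + (r ^ 2)⁻¹ = 2 + (r - r⁻¹) ^ 2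
    field_simp
    ring
  · intro hc
    apply hr4
    have h3 : CfgU_d r hr ∈ center (SL2 F) := by
      have h4 : CfgU_d r hr = h * CfgU_d r hr * h⁻¹ := by
        have h5 := Subgroup.mem_center_iff.1 hc h
        have h6 : h * (h * CfgU_d r hr * h⁻¹) = h * CfgU_d r hr := by
          rw [h5, inv_mul_cancel_right]
        exact (mul_left_cancel h6).symm
      rw [h4]
      exact hc
    rw [Matrix.SpecialLinearGroup.mem_center_iff] at h3
    obtain ⟨s, -, hs⟩ := h3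
    have e0 := congrFun (congrFun hs 0) 0
    have e1 := congrFun (congrFun hs 1) 1
    simp [CfgU_d] at e0 e1
    have h4 : r ^ 2 = (r ^ 2)⁻¹ := e0.symm.trans e1
    calc r ^ 4 = r ^ 2 * r ^ 2 := by ring
      _ = r ^ 2 * (r ^ 2)⁻¹ := by rw [← h4]
      _ = 1 := mul_inv_cancel₀ hr2
  · intro x hx
    rw [hprg, hk]
    obtain ⟨b, hb⟩ := (hk x).1 hx
    refine ⟨r ^ 4 * b, ?_⟩
    have h3 : (pr h)⁻¹ * (pr h * pr (CfgU_d r hr) * (pr h)⁻¹ * x *
        (pr h * pr (CfgU_d r hr) * (pr h)⁻¹)⁻¹) * pr h =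
        pr (CfgU_d r hr) * ((pr h)⁻¹ * x * pr h) * (pr (CfgU_d r hr))⁻¹ := by group
    rw [h3, hb, hdconj, mul_inv_cancel_right]
  · intro x hx
    obtain ⟨b, hb⟩ := (hk x).1 hx
    have hx' : x = pr h * pr (CfgU_u b) * (pr h)⁻¹ := by
      rw [← hb]
      group
    have hne : (r ^ 4)⁻¹ - 1 ≠ 0 := by
      intro h3
      apply hr4
      have h4 : (r ^ 4)⁻¹ = 1 := sub_eq_zero.1 h3
      rw [inv_eq_one] at h4
      exact h4
    obtain ⟨c, hc⟩ : ∃ c, c = b / ((r ^ 4)⁻¹ - 1) := ⟨_, rfl⟩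
    have hcb : -c + (r ^ 4)⁻¹ * c = b := by
      rw [hc]
      field_simp
      ring
    refine ⟨pr h * pr (CfgU_u c) * (pr h)⁻¹, ?_, ?_⟩
    · rw [hk]
      refine ⟨c, ?_⟩
      group
    · rw [hprg, hx']
      have h3 : cm (pr h * pr (CfgU_u c) * (pr h)⁻¹) (pr h * pr (CfgU_d r hr) * (pr h)⁻¹) =
          pr h * ((pr (CfgU_u c))⁻¹ * ((pr (CfgU_d r hr))⁻¹ * pr (CfgU_u c) *
            pr (CfgU_d r hr))) * (pr h)⁻¹ := by
        show (pr h * pr (CfgU_u c) * (pr h)⁻¹)⁻¹ * (pr h * pr (CfgU_d r hr) * (pr h)⁻¹)⁻¹ *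
          (pr h * pr (CfgU_u c) * (pr h)⁻¹) * (pr h * pr (CfgU_d r hr) * (pr h)⁻¹) = _
        group
      have h4 : (pr (CfgU_d r hr))⁻¹ * pr (CfgU_u c) * pr (CfgU_d r hr) =
          pr (CfgU_u ((r ^ 4)⁻¹ * c)) := by
        have h5 := hdconj ((r ^ 4)⁻¹ * c)
        rw [← mul_assoc, mul_inv_cancel₀ hr40, one_mul] at h5
        rw [mul_assoc, ← h5, inv_mul_cancel_left]
      rw [h3, h4, ← CfgU_pr_inv, CfgU_u_inv, ← SylInv_mul, CfgU_u_mul, hcb]

end MP_8aaf67.PT
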