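import Pool.Agent.Work.MP_8aaf67_al.PT.Stmts
import Pool.Agent.Work.MP_8aaf67_al.PT.CfgU

/-!
# Project PT: the conjugates of one element generate the Sylow subgroup for the characteristic
-/

set_option autoImplicit false

open Subgroup MP_8aaf67.PS

namespace MP_8aaf67.PT

/-- the diagonal matrices -/
def ConjU_d {F : Type} [Field F] (s : F) (hs : s ≠ 0) : SL2 F :=
  ⟨!![s, 0; 0, s⁻¹], by
    rw [Matrix.det_fin_two_of, mul_inv_cancel₀ hs]
    ring⟩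

theorem ConjU_d_conj {F : Type} [Field F] (s : F) (hs : s ≠ 0) (b : F) :
    ConjU_d s hs * CfgU_u b = CfgU_u (s ^ 2 * b) * ConjU_d s hs := by
  apply Subtype.ext
  rw [Matrix.SpecialLinearGroup.coe_mul, Matrix.SpecialLinearGroup.coe_mul]
  ext i j
  fin_cases i <;> fin_cases j <;> simp [CfgU_u, ConjU_d, Matrix.mul_apply, Fin.sum_univ_two]
  field_simp

theorem prf_ConjU : ConjU := by
  intro F _ _ h2 p _ hp P hP v hv hv1
  obtain ⟨k, -, hk⟩ := SylIn.conj (CfgU_syl h2 hp) hP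
  obtain ⟨h, rfl⟩ := QuotientGroup.mk'_surjective (center (SL2 F)) k
  change ∀ x, x ∈ P ↔ (pr h)⁻¹ * x * pr h ∈ CfgU_U F at hk
  obtain ⟨b₀, hb₀⟩ := (hk v).1 hv
  have hv' : v = pr h * pr (CfgU_u b₀) * (pr h)⁻¹ := by
    rw [← hb₀]
    group
  have hb₀0 : b₀ ≠ 0 := by
    rintro rfl
    apply hv1
    have h1 : pr (1 : SL2 F) = 1 := map_one (QuotientGroup.mk' (center (SL2 F)))
    rw [hv', CfgU_u_zero, h1]
    group
  set C : Subgroup (PSL2 F) :=
    closure {x | ∃ g, (∀ y ∈ P, g * y * g⁻¹ ∈ P) ∧ x = g * v * g⁻¹} with hC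
  have key : ∀ s : F, pr h * pr (CfgU_u (s ^ 2 * b₀)) * (pr h)⁻¹ ∈ C := by
    intro s
    by_cases hs : s = 0
    · have h1 : pr (1 : SL2 F) = 1 := map_one (QuotientGroup.mk' (center (SL2 F)))
      rw [hs, zero_pow two_ne_zero, zero_mul, CfgU_u_zero, h1, mul_one, mul_inv_cancel]
      exact one_mem C
    · have hdconj : ∀ b : F, pr (ConjU_d s hs) * pr (CfgU_u b) =
          pr (CfgU_u (s ^ 2 * b)) * pr (ConjU_d s hs) := by
        intro b
        rw [← SylInv_mul, ConjU_d_conj, SylInv_mul]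
      apply Subgroup.subset_closure
      refine ⟨pr h * pr (ConjU_d s hs) * (pr h)⁻¹, ?_, ?_⟩
      · intro y hy
        rw [hk]
        obtain ⟨b, hb⟩ := (hk y).1 hy
        refine ⟨s ^ 2 * b, ?_⟩
        have h3 : (pr h)⁻¹ * (pr h * pr (ConjU_d s hs) * (pr h)⁻¹ * y *
            (pr h * pr (ConjU_d s hs) * (pr h)⁻¹)⁻¹) * pr h =
            pr (ConjU_d s hs) * ((pr h)⁻¹ * y * pr h) * (pr (ConjU_d s hs))⁻¹ := by group
        rw [h3, hb, hdconj, mul_inv_cancel_right]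
      · have h3 : pr (CfgU_u (s ^ 2 * b₀)) =
            pr (ConjU_d s hs) * pr (CfgU_u b₀) * (pr (ConjU_d s hs))⁻¹ := by
          rw [hdconj, mul_inv_cancel_right]
        rw [h3, hv']
        group
  intro x hx
  obtain ⟨b, hb⟩ := (hk x).1 hx
  have hx' : x = pr h * pr (CfgU_u b) * (pr h)⁻¹ := by
    rw [← hb]
    group
  obtain ⟨s, hs⟩ : ∃ s, s = (b / b₀ + 1) / 2 := ⟨_, rfl⟩
  obtain ⟨t, ht⟩ : ∃ t, t = (b / b₀ - 1) / 2 := ⟨_, rfl⟩
  have hbst : b = s ^ 2 * b₀ + -(t ^ 2 * b₀) := by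
    rw [hs, ht]
    field_simp
    ring
  have h4 : x = pr h * pr (CfgU_u (s ^ 2 * b₀)) * (pr h)⁻¹ *
      (pr h * pr (CfgU_u (t ^ 2 * b₀)) * (pr h)⁻¹)⁻¹ := by
    rw [hx', hbst, ← CfgU_u_mul, SylInv_mul, ← CfgU_u_inv, CfgU_pr_inv]
    group
  rw [h4]
  exact mul_mem (key s) (inv_mem (key t))

end MP_8aaf67.PT
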