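import Pool.Agent.Work.MP_8aaf67_al.PT.Stmts

/-!
# MP_8aaf67_al, project PT: item Core1
-/

set_option autoImplicit false

open Subgroup MP_8aaf67.PS

namespace MP_8aaf67.PT

private theorem Core1_HS {S X : Type} [Group S] [Group X] (π : S →* X)
    (hπ : Function.Surjective π) (h : HS S) : HS X := by
  intro Z _ _ hZ
  refine h Z ?_
  obtain ⟨H, f, hf⟩ := hZ
  refine ⟨H.comap π, f.comp (π.subgroupComap H), ?_⟩
  refine hf.comp ?_
  rintro ⟨y, hy⟩
  obtain ⟨x, rfl⟩ := hπ y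
  exact ⟨⟨x, hy⟩, rfl⟩

theorem prf_Core1 (hR : LemR) (hVD : VerbD) : Core1 := by
  intro p hp hp2 S F _ _ _ _ π hπ hker hHS hpF hA H P hH hns hP hPH k
  have hY : H.comap π ≠ ⊤ := by
    intro h
    apply hH
    rw [eq_top_iff]
    intro y _
    obtain ⟨x, rfl⟩ := hπ y
    have : x ∈ H.comap π := by rw [h]; exact mem_top x
    exact this
  have hidx : ¬ p ∣ (H.comap π).relIndex ⊤ := by
    rw [relIndex_top_right, index_comap_of_surjective _ hπ]
    intro h
    have h1 := hP.2.2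
    rw [relIndex_top_right] at h1
    exact h1 (h.trans (index_dvd_of_le hPH))
  obtain ⟨B, -, hBY⟩ := SylIn.exists_ge (p := p) (G := S) (R := ⊥) (K := H.comap π)
    IsPGroup.of_bot bot_le
  have hB : SylIn p B ⊤ := hBY.trans_of_not_dvd le_top hidx
  have hBm : SylIn p (B.map π) ⊤ := by
    have := hB.map π
    rwa [← MonoidHom.range_eq_map, MonoidHom.range_eq_top.2 hπ] at this
  have hBH : B.map π ≤ H := by
    rw [map_le_iff_le_comap]
    exact hBY.1
  have hD := hR F (Core1_HS π hπ hHS) p hp2 hpF H (B.map π) hns hBm hBH k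
  have hs : Function.Surjective (π.subgroupComap H) := by
    rintro ⟨y, hy⟩
    obtain ⟨x, rfl⟩ := hπ y
    exact ⟨⟨x, hy⟩, rfl⟩
  have hBK : B ≤ KI (dtree k) (H.comap π) := by
    intro b hb
    refine ⟨⟨b, hBY.1 hb⟩, ?_, rfl⟩
    apply hVD
    obtain ⟨d, hd, hdb⟩ := hD ⟨b, hb, rfl⟩
    rw [← map_derivedSeries_eq hs k] at hd
    obtain ⟨y, hy, rfl⟩ := hd
    rw [← QuotientGroup.eq_one_iff]
    have hyb : π (y : S) = π b := hdb
    obtain ⟨n, hn⟩ := hB.2.1 ⟨b, hb⟩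
    have hn' : b ^ p ^ n = 1 := congrArg Subtype.val hn
    have h1 : orderOf ((⟨b, hBY.1 hb⟩ : H.comap π) : (H.comap π) ⧸ derivedSeries (H.comap π) k) ∣
        p ^ n := by
      rw [orderOf_dvd_iff_pow_eq_one]
      have : (⟨b, hBY.1 hb⟩ : H.comap π) ^ p ^ n = 1 := Subtype.ext hn'
      rw [← QuotientGroup.mk_pow, this, QuotientGroup.mk_one]
    have h2 : ((⟨b, hBY.1 hb⟩ : H.comap π) : (H.comap π) ⧸ derivedSeries (H.comap π) k) =
        ((y⁻¹ * ⟨b, hBY.1 hb⟩ : H.comap π) : (H.comap π) ⧸ derivedSeries (H.comap π) k) := by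
      rw [QuotientGroup.mk_mul, QuotientGroup.mk_inv, (QuotientGroup.eq_one_iff y).2 hy, inv_one,
        one_mul]
    have h3 : orderOf ((y⁻¹ * ⟨b, hBY.1 hb⟩ : H.comap π) :
        (H.comap π) ⧸ derivedSeries (H.comap π) k) ∣ Nat.card π.ker := by
      have h4 : ((y⁻¹ * ⟨b, hBY.1 hb⟩ : H.comap π) : S) ∈ π.ker := by
        rw [MonoidHom.mem_ker]
        change π ((y : S)⁻¹ * b) = 1
        rw [map_mul, map_inv, hyb, inv_mul_cancel]
      have h5 : ((y⁻¹ * ⟨b, hBY.1 hb⟩ : H.comap π) : S) ^ Nat.card π.ker = 1 :=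
        congrArg Subtype.val (pow_card_eq_one' (x := (⟨_, h4⟩ : π.ker)))
      rw [orderOf_dvd_iff_pow_eq_one]
      have : (y⁻¹ * ⟨b, hBY.1 hb⟩ : H.comap π) ^ Nat.card π.ker = 1 := Subtype.ext h5
      rw [← QuotientGroup.mk_pow, this, QuotientGroup.mk_one]
    rw [← h2] at h3
    exact orderOf_eq_one_iff.1 (eq_one_of_pow_of_not_dvd h1 (fun h => hker (h.trans h3)))
  refine A_of_one ⟨B, hB, ?_⟩
  intro x hx
  have h1 := A_sub (hA (H.comap π) hY (dtree k)) hBY ⟨hx.1, hBK hx.1⟩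
  exact closure_mono (Set.inter_subset_inter_right _ (VI_subset _ _)) h1

end MP_8aaf67.PT
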