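import Pool.Agent.Work.MP_8aaf67_al.PT.Stmts

/-!
# Core2: no proper nonsoluble subgroup contains a Sylow subgroup, odd characteristic
-/

set_option autoImplicit false

open Subgroup MP_8aaf67.PS

namespace MP_8aaf67.PT

theorem Core2_HS {S X : Type} [Group S] [Group X] (π : S →* X) (hπ : Function.Surjective π)
    (h : HS S) (K : Subgroup X) : HS K := by
  intro Y _ _ hsec hsim hab
  refine h Y ?_ hsim hab
  obtain ⟨H, f, hf⟩ := hsec
  let e : H ≃* H.map K.subtype := H.equivMapOfInjective K.subtype K.subtype_injective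
  refine ⟨(H.map K.subtype).comap π,
    (f.comp e.symm.toMonoidHom).comp (π.subgroupComap (H.map K.subtype)), ?_⟩
  intro y
  obtain ⟨x, hx⟩ := hf y
  obtain ⟨s, hs⟩ := hπ (e x : X)
  refine ⟨⟨s, ?_⟩, ?_⟩
  · rw [mem_comap, hs]
    exact (e x).2
  · have h1 : π.subgroupComap (H.map K.subtype) ⟨s, by rw [mem_comap, hs]; exact (e x).2⟩ =
        e x := Subtype.ext hs
    show f (e.symm (π.subgroupComap (H.map K.subtype) ⟨s, _⟩)) = y
    rw [h1, MulEquiv.symm_apply_apply, hx]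

theorem Core2_syl {p : ℕ} [Fact p.Prime] {G : Type} [Group G] [Finite G] {P Q : Subgroup G}
    (hP : SylIn p P ⊤) (hc : Nat.card Q = Nat.card P) : SylIn p Q ⊤ := by
  obtain ⟨n, hn⟩ := IsPGroup.iff_card.1 hP.2.1
  refine ⟨le_top, IsPGroup.iff_card.2 ⟨n, by rw [hc, hn]⟩, ?_⟩
  have h1 := hP.2.2
  rw [relIndex_top_right] at h1 ⊢
  have h2 := Q.card_mul_index
  have h3 := P.card_mul_index
  rw [hc] at h2
  have h4 : Q.index = P.index := Nat.eq_of_mul_eq_mul_left Nat.card_pos (h2.trans h3.symm)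
  rwa [h4]

theorem Core2_sq {p : ℕ} [Fact p.Prime] (hp : p ≠ 2) {G : Type} [Group G] (P : Subgroup G)
    (hP : IsPGroup p P) (x : G) (hx : x ∈ P) : ∃ z ∈ P, z * z = x := by
  obtain ⟨j, hj⟩ := hP ⟨x, hx⟩
  have h1 : x ^ p ^ j = 1 := by
    have := congrArg Subtype.val hj
    simpa using this
  have hodd : Odd (p ^ j) := ((Fact.out : p.Prime).odd_of_ne_two hp).pow
  obtain ⟨m, hm⟩ := hodd
  refine ⟨x ^ (m + 1), P.pow_mem hx _, ?_⟩
  rw [← pow_add, show m + 1 + (m + 1) = p ^ j + 1 by omega, pow_succ, h1, one_mul]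

theorem prf_Core2 (hAct : ActG) (hGTP : GTPodd) (hGT : GTodd) (hInv : InvT) (hCyc : CycT)
    (hTrT : TrT) (hNSO : NSO) : Core2 := by
  intro p _ hp S F _ _ _ _ π hπ hfr hker hHS hdvd hpF h2 h9 hyp
  obtain ⟨B, -, hB⟩ := SylIn.exists_ge (p := p) (R := (⊥ : Subgroup S)) (K := (⊤ : Subgroup S))
    (IsPGroup.of_bot) bot_le
  have hP : SylIn p (B.map π) ⊤ := by
    have := hB.map π
    rwa [Subgroup.map_top_of_surjective π hπ] at this
  have hPp : IsPGroup p (B.map π) := hP.2.1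
  have hPne : B.map π ≠ ⊥ := by
    intro h
    have h1 := hP.2.2
    rw [h, relIndex_top_right, index_bot] at h1
    exact h1 hdvd
  have hcyc : IsCyclic (B.map π) := hCyc F p hp hpF _ hPp
  obtain ⟨c, hc⟩ := IsCyclic.exists_ofOrder_eq_natCard (α := B.map π)
  obtain ⟨C₀, hC₀⟩ := QuotientGroup.mk'_surjective (center (SL2 F)) (c : PSL2 F)
  have hC₁ : orderOf (pr C₀) = Nat.card (B.map π) := by
    rw [← hc]
    show orderOf (QuotientGroup.mk' (center (SL2 F)) C₀) = _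
    rw [hC₀, Subgroup.orderOf_coe]
  obtain ⟨n, hn⟩ := IsPGroup.iff_card.1 hPp
  have hn0 : n ≠ 0 := by
    rintro rfl
    rw [pow_zero] at hn
    exact hPne (Subgroup.card_eq_one.1 hn)
  obtain ⟨e, rfl⟩ := Nat.exists_eq_succ_of_ne_zero hn0
  have hord : orderOf (pr C₀) = p ^ (e + 1) := hC₁.trans hn
  have hall : ∀ (k : ℕ) (C : SL2 F), C ∉ center (SL2 F) → pr C ∈ GT (PSL2 F) k := by
    obtain ⟨t0, t2, t4, t1, tD⟩ := hTrT F p hp hpF C₀ e hord
    by_cases h3 : orderOf (pr C₀) = 3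
    · refine hGT F h2 h9 fun K hK => ?_
      by_contra hns
      have h4 : 3 ∣ Nat.card K := (hNSO K (Core2_HS π hπ hHS K) hns).2
      obtain ⟨y, hy⟩ := exists_prime_orderOf_dvd_card' 3 h4
      have h5 : SylIn p (zpowers (y : PSL2 F)) ⊤ := by
        refine Core2_syl hP ?_
        rw [Nat.card_zpowers, Subgroup.orderOf_coe, hy, ← hC₁, h3]
      exact hK (hyp K _ hns h5 (by rw [zpowers_le]; exact y.2))
    · refine hGTP F h2 (tr C₀) t0 (fun h => h3 (t1 h)) t2 t4 ?_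
      rintro H hns ⟨A, hA, hAH⟩
      have h5 : SylIn p (zpowers (pr A)) ⊤ := by
        refine Core2_syl hP ?_
        rw [Nat.card_zpowers, tD A hA, hC₁]
      exact hyp H _ hns h5 (by rw [zpowers_le]; exact hAH)
  obtain ⟨g, hg, hgP⟩ := hInv F p hp hpF _ hPp hPne
  refine hAct p S (PSL2 F) π hπ hfr hker B hB (pr g) (fun k => hall k g hg) ?_ ?_
  · intro x hx
    rw [hgP x hx]
    exact inv_mem hx
  · intro x hx
    obtain ⟨z, hz, hzx⟩ := Core2_sq hp _ hPp x hx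
    refine ⟨z⁻¹, inv_mem hz, ?_⟩
    have h6 := hgP z hz
    have h7 : (pr g)⁻¹ * z⁻¹ * pr g = z := by
      have : z⁻¹ = pr g * z * (pr g)⁻¹ := h6.symm
      rw [this]
      group
    rw [cm, inv_inv, ← hzx]
    calc z * (pr g)⁻¹ * z⁻¹ * pr g = z * ((pr g)⁻¹ * z⁻¹ * pr g) := by group
      _ = z * z := by rw [h7]

end MP_8aaf67.PT
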