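import Pool.Agent.Work.MP_8aaf67_al.PT.Stmts

/-!
# Core3: no proper nonsoluble subgroup contains a Sylow subgroup, characteristic 2
-/

set_option autoImplicit false

open Subgroup MP_8aaf67.PS

namespace MP_8aaf67.PT

theorem Core3_HS {S X : Type} [Group S] [Group X] (π : S →* X) (hπ : Function.Surjective π)
    (h : HS S) (K : Subgroup X) : HS K := by
  intro Y _ _ hsec hsim hab
  refine h Y ?_ hsim hab
  obtain ⟨H, f, hf⟩ := hsec
  let e : H ≃* H.map K.subtype := H.equivMapOfInjective K.subtype K.subtype_injective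
  refine ⟨(H.map K.subtype).comap π,
    (f.comp e.symm.toMonoidHom).comp (π.subgroupComap (H.map K.subtype)), ?_⟩
  intro y
  obtain ⟨x, hx⟩ := hf y
  obtain ⟨s, hs⟩ := hπ (e x : X)
  refine ⟨⟨s, ?_⟩, ?_⟩
  · rw [mem_comap, hs]
    exact (e x).2
  · have h1 : π.subgroupComap (H.map K.subtype) ⟨s, by rw [mem_comap, hs]; exact (e x).2⟩ =
        e x := Subtype.ext hs
    show f (e.symm (π.subgroupComap (H.map K.subtype) ⟨s, _⟩)) = y
    rw [h1, MulEquiv.symm_apply_apply, hx]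

theorem Core3_syl {p : ℕ} [Fact p.Prime] {G : Type} [Group G] [Finite G] {P Q : Subgroup G}
    (hP : SylIn p P ⊤) (hc : Nat.card Q = Nat.card P) : SylIn p Q ⊤ := by
  obtain ⟨n, hn⟩ := IsPGroup.iff_card.1 hP.2.1
  refine ⟨le_top, IsPGroup.iff_card.2 ⟨n, by rw [hc, hn]⟩, ?_⟩
  have h1 := hP.2.2
  rw [relIndex_top_right] at h1 ⊢
  have h2 := Q.card_mul_index
  have h3 := P.card_mul_index
  rw [hc] at h2
  have h4 : Q.index = P.index := Nat.eq_of_mul_eq_mul_left Nat.card_pos (h2.trans h3.symm)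
  rwa [h4]

theorem Core3_sq {p : ℕ} [Fact p.Prime] (hp : p ≠ 2) {G : Type} [Group G] (P : Subgroup G)
    (hP : IsPGroup p P) (x : G) (hx : x ∈ P) : ∃ z ∈ P, z * z = x := by
  obtain ⟨j, hj⟩ := hP ⟨x, hx⟩
  have h1 : x ^ p ^ j = 1 := by
    have := congrArg Subtype.val hj
    simpa using this
  have hodd : Odd (p ^ j) := ((Fact.out : p.Prime).odd_of_ne_two hp).pow
  obtain ⟨m, hm⟩ := hodd
  refine ⟨x ^ (m + 1), P.pow_mem hx _, ?_⟩
  rw [← pow_add, show m + 1 + (m + 1) = p ^ j + 1 by omega, pow_succ, h1, one_mul]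


theorem Core3_tr_sq {F : Type} [Field F] (h2 : (2 : F) = 0) (A : SL2 F) :
    tr (A * A) = tr A ^ 2 := by
  have hdet : (A : Matrix (Fin 2) (Fin 2) F) 0 0 * (A : Matrix (Fin 2) (Fin 2) F) 1 1 -
      (A : Matrix (Fin 2) (Fin 2) F) 0 1 * (A : Matrix (Fin 2) (Fin 2) F) 1 0 = 1 := by
    have := A.2
    rwa [Matrix.det_fin_two] at this
  unfold tr
  rw [Matrix.SpecialLinearGroup.coe_mul, Matrix.trace_fin_two, Matrix.trace_fin_two,
    Matrix.mul_apply, Matrix.mul_apply, Fin.sum_univ_two, Fin.sum_univ_two]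
  linear_combination (-2 : F) * hdet - h2

theorem Core3_card {F : Type} [Field F] [Finite F] (h2 : (2 : F) = 0) {p : ℕ}
    [Fact p.Prime] (hp : p ≠ 2) : ¬ p ∣ Nat.card F := by
  intro hd
  have hc : CharP F 2 := by
    rw [CharP.charP_iff_prime_eq_zero Nat.prime_two]
    exact_mod_cast h2
  have : Fintype F := Fintype.ofFinite F
  obtain ⟨n, _, hn⟩ := FiniteField.card F 2
  rw [Nat.card_eq_fintype_card, hn] at hd
  have := (Fact.out : p.Prime).dvd_of_dvd_pow hd
  exact hp ((Nat.prime_dvd_prime_iff_eq Fact.out Nat.prime_two).1 this)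

theorem prf_Core3 (hAct : ActE) (hGTP : GTPeven) (hGT : GTeven) (hCfg : CfgE) (hCyc : CycT)
    (hTrT : TrT) (hNSO : NSO) : Core3 := by
  intro p _ hp S F _ _ _ _ π hπ hfr hker hHS hdvd h2 h4 hne hyp
  have hpF : ¬ p ∣ Nat.card F := Core3_card h2 hp
  obtain ⟨B, -, hB⟩ := SylIn.exists_ge (p := p) (R := (⊥ : Subgroup S)) (K := (⊤ : Subgroup S))
    (IsPGroup.of_bot) bot_le
  have hP : SylIn p (B.map π) ⊤ := by
    have := hB.map π
    rwa [Subgroup.map_top_of_surjective π hπ] at this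
  have hPp : IsPGroup p (B.map π) := hP.2.1
  have hPne : B.map π ≠ ⊥ := by
    intro h
    have h1 := hP.2.2
    rw [h, relIndex_top_right, index_bot] at h1
    exact h1 hdvd
  have hcyc : IsCyclic (B.map π) := hCyc F p hp hpF _ hPp
  obtain ⟨c, hc⟩ := IsCyclic.exists_ofOrder_eq_natCard (α := B.map π)
  obtain ⟨C₀, hC₀⟩ := QuotientGroup.mk'_surjective (center (SL2 F)) (c : PSL2 F)
  have hC₁ : orderOf (pr C₀) = Nat.card (B.map π) := by
    rw [← hc]
    show orderOf (QuotientGroup.mk' (center (SL2 F)) C₀) = _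
    rw [hC₀, Subgroup.orderOf_coe]
  obtain ⟨n, hn⟩ := IsPGroup.iff_card.1 hPp
  have hn0 : n ≠ 0 := by
    rintro rfl
    rw [pow_zero] at hn
    exact hPne (Subgroup.card_eq_one.1 hn)
  obtain ⟨e, rfl⟩ := Nat.exists_eq_succ_of_ne_zero hn0
  have hord : orderOf (pr C₀) = p ^ (e + 1) := hC₁.trans hn
  have hall : ∀ (k : ℕ) (C : SL2 F), tr C ≠ 0 → pr C ∈ GT (PSL2 F) k := by
    obtain ⟨t0, _, _, t1, tD⟩ := hTrT F p hp hpF C₀ e hord
    by_cases h3 : orderOf (pr C₀) = 3
    · refine hGT F h2 h4 fun K hK => ?_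
      by_contra hns
      have h5 : 3 ∣ Nat.card K := (hNSO K (Core3_HS π hπ hHS K) hns).2
      obtain ⟨y, hy⟩ := exists_prime_orderOf_dvd_card' 3 h5
      have h6 : SylIn p (zpowers (y : PSL2 F)) ⊤ := by
        refine Core3_syl hP ?_
        rw [Nat.card_zpowers, Subgroup.orderOf_coe, hy, ← hC₁, h3]
      exact hK (hyp K _ hns h6 (by rw [zpowers_le]; exact y.2))
    · have hord2 : orderOf (pr (C₀ * C₀)) = p ^ (e + 1) := by
        have h1 : pr (C₀ * C₀) = pr C₀ ^ 2 := by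
          rw [pow_two]
          exact map_mul (QuotientGroup.mk' (center (SL2 F))) C₀ C₀
        rw [h1, Nat.Coprime.orderOf_pow, hord]
        rw [hord]
        exact ((Nat.coprime_primes Fact.out Nat.prime_two).2 hp).pow_left _
      obtain ⟨t0', _, _, _, tD'⟩ := hTrT F p hp hpF (C₀ * C₀) e hord2
      refine hGTP F h2 h4 (tr C₀) (tr (C₀ * C₀)) t0 t0' ?_ ?_
      · intro heq
        rw [Core3_tr_sq h2, pow_two] at heq
        have h1 : tr C₀ = 1 := by
          apply mul_left_cancel₀ t0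
          rw [mul_one]
          exact heq.symm
        exact h3 (t1 (by rw [h1, one_pow]))
      · rintro H hns ⟨A, hA, hAH⟩
        have h5 : SylIn p (zpowers (pr A)) ⊤ := by
          refine Core3_syl hP ?_
          rw [Nat.card_zpowers]
          rcases hA with hA | hA
          · rw [tD A hA, hC₁]
          · rw [tD' A hA, hord2, hn]
        exact hyp H _ hns h5 (by rw [zpowers_le]; exact hAH)
  obtain ⟨c, d, hc0, hd0, hgP, hM⟩ := hCfg F h2 h4 p hp hne _ hPp hPne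
  refine hAct p S (PSL2 F) π hπ hfr hker B hB (pr c) (pr d)
    (fun k => ⟨hall k c hc0, hall k d hd0⟩) hM ?_ ?_
  · intro x hx
    rw [hgP x hx]
    exact inv_mem hx
  · intro x hx
    obtain ⟨z, hz, hzx⟩ := Core3_sq hp _ hPp x hx
    refine ⟨z⁻¹, inv_mem hz, ?_⟩
    have h6 := hgP z hz
    generalize cm (pr c) (pr d) = g at h6
    have h7 : g⁻¹ * z⁻¹ * g = z := by
      have : z⁻¹ = g * z * g⁻¹ := h6.symm
      rw [this]
      group
    rw [cm, inv_inv, ← hzx]
    calc z * g⁻¹ * z⁻¹ * g = z * (g⁻¹ * z⁻¹ * g) := by group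
      _ = z * z := by rw [h7]

end MP_8aaf67.PT
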