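import Pool.Agent.Work.MP_8aaf67_al.PT.Stmts

/-!
# MP_8aaf67_al, project PT: item Core4
-/

set_option autoImplicit false

open Subgroup MP_8aaf67.PS

namespace MP_8aaf67.PT

private theorem Core4_HS {S X : Type} [Group S] [Group X] (π : S →* X)
    (hπ : Function.Surjective π) (h : HS S) : HS X := by
  intro Z _ _ hZ
  refine h Z ?_
  obtain ⟨H, f, hf⟩ := hZ
  refine ⟨H.comap π, f.comp (π.subgroupComap H), ?_⟩
  refine hf.comp ?_
  rintro ⟨y, hy⟩
  obtain ⟨x, rfl⟩ := hπ y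
  exact ⟨⟨x, hy⟩, rfl⟩

private theorem Core4_two {F : Type} [Field F] [Finite F] {p : ℕ} [hp : Fact p.Prime]
    (h2 : p ≠ 2) (h : p ∣ Nat.card F) : (2 : F) ≠ 0 := by
  intro h0
  obtain ⟨x, hx⟩ := exists_prime_addOrderOf_dvd_card' (G := F) p h
  have h1 : (2 : ℕ) • x = 0 := by
    rw [nsmul_eq_mul]
    have : ((2 : ℕ) : F) = (2 : F) := by norm_num
    rw [this, h0, zero_mul]
  have h3 : addOrderOf x ∣ 2 := addOrderOf_dvd_of_nsmul_eq_zero h1
  rw [hx] at h3
  exact h2 ((Nat.prime_dvd_prime_iff_eq hp.out Nat.prime_two).1 h3)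

theorem prf_Core4 (hLU : LemU) (hVD : VerbD) (hCj : ConjU) (hB : LiftB) : Core4 := by
  intro p hp hp2 S F _ _ _ _ π hπ hker hHS hpF hA H hH hns hpH k
  have h20 : (2 : F) ≠ 0 := Core4_two hp2 hpF
  -- the subgroup Y
  have hY : H.comap π ≠ ⊤ := by
    intro h
    apply hH
    rw [eq_top_iff]
    intro y _
    obtain ⟨x, rfl⟩ := hπ y
    have : x ∈ H.comap π := by rw [h]; exact mem_top x
    exact this
  have hAY := hA (H.comap π) hY (dtree k)
  have hpD := hLU F (Core4_HS π hπ hHS) p hp2 H hns hpH hpF k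
  have hpDY : p ∣ Nat.card (derivedSeries (H.comap π) k) := by
    have hs : Function.Surjective (π.subgroupComap H) := by
      rintro ⟨y, hy⟩
      obtain ⟨x, rfl⟩ := hπ y
      exact ⟨⟨x, hy⟩, rfl⟩
    have h1 := map_derivedSeries_eq hs k
    rw [← h1] at hpD
    exact hpD.trans (card_map_dvd _ _)
  obtain ⟨B1, -, hB1⟩ := SylIn.exists_ge (p := p) (G := H.comap π) (R := ⊥) (K := ⊤)
    IsPGroup.of_bot bot_le
  have hne : ∃ v : H.comap π, v ∈ B1 ∧ v ≠ 1 ∧ v ∈ vals (dtree k) (H.comap π) := by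
    by_contra hcon
    push Not at hcon
    have h1 : closure ((B1 : Set (H.comap π)) ∩ vals (dtree k) (H.comap π)) = ⊥ := by
      rw [closure_eq_bot_iff]
      rintro x ⟨hx1, hx2⟩
      by_contra hx3
      exact hcon x hx1 hx3 hx2
    have h2 := hAY B1 hB1
    rw [h1] at h2
    have h3 : SylIn p (B1 ⊓ derivedSeries (H.comap π) k) (derivedSeries (H.comap π) k) :=
      hB1.inf_normal le_top
    have h4 : B1 ⊓ derivedSeries (H.comap π) k = ⊥ := by
      rw [eq_bot_iff]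
      exact (inf_le_inf_left B1 (hVD (H.comap π) k)).trans h2
    rw [h4] at h3
    exact (not_dvd_card_iff_sylIn_bot.2 h3) hpDY
  obtain ⟨v1, hv1, hv1n, hv1v⟩ := hne
  have hvS : (v1 : S) ∈ vals (dtree k) S := map_mem_vals (dtree k) (H.comap π).subtype hv1v
  obtain ⟨B, hB1B, hBS⟩ := SylIn.exists_ge (p := p) (G := S)
    (R := B1.map (H.comap π).subtype) (K := ⊤) (hB1.2.1.map _) le_top
  have hvB : (v1 : S) ∈ B := hB1B ⟨v1, hv1, rfl⟩
  have hvn : (v1 : S) ≠ 1 := fun h => hv1n (Subtype.ext h)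
  -- π is injective on B
  have hinj : ∀ x ∈ B, π x = 1 → x = 1 := by
    intro x hx hx1
    have h1 : orderOf x ∣ Nat.card π.ker := by
      have : orderOf (⟨x, hx1⟩ : π.ker) = orderOf x := by
        rw [← Subgroup.orderOf_coe]
      rw [← this]
      exact orderOf_dvd_natCard _
    obtain ⟨n, hn⟩ := hBS.2.1 ⟨x, hx⟩
    have h2 : orderOf x ∣ p ^ n := by
      rw [orderOf_dvd_iff_pow_eq_one]
      exact congrArg Subtype.val hn
    have h3 : orderOf x = 1 := by
      refine eq_one_of_pow_of_not_dvd h2 (fun h => hker (h.trans h1))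
    exact orderOf_eq_one_iff.1 h3
  have hP : SylIn p (B.map π) ⊤ := by
    have := hBS.map π
    rwa [← MonoidHom.range_eq_map, MonoidHom.range_eq_top.2 hπ] at this
  have hgen := hCj F h20 p hpF (B.map π) hP (π v1) ⟨_, hvB, rfl⟩ (fun h => hvn (hinj _ hvB h))
  refine A_of_one ⟨B, hBS, ?_⟩
  intro x hx
  have h1 : π x ∈ (closure ((B : Set S) ∩ vals (dtree k) S)).map π := by
    have h2 : π x ∈ B.map π := ⟨x, hx.1, rfl⟩
    have h3 := hgen h2
    refine (closure_le _).2 ?_ h3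
    rintro _ ⟨g, hg, rfl⟩
    obtain ⟨g', hg', hg'B⟩ := hB p S (PSL2 F) π hπ hker B hBS g hg
    refine ⟨g' * v1 * g'⁻¹, subset_closure ⟨hg'B _ hvB, conj_mem_vals _ g' hvS⟩, ?_⟩
    rw [map_mul, map_mul, map_inv, hg']
  obtain ⟨c, hc, hcx⟩ := h1
  have hcB : c ∈ B := by
    have : closure ((B : Set S) ∩ vals (dtree k) S) ≤ B :=
      (closure_le _).2 Set.inter_subset_left
    exact this hc
  have h5 : x * c⁻¹ = 1 := by
    refine hinj _ (B.mul_mem hx.1 (B.inv_mem hcB)) ?_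
    rw [map_mul, map_inv, hcx, mul_inv_cancel]
  rw [mul_inv_eq_one] at h5
  rw [h5]
  exact hc

end MP_8aaf67.PT
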