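import Pool.Agent.Work.MP_8aaf67_al.PT.Stmts

/-!
# MP_8aaf67_al, project PT: Core5
-/

set_option autoImplicit false

open Subgroup MP_8aaf67.PS

namespace MP_8aaf67.PT

/-- sections of sections are sections -/
private theorem Core5_section_trans {X Y G : Type*} [Group X] [Group Y] [Group G]
    (h1 : IsSectionOf X Y) (h2 : IsSectionOf Y G) : IsSectionOf X G := by
  obtain ⟨H, f, hf⟩ := h1
  obtain ⟨K, g, hg⟩ := h2.sub H
  exact ⟨K, f.comp g, hf.comp hg⟩

private theorem Core5_HS {S X : Type} [Group S] [Group X] (h : HS S) (hs : IsSectionOf X S) :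
    HS X := by
  intro Y _ _ hY h1 h2
  exact h Y (Core5_section_trans hY hs) h1 h2

/-- a group onto which `S` maps is a section -/
private theorem Core5_section_sub {S X : Type} [Group S] [Group X] (π : S →* X)
    (hπ : Function.Surjective π) (H : Subgroup X) : IsSectionOf H S := by
  refine ⟨H.comap π, π.subgroupComap H, ?_⟩
  rintro ⟨y, hy⟩
  obtain ⟨x, rfl⟩ := hπ y
  exact ⟨⟨x, hy⟩, rfl⟩

/-- the characteristic -/
private theorem Core5_char {F : Type} [Field F] [Finite F] {p : ℕ} (hp : p.Prime)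
    (h : p ∣ Nat.card F) : CharP F p ∧ ∃ n : ℕ, Nat.card F = p ^ n := by
  obtain ⟨q, hq⟩ := CharP.exists F
  have := Fintype.ofFinite F
  obtain ⟨n, hqp, hn⟩ := FiniteField.card F q
  rw [Nat.card_eq_fintype_card] at h ⊢
  have h1 : p ∣ q := by
    rw [hn] at h
    exact hp.dvd_of_dvd_pow h
  have h2 : p = q := (Nat.prime_dvd_prime_iff_eq hp hqp).1 h1
  rw [h2]
  exact ⟨hq, n, hn⟩

/-- unipotent elements have order `p` modulo the centre -/
private theorem Core5_unip {F : Type} [Field F] {p : ℕ} [hp : Fact p.Prime] [CharP F p]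
    (h2 : (2 : F) ≠ 0) (A : SL2 F) (hA : tr A ^ 2 = 4) : pr A ^ p = 1 := by
  set M : Matrix (Fin 2) (Fin 2) F := (A : Matrix (Fin 2) (Fin 2) F) with hM
  set e : F := tr A / 2 with he
  have hte : tr A = 2 * e := by
    rw [he]
    field_simp
  have he2 : e ^ 2 = 1 := by
    have h4 : (4 : F) * e ^ 2 = 4 * 1 := by
      rw [hte] at hA
      linear_combination hA
    have h40 : (4 : F) ≠ 0 := by
      have : (4 : F) = 2 * 2 := by norm_num
      rw [this]
      exact mul_ne_zero h2 h2
    exact mul_left_cancel₀ h40 h4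
  have hdet : M 0 0 * M 1 1 - M 0 1 * M 1 0 = 1 := by
    have := A.det_coe
    rw [Matrix.det_fin_two] at this
    exact this
  have htr : M 0 0 + M 1 1 = 2 * e := by
    have : tr A = M 0 0 + M 1 1 := by
      unfold tr
      rw [Matrix.trace_fin_two]
    rw [← this, hte]
  set N : Matrix (Fin 2) (Fin 2) F := M - e • (1 : Matrix (Fin 2) (Fin 2) F) with hN
  have hNN : N ^ 2 = 0 := by
    rw [pow_two]
    ext i j
    have h11 : M 1 1 = 2 * e - M 0 0 := by linear_combination htr
    fin_cases i <;> fin_cases j <;>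
      simp [hN, Matrix.mul_apply, Fin.sum_univ_two, Matrix.one_apply]
    · linear_combination (-1 : F) * hdet + M 0 0 * htr + he2
    · linear_combination M 0 1 * htr
    · linear_combination M 1 0 * htr
    · linear_combination (-1 : F) * hdet + M 1 1 * htr + he2
  have hMN : M = e • (1 : Matrix (Fin 2) (Fin 2) F) + N := by
    rw [hN]
    abel
  have hcomm : Commute (e • (1 : Matrix (Fin 2) (Fin 2) F)) N := by
    rw [commute_iff_eq, smul_mul_assoc, mul_smul_comm, one_mul, mul_one]
  have hMp : M ^ p = e ^ p • (1 : Matrix (Fin 2) (Fin 2) F) := by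
    rw [hMN, add_pow_char_of_commute p hcomm]
    have hNp : N ^ p = 0 := by
      obtain ⟨m, hm⟩ := Nat.exists_eq_add_of_le hp.out.two_le
      rw [hm, pow_add, hNN, zero_mul]
    rw [hNp, add_zero, smul_pow, one_pow]
  have hcen : A ^ p ∈ center (SL2 F) := by
    rw [Matrix.SpecialLinearGroup.mem_center_iff]
    refine ⟨e ^ p, ?_, ?_⟩
    · rw [Fintype.card_fin, ← pow_mul, mul_comm p 2, pow_mul, he2, one_pow]
    · rw [Matrix.SpecialLinearGroup.coe_pow]
      change _ = M ^ p
      rw [hMp]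
      ext i j
      simp [Matrix.scalar_apply, Matrix.one_apply, Matrix.diagonal_apply]
  have h1 : pr A ^ p = pr (A ^ p) := by
    unfold pr
    rw [map_pow]
  rw [h1]
  exact (QuotientGroup.eq_one_iff _).2 hcen

theorem prf_Core5 (hAct : ActG) (hGTU : GTU) (hGT : GTodd) (hCfg : CfgU) (hNSO : NSO) :
    Core5 := by
  intro p hp hp2 S F _ _ _ _ π hπ hker hpk hS hpF h7 hmax
  obtain ⟨hchar, n, hn⟩ := Core5_char hp.out hpF
  have := hchar
  have h2 : (2 : F) ≠ 0 := by
    intro h
    have h3 : p ∣ 2 := by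
      rw [← CharP.cast_eq_zero_iff F p 2]
      exact_mod_cast h
    exact hp2 ((Nat.prime_dvd_prime_iff_eq hp.out Nat.prime_two).1 h3)
  obtain ⟨B⟩ : Nonempty (Sylow p S) := inferInstance
  have hB : SylIn p (B : Subgroup S) ⊤ := SylIn.of_sylow B
  have hP : SylIn p ((B : Subgroup S).map π) ⊤ := by
    have h := hB.map π
    rwa [Subgroup.map_top_of_surjective _ hπ] at h
  obtain ⟨g, τ, hτ, htr, hgc, hnorm, hcm⟩ := hCfg F h2 p hpF h7 _ hP
  refine hAct p S (PSL2 F) π hπ hker hpk B hB (pr g) ?_ hnorm hcm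
  intro k
  by_cases h3 : (3 : F) = 0
  · have hp3 : p = 3 := by
      have h4 : p ∣ 3 := by
        rw [← CharP.cast_eq_zero_iff F p 3]
        exact_mod_cast h3
      exact (Nat.prime_dvd_prime_iff_eq hp.out Nat.prime_three).1 h4
    have h9 : 9 ≤ Nat.card F := by
      rw [hn, hp3] at h7 ⊢
      have hn2 : 2 ≤ n := by
        by_contra hcon
        interval_cases n <;> omega
      calc 9 = 3 ^ 2 := by norm_num
        _ ≤ 3 ^ n := Nat.pow_le_pow_right (by norm_num) hn2
    refine hGT F h2 h9 ?_ k g hgc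
    intro K hK
    by_contra hcon
    apply hK
    apply hmax K hcon
    rw [hp3]
    exact (hNSO K (Core5_HS hS (Core5_section_sub π hπ K)) hcon).2
  · refine hGTU F h2 h3 ?_ k g τ hτ htr hgc
    rintro H hH ⟨A, hAc, hA4, hAH⟩
    apply hmax H hH
    have ho : orderOf (⟨pr A, hAH⟩ : H) = p := by
      apply orderOf_eq_prime
      · exact Subtype.ext (Core5_unip h2 A hA4)
      · intro h
        exact hAc ((QuotientGroup.eq_one_iff A).1 (congrArg Subtype.val h))
    rw [← ho]
    exact orderOf_dvd_natCard _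

end MP_8aaf67.PT
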