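import Pool.Agent.Work.MP_8aaf67_al.PT.Stmts

/-!
# Item CoreP: all cases
-/

set_option autoImplicit false

open Subgroup MP_8aaf67.PS

namespace MP_8aaf67.PT

private lemma CoreP_card (F : Type) [Field F] [Finite F] :
    ∃ l n : ℕ, l.Prime ∧ Nat.card F = l ^ n ∧ n ≠ 0 ∧ ∀ m : ℕ, (m : F) = 0 ↔ l ∣ m := by
  classical
  haveI := Fintype.ofFinite F
  obtain ⟨l, hl⟩ := CharP.exists F
  obtain ⟨n, hlp, hcard⟩ := FiniteField.card F l
  exact ⟨l, n, hlp, by rw [Nat.card_eq_fintype_card, hcard], n.ne_zero,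
    fun m => CharP.cast_eq_zero_iff F l m⟩

private lemma CoreP_two (F : Type) [Field F] [Finite F] : (2 : F) = 0 ↔ 2 ∣ Nat.card F := by
  obtain ⟨l, n, hl, hc, hn, h⟩ := CoreP_card F
  have h2 : (2 : F) = 0 ↔ l ∣ 2 := by
    have := h 2
    rwa [Nat.cast_ofNat] at this
  rw [h2, hc]
  constructor
  · intro h3
    have : l = 2 := (Nat.prime_dvd_prime_iff_eq hl Nat.prime_two).mp h3
    subst this
    exact dvd_pow_self 2 hn
  · intro h3
    have h4 := Nat.prime_two.dvd_of_dvd_pow h3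
    rw [(Nat.prime_dvd_prime_iff_eq Nat.prime_two hl).mp h4]

private lemma CoreP_odd (F : Type) [Field F] [Finite F] (p : ℕ) (hp : p.Prime) (hp2 : p ≠ 2)
    (h : p ∣ Nat.card F) : ¬ 2 ∣ Nat.card F := by
  obtain ⟨l, n, hl, hc, hn, _⟩ := CoreP_card F
  rw [hc] at h ⊢
  intro h3
  have h4 := (Nat.prime_dvd_prime_iff_eq Nat.prime_two hl).mp (Nat.prime_two.dvd_of_dvd_pow h3)
  have h5 := (Nat.prime_dvd_prime_iff_eq hp hl).mp (hp.dvd_of_dvd_pow h)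
  exact hp2 (h5.trans h4.symm)

theorem prf_CoreP (h1 : Core1) (h2 : Core2) (h3 : Core3) (h4 : Core4) (h5 : Core5) : CoreP := by
  intro p _ hp S F _ _ _ _ π hπ hker hkp hS hpX hF hG hY k
  by_cases hpF : p ∣ Nat.card F
  · have h7 : 7 ≤ Nat.card F := (hG.2 (CoreP_odd F p Fact.out hp hpF)).1 hpF
    by_cases hH : ∃ H : Subgroup (PSL2 F), H ≠ ⊤ ∧ ¬ Group.IsSolvable H ∧ p ∣ Nat.card H
    · obtain ⟨H, hH1, hH2, hH3⟩ := hH
      exact h4 p hp S F π hπ hkp hS hpF hY H hH1 hH2 hH3 k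
    · refine h5 p hp S F π hπ hker hkp hS hpF h7 (fun H hH2 hH3 => ?_) k
      by_contra hH1
      exact hH ⟨H, hH1, hH2, hH3⟩
  · by_cases hH : ∃ H P : Subgroup (PSL2 F), H ≠ ⊤ ∧ ¬ Group.IsSolvable H ∧ SylIn p P ⊤ ∧ P ≤ H
    · obtain ⟨H, P, hH1, hH2, hH3, hH4⟩ := hH
      exact h1 p hp S F π hπ hkp hS hpF hY H P hH1 hH2 hH3 hH4 k
    · have hall : ∀ H P : Subgroup (PSL2 F), ¬ Group.IsSolvable H → SylIn p P ⊤ → P ≤ H →
          H = ⊤ := by
        intro H P hH2 hH3 hH4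
        by_contra hH1
        exact hH ⟨H, P, hH1, hH2, hH3, hH4⟩
      by_cases h20 : (2 : F) = 0
      · exact h3 p hp S F π hπ hker hkp hS hpX h20 hF (hG.1 ((CoreP_two F).mp h20)) hall k
      · exact h2 p hp S F π hπ hker hkp hS hpX hpF h20
          ((hG.2 (fun h => h20 ((CoreP_two F).mpr h))).2 hpF) hall k

end MP_8aaf67.PT
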