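import Pool.Agent.Work.MP_8aaf67_al.PT.Stmts

/-!
# p-subgroups of PSL(2,F) are cyclic if p does not divide the order of the field
-/

set_option autoImplicit false

open Subgroup MP_8aaf67.PS

namespace MP_8aaf67.PT

/-- the elements of the form `a + b X` -/
private def CycT_rep {F : Type} [Field F] (X e : SL2 F) (a b : F) : Prop :=
  e.val 0 0 = a + b * X.val 0 0 ∧ e.val 0 1 = b * X.val 0 1 ∧ e.val 1 0 = b * X.val 1 0 ∧
    e.val 1 1 = a + b * X.val 1 1

private theorem CycT_det {F : Type} [Field F] (X : SL2 F) :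
    X.val 0 0 * X.val 1 1 - X.val 0 1 * X.val 1 0 = 1 := by
  rw [← Matrix.det_fin_two]
  exact X.2

private theorem CycT_repOf {F : Type} [Field F] (X e : SL2 F) (a b : F)
    (h : (e : Matrix (Fin 2) (Fin 2) F) = a • (1 : Matrix (Fin 2) (Fin 2) F) +
      b • (X : Matrix (Fin 2) (Fin 2) F)) : CycT_rep X e a b := by
  refine ⟨?_, ?_, ?_, ?_⟩
  · have := congrFun (congrFun h 0) 0
    simpa using this
  · have := congrFun (congrFun h 0) 1
    simpa using this
  · have := congrFun (congrFun h 1) 0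
    simpa using this
  · have := congrFun (congrFun h 1) 1
    simpa using this

private theorem CycT_tr {F : Type} [Field F] (X : SL2 F) : tr X = X.val 0 0 + X.val 1 1 := by
  unfold tr
  rw [Matrix.trace_fin_two]

/-- the torus of `X` -/
private def CycT_E {F : Type} [Field F] (X : SL2 F) : Subgroup (SL2 F) where
  carrier := {e | ∃ a b, CycT_rep X e a b}
  one_mem' := ⟨1, 0, by simp [CycT_rep]⟩
  mul_mem' := by
    rintro e e' ⟨a, b, h0, h1, h2, h3⟩ ⟨a', b', k0, k1, k2, k3⟩
    have hd := CycT_det X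
    refine ⟨a * a' - b * b', a * b' + a' * b + b * b' * (X.val 0 0 + X.val 1 1), ?_, ?_, ?_, ?_⟩
    · rw [show (e * e').val 0 0 = e.val 0 0 * e'.val 0 0 + e.val 0 1 * e'.val 1 0 by
        simp [Matrix.mul_apply], h0, h1, k0, k2]
      linear_combination (-(b * b')) * hd
    · rw [show (e * e').val 0 1 = e.val 0 0 * e'.val 0 1 + e.val 0 1 * e'.val 1 1 by
        simp [Matrix.mul_apply], h0, h1, k1, k3]
      ring
    · rw [show (e * e').val 1 0 = e.val 1 0 * e'.val 0 0 + e.val 1 1 * e'.val 1 0 by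
        simp [Matrix.mul_apply], h2, h3, k0, k2]
      ring
    · rw [show (e * e').val 1 1 = e.val 1 0 * e'.val 0 1 + e.val 1 1 * e'.val 1 1 by
        simp [Matrix.mul_apply], h2, h3, k1, k3]
      linear_combination (-(b * b')) * hd
  inv_mem' := by
    rintro e ⟨a, b, h0, h1, h2, h3⟩
    refine ⟨a + b * (X.val 0 0 + X.val 1 1), -b, ?_, ?_, ?_, ?_⟩
    · rw [show (e⁻¹).val 0 0 = e.val 1 1 by simp [Matrix.adjugate_fin_two], h3]
      ring
    · rw [show (e⁻¹).val 0 1 = - e.val 0 1 by simp [Matrix.adjugate_fin_two], h1]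
      ring
    · rw [show (e⁻¹).val 1 0 = - e.val 1 0 by simp [Matrix.adjugate_fin_two], h2]
      ring
    · rw [show (e⁻¹).val 1 1 = e.val 0 0 by simp [Matrix.adjugate_fin_two], h0]
      ring

private theorem CycT_cyc {F : Type} [Field F] [Finite F] (X : SL2 F) (ht : tr X ^ 2 ≠ 4) :
    IsCyclic (CycT_E X) := by
  obtain ⟨l, hl⟩ : ∃ l : AlgebraicClosure F,
      l * l - algebraMap F (AlgebraicClosure F) (tr X) * l + 1 = 0 := by
    obtain ⟨l, hl⟩ := IsAlgClosed.exists_root
      (Polynomial.X ^ 2 - Polynomial.C (algebraMap F (AlgebraicClosure F) (tr X)) * Polynomial.X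
        + Polynomial.C 1) (by
        have hd : (Polynomial.X ^ 2 - Polynomial.C (algebraMap F (AlgebraicClosure F) (tr X)) *
          Polynomial.X + Polynomial.C 1 : Polynomial (AlgebraicClosure F)).degree = 2 := by
          compute_degree!
        rw [hd]
        norm_num)
    refine ⟨l, ?_⟩
    have h1 : l ^ 2 - algebraMap F (AlgebraicClosure F) (tr X) * l + 1 = 0 := by
      simpa [Polynomial.IsRoot] using hl
    rw [← h1]
    ring
  obtain ⟨φ, hφ⟩ : ∃ φ : F →+* AlgebraicClosure F, φ = algebraMap F (AlgebraicClosure F) :=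
    ⟨_, rfl⟩
  rw [← hφ, CycT_tr, map_add] at hl
  have hd : φ (X.val 0 0) * φ (X.val 1 1) - φ (X.val 0 1) * φ (X.val 1 0) = 1 := by
    rw [← map_mul, ← map_mul, ← map_sub, CycT_det, map_one]
  -- an eigenvector
  obtain ⟨u, v, huv, e1, e2⟩ : ∃ u v : AlgebraicClosure F, ¬ (u = 0 ∧ v = 0) ∧
      φ (X.val 0 0) * u + φ (X.val 0 1) * v = l * u ∧
      φ (X.val 1 0) * u + φ (X.val 1 1) * v = l * v := by
    by_cases h1 : φ (X.val 0 1) = 0 ∧ l - φ (X.val 0 0) = 0
    · by_cases h2 : φ (X.val 1 0) = 0 ∧ l - φ (X.val 1 1) = 0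
      · refine ⟨1, 0, by simp, ?_, ?_⟩
        · rw [h1.1]
          linear_combination -h1.2
        · rw [h2.1]
          ring
      · refine ⟨l - φ (X.val 1 1), φ (X.val 1 0), fun h => h2 ⟨h.2, h.1⟩, ?_, ?_⟩
        · linear_combination (-1) * hl - hd
        · ring
    · refine ⟨φ (X.val 0 1), l - φ (X.val 0 0), fun h => h1 ⟨h.1, h.2⟩, ?_, ?_⟩
      · ring
      · linear_combination (-1) * hl - hd
  -- the linear functional
  obtain ⟨p, q, hpq⟩ : ∃ p q : AlgebraicClosure F, p * u + q * v = 1 := by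
    by_cases h1 : u = 0
    · have h2 : v ≠ 0 := fun h => huv ⟨h1, h⟩
      exact ⟨0, v⁻¹, by rw [zero_mul, zero_add, inv_mul_cancel₀ h2]⟩
    · exact ⟨u⁻¹, 0, by rw [zero_mul, add_zero, inv_mul_cancel₀ h1]⟩
  have hlam : ∀ (e : SL2 F) (a b : F), CycT_rep X e a b →
      p * (φ (e.val 0 0) * u + φ (e.val 0 1) * v) + q * (φ (e.val 1 0) * u + φ (e.val 1 1) * v)
        = φ a + φ b * l := by
    rintro e a b ⟨h0, h1, h2, h3⟩
    rw [h0, h1, h2, h3, map_add, map_add, map_mul, map_mul, map_mul, map_mul]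
    linear_combination (φ a + φ b * l) * hpq + p * φ b * e1 + q * φ b * e2
  have hne : ∀ y : AlgebraicClosure F, l * y = 1 → l + y = φ (X.val 0 0) + φ (X.val 1 1) →
      l ≠ y := by
    intro y hy hy2 hly
    apply ht
    have h1 : φ (tr X) ^ 2 = 4 := by
      rw [CycT_tr, map_add, ← hy2, ← hly]
      rw [← hly] at hy
      linear_combination 4 * hy
    apply φ.injective
    rw [map_pow, h1, map_ofNat]
  obtain ⟨y, hy, hy2⟩ : ∃ y, l * y = 1 ∧ l + y = φ (X.val 0 0) + φ (X.val 1 1) := by
    refine ⟨φ (X.val 0 0) + φ (X.val 1 1) - l, ?_, by ring⟩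
    linear_combination (-1) * hl
  have hly := hne y hy hy2
  let f : CycT_E X →* AlgebraicClosure F :=
    { toFun := fun e => p * (φ (e.1.val 0 0) * u + φ (e.1.val 0 1) * v) +
        q * (φ (e.1.val 1 0) * u + φ (e.1.val 1 1) * v)
      map_one' := by
        have h1 : CycT_rep X 1 1 0 := by simp [CycT_rep]
        have h2 := hlam 1 1 0 h1
        rw [map_one, map_zero, zero_mul, add_zero] at h2
        exact h2
      map_mul' := by
        rintro ⟨e, a, b, h⟩ ⟨e', a', b', h'⟩
        have h3 := hlam e a b h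
        have h4 := hlam e' a' b' h'
        have hm : CycT_rep X (e * e') (a * a' - b * b')
            (a * b' + a' * b + b * b' * (X.val 0 0 + X.val 1 1)) := by
          obtain ⟨h0, h1, h2, h3⟩ := h
          obtain ⟨k0, k1, k2, k3⟩ := h'
          have hd := CycT_det X
          refine ⟨?_, ?_, ?_, ?_⟩
          · rw [show (e * e').val 0 0 = e.val 0 0 * e'.val 0 0 + e.val 0 1 * e'.val 1 0 by
              simp [Matrix.mul_apply], h0, h1, k0, k2]
            linear_combination (-(b * b')) * hd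
          · rw [show (e * e').val 0 1 = e.val 0 0 * e'.val 0 1 + e.val 0 1 * e'.val 1 1 by
              simp [Matrix.mul_apply], h0, h1, k1, k3]
            ring
          · rw [show (e * e').val 1 0 = e.val 1 0 * e'.val 0 0 + e.val 1 1 * e'.val 1 0 by
              simp [Matrix.mul_apply], h2, h3, k0, k2]
            ring
          · rw [show (e * e').val 1 1 = e.val 1 0 * e'.val 0 1 + e.val 1 1 * e'.val 1 1 by
              simp [Matrix.mul_apply], h2, h3, k1, k3]
            linear_combination (-(b * b')) * hd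
        have h5 := hlam (e * e') _ _ hm
        refine h5.trans ?_
        show _ = (p * (φ (e.val 0 0) * u + φ (e.val 0 1) * v) +
          q * (φ (e.val 1 0) * u + φ (e.val 1 1) * v)) *
          (p * (φ (e'.val 0 0) * u + φ (e'.val 0 1) * v) +
          q * (φ (e'.val 1 0) * u + φ (e'.val 1 1) * v))
        rw [h3, h4]
        simp only [map_sub, map_add, map_mul]
        linear_combination (-(φ b * φ b')) * hl }
  refine isCyclic_of_injective_ringHom f ((injective_iff_map_eq_one f).2 ?_)
  rintro ⟨e, a, b, h⟩ he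
  have h1 := hlam e a b h
  have h2 : φ a + φ b * l = 1 := h1.symm.trans he
  obtain ⟨h3, h4, h5, h6⟩ := h
  have h7 : a * a + a * b * (X.val 0 0 + X.val 1 1) + b * b = 1 := by
    have h8 := CycT_det e
    rw [h3, h4, h5, h6] at h8
    linear_combination h8 - b * b * CycT_det X
  have h8 : φ a * φ a + φ a * φ b * (φ (X.val 0 0) + φ (X.val 1 1)) + φ b * φ b = 1 := by
    rw [← map_add φ (X.val 0 0), ← map_mul, ← map_mul, ← map_mul, ← map_mul, ← map_add,
      ← map_add, h7, map_one]
  have h9 : φ a + φ b * y = 1 := by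
    have h10 : (φ a + φ b * l) * (φ a + φ b * y) = 1 := by
      rw [← hy2] at h8
      linear_combination h8 + φ b * φ b * hy
    rwa [h2, one_mul] at h10
  have h10 : φ b * (l - y) = 0 := by linear_combination h2 - h9
  have h11 : φ b = 0 := by
    rcases mul_eq_zero.1 h10 with h | h
    · exact h
    · exact absurd (sub_eq_zero.1 h) hly
  have hb : b = 0 := (map_eq_zero φ).1 h11
  have ha : a = 1 := by
    apply φ.injective
    rw [map_one, ← h2, h11, zero_mul, add_zero]
  subst hb
  subst ha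
  apply Subtype.ext
  apply Subtype.ext
  show e.val = 1
  ext i j
  fin_cases i <;> fin_cases j
  · simpa using h3
  · simpa using h4
  · simpa using h5
  · simpa using h6

theorem prf_CycT (hTor : TorS) : CycT := by
  intro F _ _ p _ hp hpF P hP
  by_cases hbot : P = ⊥
  · subst hbot
    infer_instance
  obtain ⟨X, hX, -, ht, -, hrep⟩ := hTor F p hp hpF P hP hbot
  have hc := CycT_cyc X ht
  have hle : P ≤ (CycT_E X).map (QuotientGroup.mk' (center (SL2 F))) := by
    intro x hx
    obtain ⟨a, b, e, he, hab⟩ := hrep x hx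
    exact ⟨e, ⟨a, b, CycT_repOf X e a b hab⟩, he⟩
  have hc2 : IsCyclic ((CycT_E X).map (QuotientGroup.mk' (center (SL2 F)))) :=
    isCyclic_of_surjective ((QuotientGroup.mk' (center (SL2 F))).subgroupMap (CycT_E X))
      (MonoidHom.subgroupMap_surjective _ _)
  exact Subgroup.isCyclic_of_le hle

end MP_8aaf67.PT
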