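import Pool.Agent.Work.MP_8aaf67_al.PT.Stmts

/-!
# MP_8aaf67_al, project PT: the final assembly
-/

set_option autoImplicit false

open Subgroup MP_8aaf67.PS

namespace MP_8aaf67.PT

/-- sections of sections are sections -/
theorem FinP_section_trans {X Y G : Type*} [Group X] [Group Y] [Group G]
    (h1 : IsSectionOf X Y) (h2 : IsSectionOf Y G) : IsSectionOf X G := by
  obtain ⟨H, f, hf⟩ := h1
  obtain ⟨K, g, hg⟩ := h2.sub H
  exact ⟨K, f.comp g, hf.comp hg⟩

theorem FinP_section_sub {Y : Type*} [Group Y] (H : Subgroup Y) : IsSectionOf H Y :=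
  (IsSectionOf.self Y).sub H

theorem FinP_hyp {p : ℕ} {Y G : Type} [Group Y] [Group G] (h : IsSectionOf Y G)
    (hG : HypP p G) : HypP p Y := by
  intro X _ _ hX hs hc
  exact hG X (FinP_section_trans hX h) hs hc

theorem FinP_HS {p : ℕ} {G : Type} [Group G] (hG : HypP p G) : HS G := by
  intro X _ _ hX hs hc
  obtain ⟨F, i1, i2, h4, he, _⟩ := hG X hX hs hc
  exact ⟨F, i1, i2, h4, he⟩

theorem FinP_card {S G : Type} [Group S] [Group G] [Finite G] (h : IsSectionOf S G) :
    Nat.card S ≤ Nat.card G := by
  obtain ⟨H, f, hf⟩ := h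
  exact (Nat.card_le_card_of_surjective f hf).trans (Nat.le_of_dvd Nat.card_pos
    (card_subgroup_dvd_card H))

/-- a simple quotient of a perfect group is not commutative -/
theorem FinP_noncomm {S : Type} [Group S] [Finite S] (hp : commutator S = ⊤) (M : Subgroup S)
    [M.Normal] (hs : IsSimpleGroup (S ⧸ M)) : ∃ a b : S ⧸ M, a * b ≠ b * a := by
  by_contra hcon
  push Not at hcon
  have h3 : commutator S ≤ M := by
    rw [commutator_def, commutator_le]
    intro a _ b _
    rw [← QuotientGroup.eq_one_iff, commutatorElement_def]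
    have h4 := hcon (a : S ⧸ M) (b : S ⧸ M)
    have h5 : ((a * b * a⁻¹ * b⁻¹ : S) : S ⧸ M)
        = (a : S ⧸ M) * b * (a : S ⧸ M)⁻¹ * (b : S ⧸ M)⁻¹ := rfl
    rw [h5, h4]
    group
  rw [hp, top_le_iff] at h3
  have h4 : Nontrivial (S ⧸ M) := hs.toNontrivial
  obtain ⟨x, hx⟩ := exists_ne (1 : S ⧸ M)
  obtain ⟨y, rfl⟩ := QuotientGroup.mk_surjective x
  exact hx ((QuotientGroup.eq_one_iff y).2 (h3 ▸ mem_top y))

theorem FinP_aux (hC : CoreP) (p : ℕ) [Fact p.Prime] (hp2 : p ≠ 2) (n : ℕ) :
    ∀ (G : Type) [Group G] [Finite G], Nat.card G = n → HypP p G → ∀ t : Tree, A p t G := by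
  induction n using Nat.strong_induction_on with
  | _ n ih =>
    intro G _ _ hn hG t
    refine section_reduction p G ?_ t
    intro S _ _ hS hp hd hf hs k
    rw [sylowGen_iff (derivedWord_values k S)]
    have hyp : HypP p S := FinP_hyp hS hG
    obtain ⟨F, _, _, h4, ⟨e⟩, hgood⟩ := hG (S ⧸ frattini S) (hS.quot _) hs
      (FinP_noncomm hp (frattini S) hs)
    have hpX : p ∣ Nat.card (S ⧸ frattini S) := by
      rw [← card_mul_index (frattini S), (Fact.out : p.Prime).dvd_mul] at hd
      rcases hd with hd | hd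
      · exact absurd hd hf
      · rwa [← index_eq_card]
    set π : S →* PSL2 F := e.toMonoidHom.comp (QuotientGroup.mk' (frattini S)) with hπ
    have hsurj : Function.Surjective π :=
      e.surjective.comp (QuotientGroup.mk'_surjective _)
    have hker : π.ker = frattini S := by
      ext x
      rw [MonoidHom.mem_ker, hπ, MonoidHom.comp_apply]
      constructor
      · intro h
        have h1 : (QuotientGroup.mk' (frattini S)) x = 1 := by
          apply e.injective
          rw [map_one]
          exact h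
        exact (QuotientGroup.eq_one_iff x).1 h1
      · intro h
        have h1 : (QuotientGroup.mk' (frattini S)) x = 1 := (QuotientGroup.eq_one_iff x).2 h
        rw [h1, map_one]
    have hpP : p ∣ Nat.card (PSL2 F) := by
      rw [← Nat.card_congr e.toEquiv]
      exact hpX
    refine hC p hp2 S F π hsurj hker.le ?_ (FinP_HS hyp) hpP h4 (hgood hpX) ?_ k
    · rw [hker]
      exact hf
    · intro Y hY t'
      have hlt : Nat.card Y < n := by
        have h1 : Nat.card Y < Nat.card S := by
          refine lt_of_le_of_ne (Nat.le_of_dvd Nat.card_pos (card_subgroup_dvd_card Y)) ?_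
          intro heq
          exact hY (Subgroup.eq_top_of_card_eq Y heq)
        exact h1.trans_le ((FinP_card hS).trans hn.le)
      exact ih (Nat.card Y) hlt Y rfl (FinP_hyp (FinP_section_sub Y) hyp) t'

theorem prf_FinP (hC : CoreP) : FinP := by
  intro p _ hp2 G _ _ hG t
  exact FinP_aux hC p hp2 (Nat.card G) G rfl hG t

end MP_8aaf67.PT
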