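import Pool.Agent.Work.MP_8aaf67_al.PT.Stmts

/-!
# Project PT: GTL for a surjective homomorphism
-/

set_option autoImplicit false

open Subgroup MP_8aaf67.PS

namespace MP_8aaf67.PT

theorem GTLp_map {A B : Type} [Group A] [Group B] (f : A →* B) (hf : Function.Surjective f)
    (k : ℕ) : ∀ {g : A}, g ∈ GT A k → f g ∈ GT B k := by
  induction k with
  | zero => intro g _; exact Set.mem_univ _
  | succ k ih =>
    rintro g ⟨a, ha, b, hb, hcl, rfl⟩
    refine ⟨f a, ih ha, f b, ih hb, ?_, (map_cm f a b).symm⟩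
    have h1 : (closure {a, b}).map f = ⊤ := by
      rw [hcl, ← MonoidHom.range_eq_map, MonoidHom.range_eq_top]
      exact hf
    rw [MonoidHom.map_closure, Set.image_pair] at h1
    exact h1

theorem prf_GTLp (hGTL : GTL) : GTLp := by
  intro p _ T X _ _ _ π hπ hF hp Q hQ k g hgQ hg
  obtain ⟨e, he⟩ : ∃ e : (T ⧸ π.ker) ≃* X, ∀ t : T, e (QuotientGroup.mk t) = π t :=
    ⟨QuotientGroup.quotientKerEquivOfSurjective π hπ, fun t => rfl⟩
  have h1 : e.symm (π g) ∈ GT (T ⧸ π.ker) k :=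
    GTLp_map e.symm.toMonoidHom e.symm.surjective k hg
  have h2 : e.symm (π g) = QuotientGroup.mk g := by
    rw [← he g, MulEquiv.symm_apply_apply]
  rw [h2] at h1
  exact hGTL p T π.ker hF hp Q hQ k g hgQ h1

end MP_8aaf67.PT
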