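import Pool.Agent.Work.MP_8aaf67_al.PT.Stmts

set_option autoImplicit false

open Subgroup MP_8aaf67.PS

namespace MP_8aaf67.PT

private lemma GTPeven_center {F : Type} [Field F] (h2 : (2 : F) = 0) {C : SL2 F}
    (hC : tr C ≠ 0) : C ∉ center (SL2 F) := by
  intro h
  rw [Matrix.SpecialLinearGroup.mem_center_iff] at h
  obtain ⟨r, -, hr⟩ := h
  apply hC
  unfold tr
  rw [← hr]
  rw [Matrix.trace_fin_two]
  simp only [Matrix.scalar_apply, Matrix.diagonal_apply_eq]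
  linear_combination r * h2

private lemma GTPeven_inj {F : Type} [Field F] (h2 : (2 : F) = 0) :
    Function.Injective (fun x : F => x ^ 2) := by
  intro x y hxy
  have h : x ^ 2 = y ^ 2 := hxy
  have h3 : (x - y) ^ 2 = 0 := by
    linear_combination h + (y ^ 2 - x * y) * h2
  exact sub_eq_zero.mp (pow_eq_zero_iff (by norm_num) |>.mp h3)

private lemma GTPeven_lam {F : Type} [Field F] [Finite F] (h4 : 4 ≤ Nat.card F) (x : F) :
    ∃ l : F, l ≠ 0 ∧ l ^ 2 + x * l + 1 ≠ 0 := by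
  classical
  by_cases hr : ∃ r : F, r ^ 2 + x * r + 1 = 0
  · obtain ⟨r, hr⟩ := hr
    have : Fintype F := Fintype.ofFinite F
    rw [Nat.card_eq_fintype_card] at h4
    have hex : ∃ l : F, l ∉ ({0, r, -(r + x)} : Finset F) := by
      by_contra hcon
      push Not at hcon
      have h5 : Fintype.card F ≤ ({0, r, -(r + x)} : Finset F).card := by
        rw [← Finset.card_univ]
        exact Finset.card_le_card fun l _ => hcon l
      have h6 : ({0, r, -(r + x)} : Finset F).card ≤ 3 := Finset.card_le_three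
      omega
    obtain ⟨l, hl⟩ := hex
    simp only [Finset.mem_insert, Finset.mem_singleton, not_or] at hl
    obtain ⟨h0, h1, h2⟩ := hl
    refine ⟨l, h0, fun h => ?_⟩
    have h3 : (l - r) * (l + (r + x)) = 0 := by linear_combination h - hr
    rcases mul_eq_zero.1 h3 with h5 | h5
    · exact h1 (sub_eq_zero.1 h5)
    · exact h2 (eq_neg_of_add_eq_zero_left h5)
  · push Not at hr
    exact ⟨1, one_ne_zero, hr 1⟩

private lemma GTPeven_sel {F : Type} [Field F] [Finite F] (h2 : (2 : F) = 0)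
    (h4 : 4 ≤ Nat.card F) {κ x₀ x₁ : F} (h0 : x₀ ≠ 0) (h1 : x₁ ≠ 0) (h01 : x₀ ≠ x₁) :
    ∃ x y z : F, (x = x₀ ∨ x = x₁) ∧ x ≠ 0 ∧ y ≠ 0 ∧ z ≠ 0 ∧
      y ^ 2 + z ^ 2 + x ^ 2 - y * z * x - 2 = κ := by
  have hinj := GTPeven_inj h2
  have hsurj : Function.Surjective (fun x : F => x ^ 2) := Finite.surjective_of_injective hinj
  have hx : ∃ x : F, (x = x₀ ∨ x = x₁) ∧ x ≠ 0 ∧ x ^ 2 ≠ κ := by
    by_cases h : x₀ ^ 2 = κ
    · refine ⟨x₁, Or.inr rfl, h1, fun h' => h01 (hinj ?_)⟩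
      show x₀ ^ 2 = x₁ ^ 2
      rw [h, h']
    · exact ⟨x₀, Or.inl rfl, h0, h⟩
  obtain ⟨x, hx, hx0, hxκ⟩ := hx
  obtain ⟨l, hl0, hl⟩ := GTPeven_lam h4 x
  obtain ⟨z, hz⟩ := hsurj ((κ + x ^ 2) / (l ^ 2 + x * l + 1))
  have hz' : z ^ 2 = (κ + x ^ 2) / (l ^ 2 + x * l + 1) := hz
  have hz2 : z ^ 2 * (l ^ 2 + x * l + 1) = κ + x ^ 2 := by
    rw [hz', div_mul_cancel₀ _ hl]
  have hz0 : z ≠ 0 := by
    rintro rfl
    apply hxκ
    linear_combination (-1 : F) * hz2 - κ * h2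
  refine ⟨x, l * z, z, hx, hx0, mul_ne_zero hl0 hz0, hz0, ?_⟩
  linear_combination hz2 + (x ^ 2 - 1 - l * x * z ^ 2) * h2

theorem prf_GTPeven (hPair : PairEx) (hTrC : TrC) (hCnj : Cnj) (hCrit : CritA) : GTPeven := by
  intro F _ _ h2 h4 x₀ x₁ hx₀ hx₁ h01 hgen k
  induction k with
  | zero => intro C _; exact Set.mem_univ _
  | succ k ih =>
    intro C hC
    obtain ⟨x, y, z, hx, hx0, hy0, hz0, hκ⟩ := GTPeven_sel (κ := tr C) h2 h4 hx₀ hx₁ h01
    have hne : y ^ 2 + z ^ 2 + x ^ 2 - y * z * x - 2 ≠ 2 := by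
      rw [hκ, h2]; exact hC
    obtain ⟨A, B, hA, hB, hAB⟩ := hPair F y z x hne
    have hcm : tr (cm A B) = tr C := by
      rw [hTrC, hA, hB, hAB, hκ]
    obtain ⟨φ, hφ, hφC⟩ := hCnj F (cm A B) C
      (GTPeven_center h2 (by rw [hcm]; exact hC)) (GTPeven_center h2 hC) hcm
    have hcm' : cm (φ A) (φ B) = C := by
      rw [← hφC]
      unfold cm
      simp only [map_mul, map_inv]
    have hAB' : tr (φ A * φ B) = x := by rw [← map_mul, hφ, hAB]
    have hNS : NS (φ A) (φ B) := by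
      refine hCrit F (φ A) (φ B) ?_ (Or.inl ?_) ?_ ?_ ?_
      · rw [hcm', h2]; exact hC
      · rw [hφ, hA]; exact hy0
      · rw [hAB']; exact hx0
      · intro _
        rw [hφ, hφ, hA, hB]
        exact ⟨hy0, hz0⟩
      · intro h; exact absurd h2 h
    refine ⟨pr (φ A), ih _ (by rw [hφ, hA]; exact hy0), pr (φ B),
      ih _ (by rw [hφ, hB]; exact hz0), ?_, ?_⟩
    · refine hgen _ hNS ⟨φ A * φ B, by rw [hAB']; exact hx, ?_⟩
      have h5 : pr (φ A * φ B) = pr (φ A) * pr (φ B) := by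
        unfold pr
        rw [map_mul]
      rw [h5]
      exact mul_mem (subset_closure (by simp)) (subset_closure (by simp))
    · rw [← hcm']
      unfold cm pr
      simp only [map_mul, map_inv]

end MP_8aaf67.PT
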