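import Pool.Agent.Work.MP_8aaf67_al.PT.Stmts

/-!
# MP_8aaf67_al, project PT: `GTPodd`
-/

set_option autoImplicit false

open Subgroup MP_8aaf67.PS

namespace MP_8aaf67.PT

private theorem GTPodd_pr_mul {F : Type} [Field F] (A B : SL2 F) : pr (A * B) = pr A * pr B := rfl

private theorem GTPodd_pr_cm {F : Type} [Field F] (A B : SL2 F) :
    pr (cm A B) = cm (pr A) (pr B) := rfl

private theorem GTPodd_neg_center {F : Type} [Field F] : (-1 : SL2 F) ∈ center (SL2 F) := by
  rw [Subgroup.mem_center_iff]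
  intro g
  simp

private theorem GTPodd_pr_neg {F : Type} [Field F] (A : SL2 F) : pr (-A) = pr A := by
  have h : -A = A * (-1) := by simp
  rw [h, GTPodd_pr_mul]
  have h1 : pr (-1 : SL2 F) = 1 := (QuotientGroup.eq_one_iff _).2 GTPodd_neg_center
  rw [h1, mul_one]

private theorem GTPodd_tr_neg {F : Type} [Field F] (A : SL2 F) : tr (-A) = -tr A := by
  unfold tr
  rw [Matrix.SpecialLinearGroup.coe_neg, Matrix.trace_neg]

private theorem GTPodd_comm_solvable {G : Type} [Group G] (a b : G) (h : a * b = b * a) :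
    Group.IsSolvable (closure ({a, b} : Set G)) := by
  have hc : ∀ x ∈ ({a, b} : Set G), ∀ y ∈ ({a, b} : Set G), x * y = y * x := by
    rintro x (rfl | rfl) y (rfl | rfl)
    · rfl
    · exact h
    · exact h.symm
    · rfl
  have hm : ∀ x y : closure ({a, b} : Set G), x * y = y * x :=
    fun x y => (Subgroup.isMulCommutative_closure hc).is_comm.comm x y
  exact Group.isSolvable_of_comm hm

private theorem GTPodd_cm_one {G : Type} [Group G] (a b : G) (h : cm a b = 1) :
    a * b = b * a := by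
  unfold cm at h
  have : a * b = b * a * (a⁻¹ * b⁻¹ * a * b) := by group
  rw [this, h, mul_one]

private lemma GTPodd_quad {F : Type} [Field F] [Finite F] (x c : F) (h2 : (2 : F) ≠ 0)
    (hx : x ^ 2 ≠ 4) : ∃ D G : F, D ^ 2 - x * G * D + G ^ 2 = c := by
  have _inst : Fintype F := Fintype.ofFinite F
  have hchar : ringChar F ≠ 2 := by
    intro h4
    apply h2
    have h5 := (ringChar.spec F 2).mpr (by rw [h4])
    exact_mod_cast h5
  have hcard := FiniteField.odd_card_of_char_ne_two hchar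
  have h4 : (4 : F) ≠ 0 := by
    have : (4 : F) = 2 * 2 := by norm_num
    rw [this]; exact mul_ne_zero h2 h2
  have hk : 1 - x ^ 2 / 4 ≠ 0 := by
    intro hk
    apply hx
    have : x ^ 2 / 4 = 1 := by linear_combination -hk
    rw [div_eq_iff h4] at this
    rw [this]; ring
  have hf : (Polynomial.X ^ 2 - Polynomial.C c : Polynomial F).degree = 2 :=
    Polynomial.degree_X_pow_sub_C (by norm_num) c
  have hg : (Polynomial.C (1 - x ^ 2 / 4) * Polynomial.X ^ 2 : Polynomial F).degree = 2 :=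
    Polynomial.degree_C_mul_X_pow 2 hk
  obtain ⟨a, b, hab⟩ := FiniteField.exists_root_sum_quadratic hf hg hcard
  simp only [Polynomial.eval_sub, Polynomial.eval_pow, Polynomial.eval_X, Polynomial.eval_C,
    Polynomial.eval_mul] at hab
  refine ⟨a + x * b / 2, b, ?_⟩
  have e : (a + x * b / 2) ^ 2 - x * b * (a + x * b / 2) + b ^ 2 =
      a ^ 2 + (1 - x ^ 2 / 4) * b ^ 2 := by
    field_simp
    ring
  rw [e]
  linear_combination hab

/-- the step -/
private theorem GTPodd_main {F : Type} [Field F] [Finite F] (hPair : PairEx) (hTrC : TrC)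
    (hCnj : Cnj) (hCrit : CritA) (h2 : (2 : F) ≠ 0) (x₀ : F) (h0 : x₀ ≠ 0) (hx1 : x₀ ^ 2 ≠ 1)
    (hx2 : x₀ ^ 2 ≠ 2) (hx4 : x₀ ^ 2 ≠ 4)
    (hK : ∀ H : Subgroup (PSL2 F), ¬ Group.IsSolvable H → (∃ A : SL2 F, tr A = x₀ ∧ pr A ∈ H) →
      H = ⊤) (k : ℕ)
    (ih : ∀ C : SL2 F, C ∉ center (SL2 F) → pr C ∈ GT (PSL2 F) k)
    (C : SL2 F) (hC : C ∉ center (SL2 F)) (ht : tr C ≠ 2) (ht' : tr C + 2 ≠ x₀ ^ 2) :
    pr C ∈ GT (PSL2 F) (k + 1) := by
  obtain ⟨y, z, hyz⟩ := GTPodd_quad x₀ (tr C + 2 - x₀ ^ 2) h2 hx4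
  have he : y ^ 2 + z ^ 2 + x₀ ^ 2 - y * z * x₀ - 2 = tr C := by linear_combination hyz
  have hne : y ≠ 0 ∨ z ≠ 0 := by
    by_contra hcon
    push Not at hcon
    obtain ⟨rfl, rfl⟩ := hcon
    apply ht'
    linear_combination -hyz
  obtain ⟨A, B, hA, hB, hAB⟩ := hPair F y z x₀ (by rw [he]; exact ht)
  have hcm : tr (cm A B) = tr C := by rw [hTrC F A B, hA, hB, hAB, he]
  have hNS : NS A B := by
    refine hCrit F A B (by rw [hcm]; exact ht) (by rw [hA, hB]; exact hne)
      (by rw [hAB]; exact h0) (fun h => absurd h h2) fun _ => ?_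
    rw [hAB]
    exact ⟨hx1, hx2, hx4⟩
  have hnc : cm A B ∉ center (SL2 F) := by
    intro hcen
    apply hNS
    apply GTPodd_comm_solvable
    apply GTPodd_cm_one
    rw [← GTPodd_pr_cm]
    exact (QuotientGroup.eq_one_iff _).2 hcen
  obtain ⟨φ, hφ, hφC⟩ := hCnj F (cm A B) C hnc hC hcm
  have hcm' : cm (φ A) (φ B) = C := by
    rw [← hφC]
    unfold cm
    simp
  have htAB : tr (φ A * φ B) = x₀ := by rw [← map_mul, hφ, hAB]
  have hNS' : NS (φ A) (φ B) := by
    refine hCrit F (φ A) (φ B) (by rw [hcm']; exact ht) (by rw [hφ, hφ, hA, hB]; exact hne)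
      (by rw [htAB]; exact h0) (fun h => absurd h h2) fun _ => ?_
    rw [htAB]
    exact ⟨hx1, hx2, hx4⟩
  have htop : closure ({pr (φ A), pr (φ B)} : Set (PSL2 F)) = ⊤ := by
    refine hK _ hNS' ⟨φ A * φ B, htAB, ?_⟩
    rw [GTPodd_pr_mul]
    exact Subgroup.mul_mem _ (Subgroup.subset_closure (by simp))
      (Subgroup.subset_closure (by simp))
  have hA' : φ A ∉ center (SL2 F) := by
    intro h
    apply hC
    have : cm (φ A) (φ B) = 1 := by
      rw [Subgroup.mem_center_iff] at h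
      unfold cm
      have e := h (φ B)
      calc (φ A)⁻¹ * (φ B)⁻¹ * φ A * φ B = (φ A)⁻¹ * (φ B)⁻¹ * (φ A * φ B) := by group
        _ = (φ A)⁻¹ * (φ B)⁻¹ * (φ B * φ A) := by rw [e]
        _ = 1 := by group
    rw [← hcm', this]
    exact Subgroup.one_mem _
  have hB' : φ B ∉ center (SL2 F) := by
    intro h
    apply hC
    have : cm (φ A) (φ B) = 1 := by
      rw [Subgroup.mem_center_iff] at h
      unfold cm
      have e := h (φ A)
      calc (φ A)⁻¹ * (φ B)⁻¹ * φ A * φ B = (φ A)⁻¹ * (φ B)⁻¹ * (φ A * φ B) := by group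
        _ = (φ A)⁻¹ * (φ B)⁻¹ * (φ B * φ A) := by rw [e]
        _ = 1 := by group
    rw [← hcm', this]
    exact Subgroup.one_mem _
  exact ⟨pr (φ A), ih _ hA', pr (φ B), ih _ hB', htop, by rw [← GTPodd_pr_cm, hcm']⟩

theorem prf_GTPodd (hPair : PairEx) (hTrC : TrC) (hCnj : Cnj) (hCrit : CritA) : GTPodd := by
  intro F _ _ h2 x₀ h0 hx1 hx2 hx4 hK k
  induction k with
  | zero => intro C _; exact Set.mem_univ _
  | succ k ih =>
    intro C hC
    have hC' : -C ∉ center (SL2 F) := by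
      intro h
      apply hC
      have e : C = -C * (-1) := by simp
      rw [e]
      exact Subgroup.mul_mem _ h GTPodd_neg_center
    by_cases ht : tr C = 2
    · rw [← GTPodd_pr_neg]
      refine GTPodd_main hPair hTrC hCnj hCrit h2 x₀ h0 hx1 hx2 hx4 hK k ih (-C) hC' ?_ ?_
      · rw [GTPodd_tr_neg, ht]
        intro h
        have h4 : (2 : F) * 2 = 0 := by linear_combination -h
        rcases mul_eq_zero.1 h4 with h | h <;> exact h2 h
      · rw [GTPodd_tr_neg, ht]
        intro h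
        have h3 : x₀ ^ 2 = 0 := by linear_combination -h
        exact h0 (pow_eq_zero_iff (by norm_num) |>.1 h3)
    · by_cases ht' : tr C + 2 = x₀ ^ 2
      · rw [← GTPodd_pr_neg]
        refine GTPodd_main hPair hTrC hCnj hCrit h2 x₀ h0 hx1 hx2 hx4 hK k ih (-C) hC' ?_ ?_
        · rw [GTPodd_tr_neg]
          intro h
          have h3 : x₀ ^ 2 = 0 := by linear_combination -h - ht'
          exact h0 (pow_eq_zero_iff (by norm_num) |>.1 h3)
        · rw [GTPodd_tr_neg]
          intro h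
          have h3 : (2 : F) * (x₀ ^ 2 - 2) = 0 := by linear_combination -h - ht'
          rcases mul_eq_zero.1 h3 with h | h
          · exact h2 h
          · exact hx2 (by linear_combination h)
      · exact GTPodd_main hPair hTrC hCnj hCrit h2 x₀ h0 hx1 hx2 hx4 hK k ih C hC ht ht'

end MP_8aaf67.PT
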