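import Pool.Agent.Work.MP_8aaf67_al.PT.Stmts
import Pool.Agent.Work.MP_8aaf67_al.PS.GTodd

/-!
# Project PT: the statement `GTU`
-/

set_option autoImplicit false

open Subgroup MP_8aaf67.PS

namespace MP_8aaf67.PT

theorem GTU_tr_conj {F : Type} [Field F] (A B : SL2 F) : tr (B⁻¹ * A * B) = tr A := by
  show ((B⁻¹ * A * B : SL2 F) : Matrix (Fin 2) (Fin 2) F).trace =
    (A : Matrix (Fin 2) (Fin 2) F).trace
  rw [Matrix.SpecialLinearGroup.coe_mul, Matrix.trace_mul_comm,
    ← Matrix.SpecialLinearGroup.coe_mul, mul_inv_cancel_left]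

theorem GTU_tr_one {F : Type} [Field F] : tr (1 : SL2 F) = 2 := by
  show ((1 : SL2 F) : Matrix (Fin 2) (Fin 2) F).trace = 2
  rw [Matrix.SpecialLinearGroup.coe_one, Matrix.trace_one, Fintype.card_fin]
  norm_num

theorem GTU_central_cm {F : Type} [Field F] (A B : SL2 F)
    (h : A ∈ center (SL2 F) ∨ B ∈ center (SL2 F)) : cm A B = 1 := by
  have e : A * B = B * A := by
    rcases h with h | h
    · rw [Subgroup.mem_center_iff] at h
      exact (h B).symm
    · rw [Subgroup.mem_center_iff] at h
      exact h A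
  unfold cm
  calc A⁻¹ * B⁻¹ * A * B = A⁻¹ * B⁻¹ * (A * B) := by group
    _ = A⁻¹ * B⁻¹ * (B * A) := by rw [e]
    _ = 1 := by group

/-- the commutator is not central -/
theorem GTU_nc {F : Type} [Field F] (h2 : (2 : F) ≠ 0) (A B : SL2 F) (hA : tr A ≠ 0)
    (hcm : tr (cm A B) ≠ 2) : cm A B ∉ center (SL2 F) := by
  intro hc
  obtain ⟨r, hr2, hr⟩ := Matrix.SpecialLinearGroup.mem_center_iff.1 hc
  rw [Fintype.card_fin] at hr2
  have hr' : r = 1 ∨ r = -1 := by
    have h5 : (r - 1) * (r + 1) = 0 := by linear_combination hr2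
    rcases mul_eq_zero.1 h5 with h6 | h6
    · left
      exact sub_eq_zero.1 h6
    · right
      exact eq_neg_of_add_eq_zero_left h6
  rcases hr' with rfl | rfl
  · apply hcm
    have h3 : cm A B = 1 := by
      apply Subtype.ext
      rw [← hr, map_one]
      rfl
    rw [h3, GTU_tr_one]
  · have h3 : cm A B = -1 := by
      apply Subtype.ext
      rw [← hr, map_neg, map_one]
      rfl
    have h4 : B⁻¹ * A * B = -A := by
      have h5 : B⁻¹ * A * B = A * cm A B := by
        unfold cm
        group
      rw [h5, h3]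
      simp
    have h5 := GTU_tr_conj A B
    rw [h4, GTodd_tr_neg] at h5
    apply hA
    have h6 : 2 * tr A = 0 := by linear_combination -h5
    exact (mul_eq_zero.1 h6).resolve_left h2

/-- a pair with a given commutator -/
theorem GTU_pair {F : Type} [Field F] [Finite F] (hPair : PairEx) (hTrC : TrC) (hCnj : Cnj)
    (h2 : (2 : F) ≠ 0) (C : SL2 F) (hC : C ∉ center (SL2 F)) (ht : tr C ≠ 2) (x y z : F)
    (hx : x ≠ 0) (he : x ^ 2 + y ^ 2 + z ^ 2 - x * y * z - 2 = tr C) :
    ∃ A B : SL2 F, tr A = x ∧ tr B = y ∧ cm A B = C := by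
  obtain ⟨A, B, hA, hB, hAB⟩ := hPair F x y z (by rw [he]; exact ht)
  have hcm : tr (cm A B) = tr C := by rw [hTrC F A B, hA, hB, hAB, he]
  have hnc : cm A B ∉ center (SL2 F) :=
    GTU_nc h2 A B (by rw [hA]; exact hx) (by rw [hcm]; exact ht)
  obtain ⟨φ, hφ, hφC⟩ := hCnj F (cm A B) C hnc hC hcm
  refine ⟨φ A, φ B, by rw [hφ, hA], by rw [hφ, hB], ?_⟩
  rw [← hφC]
  unfold cm
  simp

theorem prf_GTU (hPair : PairEx) (hTrC : TrC) (hCnj : Cnj) (hCrit : CritB) : GTU := by
  intro F _ _ h2 h3 hH
  have key : ∀ (k : ℕ) (C : SL2 F), C ∉ center (SL2 F) →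
      (tr C = -2 ∨ ∃ τ : F, τ ≠ 0 ∧ tr C = 2 + τ ^ 2) → pr C ∈ GT (PSL2 F) k := by
    intro k
    induction k with
    | zero => intro C _ _; exact Set.mem_univ _
    | succ k ih =>
      intro C hC ht
      have h4 : (4 : F) ≠ 0 := by
        intro h
        have h5 : (2 : F) * 2 = 0 := by linear_combination h
        rcases mul_eq_zero.1 h5 with h | h <;> exact h2 h
      have fin : ∀ A B : SL2 F, tr C ≠ 2 → cm A B = C →
          (∃ h ∈ closure ({A, B} : Set (SL2 F)), h ∉ center (SL2 F) ∧ tr h ^ 2 = 4) →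
          (∀ D : SL2 F, D = A ∨ D = B → D ∉ center (SL2 F) → pr D ∈ GT (PSL2 F) k) →
          pr C ∈ GT (PSL2 F) (k + 1) := by
        intro A B hC2 hcm hex hGT
        have hNS : NS A B := hCrit F A B h2 h3 (by rw [hcm]; exact hC2) hex
        have hA : A ∉ center (SL2 F) := by
          intro h
          apply hC
          rw [← hcm, GTU_central_cm A B (Or.inl h)]
          exact Subgroup.one_mem _
        have hB : B ∉ center (SL2 F) := by
          intro h
          apply hC
          rw [← hcm, GTU_central_cm A B (Or.inr h)]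
          exact Subgroup.one_mem _
        have htop : closure ({pr A, pr B} : Set (PSL2 F)) = ⊤ := by
          apply hH _ hNS
          obtain ⟨h, hh, hhc, hht⟩ := hex
          refine ⟨h, hhc, hht, ?_⟩
          have h5 : (closure ({A, B} : Set (SL2 F))).map (QuotientGroup.mk' (center (SL2 F))) ≤
              closure ({pr A, pr B} : Set (PSL2 F)) := by
            rw [MonoidHom.map_closure, Set.image_pair]
            exact le_rfl
          exact h5 ⟨h, hh, rfl⟩
        refine ⟨pr A, hGT A (Or.inl rfl) hA, pr B, hGT B (Or.inr rfl) hB, htop, ?_⟩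
        rw [← GTodd_pr_cm, hcm]
      rcases ht with ht | ⟨τ, hτ, ht⟩
      · -- trace -2
        have hC2 : tr C ≠ 2 := by
          rw [ht]
          intro h
          apply h4
          linear_combination -h
        obtain ⟨A, B, hA, hB, hcm⟩ := GTU_pair hPair hTrC hCnj h2 C hC hC2 3 3 3 h3
          (by rw [ht]; ring)
        refine fin A B hC2 hcm ⟨C, ?_, hC, by rw [ht]; ring⟩ ?_
        · rw [← hcm]
          have hAm : A ∈ closure ({A, B} : Set (SL2 F)) := Subgroup.subset_closure (by simp)
          have hBm : B ∈ closure ({A, B} : Set (SL2 F)) := Subgroup.subset_closure (by simp)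
          unfold cm
          exact mul_mem (mul_mem (mul_mem (inv_mem hAm) (inv_mem hBm)) hAm) hBm
        · rintro D (rfl | rfl) hD
          · exact ih D hD (Or.inr ⟨1, one_ne_zero, by rw [hA]; ring⟩)
          · exact ih D hD (Or.inr ⟨1, one_ne_zero, by rw [hB]; ring⟩)
      · -- trace 2 + τ ^ 2
        have hC2 : tr C ≠ 2 := by
          rw [ht]
          intro h
          apply hτ
          have h5 : τ ^ 2 = 0 := by linear_combination h
          exact pow_eq_zero_iff (two_ne_zero) |>.1 h5
        obtain ⟨A, B, hA, hB, hcm⟩ := GTU_pair hPair hTrC hCnj h2 C hC hC2 2 2 (2 + τ) h2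
          (by rw [ht]; ring)
        have hA' : A ∉ center (SL2 F) := by
          intro h
          apply hC
          rw [← hcm, GTU_central_cm A B (Or.inl h)]
          exact Subgroup.one_mem _
        refine fin A B hC2 hcm ⟨A, Subgroup.subset_closure (by simp), hA', by rw [hA]; ring⟩ ?_
        have hneg : ∀ D : SL2 F, D ∉ center (SL2 F) → tr D = 2 → pr D ∈ GT (PSL2 F) k := by
          intro D hD hDt
          rw [← GTodd_pr_neg]
          apply ih
          · intro h
            apply hD
            have e : D = -D * (-1) := by simp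
            rw [e]
            exact Subgroup.mul_mem _ h GTodd_neg_center
          · left
            rw [GTodd_tr_neg, hDt]
        rintro D (rfl | rfl) hD
        · exact hneg D hD hA
        · exact hneg D hD hB
  intro k C τ hτ ht hC
  exact key k C hC (Or.inr ⟨τ, hτ, ht⟩)

end MP_8aaf67.PT
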