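import Pool.Agent.Work.MP_8aaf67_al.PT.Stmts

/-! Item InvT: existence of an inverting element. -/

set_option autoImplicit false

open Subgroup MP_8aaf67.PS

namespace MP_8aaf67.PT

open Polynomial in
private theorem InvT_quad {F : Type} [Field F] [Finite F] (h2 : (2 : F) ≠ 0) (D c : F)
    (hD : D ≠ 0) : ∃ x v : F, x ^ 2 - D * v ^ 2 = c := by
  haveI := Fintype.ofFinite F
  have hodd : Fintype.card F % 2 = 1 := by
    apply FiniteField.odd_card_of_char_ne_two
    intro h
    apply h2
    haveI : CharP F 2 := ringChar.of_eq h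
    exact CharTwo.two_eq_zero
  have h := @FiniteField.exists_root_sum_quadratic F _ _ _ (X ^ 2 - C c) (C (-D) * X ^ 2)
    (degree_X_pow_sub_C (by decide) _)
    (by rw [degree_C_mul (neg_ne_zero.mpr hD), degree_X_pow]; rfl) hodd
  obtain ⟨a, b, hab⟩ := h
  refine ⟨a, b, ?_⟩
  simp only [eval_sub, eval_pow, eval_X, eval_C, eval_mul] at hab
  linear_combination hab

private theorem InvT_key {F : Type} [Field F] [Finite F] (p q r s : F)
    (hdet : p * s - q * r = 1) (hD : (p + s) ^ 2 ≠ 4) (hns : ¬ (q = 0 ∧ r = 0 ∧ p = s)) :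
    ∃ u v w : F, u * (p - s) + v * r + w * q = 0 ∧ u ^ 2 + v * w = -1 := by
  by_cases hq : q = 0
  · by_cases hr : r = 0
    · exact ⟨0, 1, -1, by rw [hq, hr]; ring, by ring⟩
    · have hd : p - s ≠ 0 := by
        intro h
        apply hD
        rw [hq] at hdet
        linear_combination (p - s) * h + 4 * hdet
      refine ⟨1, -(p - s) / r, 2 * r / (p - s), ?_, ?_⟩
      · rw [hq]
        field_simp
        ring
      · field_simp
        ring
  · by_cases h2 : (2 : F) = 0
    · refine ⟨1, 0, -(p - s) / q, ?_, ?_⟩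
      · field_simp
        ring
      · linear_combination h2
    · have hDD : (p - s) ^ 2 + 4 * q * r ≠ 0 := by
        intro h
        apply hD
        linear_combination h + 4 * hdet
      obtain ⟨x, v, hxv⟩ := InvT_quad h2 _ (-4 * q ^ 2) hDD
      refine ⟨(x + (p - s) * v) / (2 * q), v,
        -((x + (p - s) * v) / (2 * q) * (p - s) + v * r) / q, ?_, ?_⟩
      · field_simp
        ring
      · field_simp
        linear_combination hxv

theorem prf_InvT (hTor : TorS) (hCnj : Cnj) : InvT := by
  intro F _ _ p _ hp hpF P hP hP1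
  obtain ⟨X₀, hX, ht0, ht4, -, hall⟩ := hTor F p hp hpF P hP hP1
  have hdet : X₀.val 0 0 * X₀.val 1 1 - X₀.val 0 1 * X₀.val 1 0 = 1 := by
    rw [← Matrix.det_fin_two]
    exact X₀.2
  have htr : tr X₀ = X₀.val 0 0 + X₀.val 1 1 := by
    unfold tr
    rw [Matrix.trace_fin_two]
  have hns : ¬ (X₀.val 0 1 = 0 ∧ X₀.val 1 0 = 0 ∧ X₀.val 0 0 = X₀.val 1 1) := by
    rintro ⟨h1, h2, h3⟩
    apply ht4
    rw [htr]
    rw [h1, ← h3] at hdet
    rw [← h3]
    linear_combination 4 * hdet
  obtain ⟨u, v, w, h1, h2⟩ := InvT_key _ _ _ _ hdet (by rw [← htr]; exact ht4) hns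
  have hgdet : (!![u, v; w, -u] : Matrix (Fin 2) (Fin 2) F).det = 1 := by
    rw [Matrix.det_fin_two_of]
    linear_combination -h2
  refine ⟨⟨!![u, v; w, -u], hgdet⟩, ?_, ?_⟩
  · intro hc
    obtain ⟨r, hr, hr'⟩ := Matrix.SpecialLinearGroup.mem_center_iff.mp hc
    rw [Fintype.card_fin] at hr
    have e00 : r = u := by
      have := congrFun (congrFun hr' 0) 0
      simpa using this
    have e11 : r = -u := by
      have := congrFun (congrFun hr' 1) 1
      simpa using this
    have e01 : v = 0 := by
      have := congrFun (congrFun hr' 0) 1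
      simpa using this.symm
    have e10 : w = 0 := by
      have := congrFun (congrFun hr' 1) 0
      simpa using this.symm
    have hu : u ≠ 0 := by
      intro h
      rw [e00, h] at hr
      simp at hr
    have h22 : (2 : F) = 0 := by
      have : 2 * u = 0 := by linear_combination e11 - e00
      exact (mul_eq_zero.mp this).resolve_right hu
    apply ht0
    rw [htr]
    rw [e01, e10] at h1
    have h3 : X₀.val 0 0 - X₀.val 1 1 = 0 := by
      have : u * (X₀.val 0 0 - X₀.val 1 1) = 0 := by linear_combination h1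
      exact (mul_eq_zero.mp this).resolve_left hu
    linear_combination h3 + X₀.val 1 1 * h22
  · intro x hx
    obtain ⟨a, b, e, he, hee⟩ := hall x hx
    rw [← he]
    unfold pr
    rw [← map_inv, ← map_inv, ← map_mul, ← map_mul]
    congr 1
    rw [mul_inv_eq_iff_eq_mul]
    apply Subtype.ext
    have e00 : e.val 0 0 = a + b * X₀.val 0 0 := by
      have := congrFun (congrFun hee 0) 0
      simpa using this
    have e11 : e.val 1 1 = a + b * X₀.val 1 1 := by
      have := congrFun (congrFun hee 1) 1
      simpa using this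
    have e01 : e.val 0 1 = b * X₀.val 0 1 := by
      have := congrFun (congrFun hee 0) 1
      simpa using this
    have e10 : e.val 1 0 = b * X₀.val 1 0 := by
      have := congrFun (congrFun hee 1) 0
      simpa using this
    show !![u, v; w, -u] * e.val = (e⁻¹).val * !![u, v; w, -u]
    have hinv : (e⁻¹).val = !![e.val 1 1, -e.val 0 1; -e.val 1 0, e.val 0 0] := by
      rw [← Matrix.adjugate_fin_two]
      rfl
    rw [hinv]
    ext i j
    fin_cases i <;> fin_cases j <;>
      simp only [Matrix.mul_apply, Fin.sum_univ_two, Matrix.of_apply, Matrix.cons_val',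
        Matrix.cons_val_zero, Matrix.cons_val_one, Matrix.cons_val_fin_one, Fin.mk_zero,
        Fin.mk_one, Fin.isValue]
    · linear_combination b * h1 + u * e00 + v * e10 - u * e11 + w * e01
    · ring
    · ring
    · linear_combination b * h1 + w * e01 + v * e10 - u * e11 + u * e00

end MP_8aaf67.PT
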