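import Pool.Agent.Work.MP_8aaf67_al.PT.Stmts

/-!
# MP_8aaf67_al, project PT: LemR
-/

set_option autoImplicit false

open Subgroup MP_8aaf67.PS

namespace MP_8aaf67.PT

/-- an element of odd order is a power of its inverse square -/
private theorem LemR_odd {G : Type*} [Group G] {C : Subgroup G} {x : G} {N : ℕ} (hN : Odd N)
    (hx : x ^ N = 1) (h : x⁻¹ * x⁻¹ ∈ C) : x ∈ C := by
  obtain ⟨j, hj⟩ := hN
  have h1 : x * (x * x) ^ j = 1 := by
    rw [← pow_two, ← pow_mul, ← pow_succ', ← hj]
    exact hx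
  have h2 : x = (x⁻¹ * x⁻¹) ^ j := by
    rw [← mul_inv_rev, inv_pow]
    exact eq_inv_of_mul_eq_one_left h1
  rw [h2]
  exact pow_mem h j

/-- the normal complement -/
private theorem LemR_burnside (hNC : NC) {F : Type} [Field F] [Finite F]
    (hS : HS (PSL2 F)) {p : ℕ} [hp : Fact p.Prime] (hp2 : p ≠ 2)
    {K P : Subgroup (PSL2 F)} (hK : ¬ Group.IsSolvable K) (hP : SylIn p P ⊤) (hPK : P ≤ K)
    (hbot : P ≠ ⊥) (hc : ∀ n ∈ K, (∀ x ∈ P, n * x * n⁻¹ ∈ P) → ∀ x ∈ P, n * x * n⁻¹ = x) :
    False := by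
  obtain ⟨Q, hQ⟩ := (hP.mono hPK le_top).exists_sylow_sub
  have hmemQ : ∀ y : K, y ∈ (Q : Subgroup K) ↔ (y : PSL2 F) ∈ P := by
    intro y
    rw [hQ, mem_subgroupOf]
  have hQC : normalizer (Q : Set K) ≤ centralizer ((Q : Subgroup K) : Set K) := by
    intro n hn
    rw [mem_centralizer_iff]
    intro q hq
    have h1 : ∀ x ∈ P, (n : PSL2 F) * x * (n : PSL2 F)⁻¹ ∈ P := by
      intro x hx
      have h2 : (⟨x, hPK hx⟩ : K) ∈ (Q : Subgroup K) := (hmemQ _).2 hx
      have h3 := (mem_normalizer_iff.1 hn ⟨x, hPK hx⟩).1 h2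
      exact (hmemQ _).1 h3
    have h2 := hc n n.2 h1 (q : PSL2 F) ((hmemQ q).1 hq)
    apply Subtype.ext
    change (q : PSL2 F) * n = n * q
    have h3 : (n : PSL2 F) * q = (n * q * (n : PSL2 F)⁻¹) * n := by group
    rw [h3, h2]
  have hdvd := MonoidHom.not_dvd_card_ker_transferSylow Q hQC
  set f := MonoidHom.transferSylow Q hQC with hf
  have h1 : Group.IsSolvable (f.ker.map K.subtype) := by
    apply hNC F hS p hp2 P _ hP.2.1 hbot
    · rintro x hx _ ⟨n, hn, rfl⟩
      refine ⟨⟨x, hPK hx⟩ * n * (⟨x, hPK hx⟩ : K)⁻¹, ?_, rfl⟩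
      exact (MonoidHom.normal_ker f).conj_mem n hn _
    · have h2 : Nat.card (f.ker.map K.subtype) = Nat.card f.ker :=
        (Nat.card_congr (f.ker.equivMapOfInjective K.subtype K.subtype_injective).toEquiv).symm
      rw [h2]
      exact hdvd
  have h2 : Group.IsSolvable f.ker := by
    have e := f.ker.equivMapOfInjective K.subtype K.subtype_injective
    exact Group.isSolvable_of_isSolvable_injective (f := e.toMonoidHom) e.injective
  have h3 : Group.IsSolvable (Q : Subgroup K) := by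
    have h4 : Group.IsNilpotent (Q : Subgroup K) := Q.2.isNilpotent
    infer_instance
  apply hK
  refine Group.isSolvable_of_ker_le_range f.ker.subtype f ?_
  rw [Subgroup.range_subtype]

/-- one step -/
private theorem LemR_step (hNC : NC) (hNor : NorT) {F : Type} [Field F] [Finite F]
    (hS : HS (PSL2 F)) {p : ℕ} [hp : Fact p.Prime] (hp2 : p ≠ 2) (hpF : ¬ p ∣ Nat.card F)
    {K P : Subgroup (PSL2 F)} (hK : ¬ Group.IsSolvable K) (hP : SylIn p P ⊤) (hPK : P ≤ K) :
    P ≤ ⁅K, K⁆ := by
  by_cases hbot : P = ⊥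
  · rw [hbot]
    exact bot_le
  by_cases hcase : ∃ n ∈ K, (∀ x ∈ P, n * x * n⁻¹ ∈ P) ∧ ¬ ∀ x ∈ P, n * x * n⁻¹ = x
  · obtain ⟨n, hnK, hn, hnc⟩ := hcase
    have hinv := (hNor F p hp2 hpF P hP.2.1 n hn).resolve_left hnc
    intro x hx
    have h1 : x⁻¹ * x⁻¹ ∈ ⁅K, K⁆ := by
      have h2 := commutator_mem_commutator hnK (hPK hx)
      rw [commutatorElement_def, hinv x hx] at h2
      exact h2
    obtain ⟨m, hm⟩ := hP.2.1 ⟨x, hx⟩
    have h3 : x ^ p ^ m = 1 := congrArg Subtype.val hm
    exact LemR_odd (hp.out.odd_of_ne_two hp2).pow h3 h1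
  · exfalso
    push Not at hcase
    exact LemR_burnside hNC hS hp2 hK hP hPK hbot hcase

/-- the derived subgroup of a nonsoluble group -/
private theorem LemR_sol {G : Type*} [Group G] {K : Subgroup G} (hK : ¬ Group.IsSolvable K) :
    ¬ Group.IsSolvable (⁅K, K⁆ : Subgroup G) := by
  intro h
  apply hK
  have h1 : Group.IsSolvable (commutator K) := by
    have h2 : (commutator K).map K.subtype = ⁅K, K⁆ := by
      rw [commutator_def, map_commutator, ← MonoidHom.range_eq_map, range_subtype]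
    have e := (commutator K).equivMapOfInjective K.subtype K.subtype_injective
    rw [h2] at e
    exact Group.isSolvable_of_isSolvable_injective (f := e.toMonoidHom) e.injective
  obtain ⟨n, hn⟩ := h1
  refine ⟨⟨n + 1, ?_⟩⟩
  have h3 : ∀ j : ℕ, (derivedSeries (commutator K) j).map (commutator K).subtype
      = derivedSeries K (j + 1) := by
    intro j
    induction j with
    | zero =>
      rw [derivedSeries_zero, ← MonoidHom.range_eq_map, range_subtype]
      rfl
    | succ j ih =>
      rw [derivedSeries_succ, map_commutator, ih]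
      rfl
  rw [← h3, hn, Subgroup.map_bot]

theorem prf_LemR (hNC : NC) (hNor : NorT) : LemR := by
  intro F _ _ hS p hp hp2 hpF H P hH hP hPH i
  have key : ¬ Group.IsSolvable ((derivedSeries H i).map H.subtype : Subgroup (PSL2 F)) ∧
      P ≤ (derivedSeries H i).map H.subtype := by
    induction i with
    | zero =>
      have h1 : (derivedSeries H 0).map H.subtype = H := by
        rw [derivedSeries_zero, ← MonoidHom.range_eq_map, range_subtype]
      rw [h1]
      exact ⟨hH, hPH⟩
    | succ i ih =>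
      have h1 : (derivedSeries H (i + 1)).map H.subtype =
          ⁅(derivedSeries H i).map H.subtype, (derivedSeries H i).map H.subtype⁆ := by
        rw [derivedSeries_succ, map_commutator]
      rw [h1]
      exact ⟨LemR_sol ih.1, LemR_step hNC hNor hS hp2 hpF ih.1 hP ih.2⟩
  exact key.2

end MP_8aaf67.PT
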