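import Pool.Agent.Work.MP_8aaf67_al.PT.Stmts

/-! The characteristic divides the order of the residual. -/

set_option autoImplicit false

open Subgroup MP_8aaf67.PS

namespace MP_8aaf67.PT

private theorem LemU_insol (H : Type) [Group H] (h : ¬ Group.IsSolvable H) (i : ℕ) :
    ¬ Group.IsSolvable (derivedSeries H i) := by
  intro hs
  apply h
  have hq : Group.IsSolvable (H ⧸ derivedSeries H i) := by
    refine ⟨i, ?_⟩
    rw [← map_derivedSeries_eq (QuotientGroup.mk'_surjective (derivedSeries H i)) i]
    rw [Subgroup.map_eq_bot_iff, QuotientGroup.ker_mk']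
  exact Group.isSolvable_of_ker_le_range (derivedSeries H i).subtype
    (QuotientGroup.mk' (derivedSeries H i)) (by rw [QuotientGroup.ker_mk', Subgroup.range_subtype])

theorem prf_LemU (hNC : NC) : LemU := by
  intro F _ _ hHS p _ hp2 H hH hpH _ i
  induction i with
  | zero =>
    rw [derivedSeries_zero, Subgroup.card_top]
    exact hpH
  | succ i ih =>
    by_contra hnd
    have : Finite (PSL2 F) := inferInstance
    have : Finite H := inferInstance
    obtain ⟨P₁⟩ : Nonempty (Sylow p (derivedSeries H i)) := inferInstance
    set K : Subgroup H := derivedSeries H i with hK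
    set P : Subgroup (PSL2 F) := ((P₁ : Subgroup K).map K.subtype).map H.subtype with hP
    set N : Subgroup (PSL2 F) := (derivedSeries H (i + 1)).map H.subtype with hN
    have hPp : IsPGroup p P := (P₁.isPGroup'.map K.subtype).map H.subtype
    have hPbot : P ≠ ⊥ := by
      rw [hP, Ne, Subgroup.map_eq_bot_iff_of_injective _ H.subtype_injective,
        Subgroup.map_eq_bot_iff_of_injective _ K.subtype_injective]
      exact P₁.ne_bot_of_dvd_card ih
    have hnorm : ∀ x ∈ P, ∀ n ∈ N, x * n * x⁻¹ ∈ N := by
      rintro _ ⟨h, -, rfl⟩ _ ⟨n, hn, rfl⟩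
      refine ⟨h * n * h⁻¹, (derivedSeries_normal H (i + 1)).conj_mem n hn h, ?_⟩
      simp
    have hcard : ¬ p ∣ Nat.card N := by
      have e : Nat.card N = Nat.card (derivedSeries H (i + 1)) :=
        Nat.card_congr ((derivedSeries H (i + 1)).equivMapOfInjective _
          H.subtype_injective).symm.toEquiv
      rw [e]
      exact hnd
    have hs := hNC F hHS p hp2 P N hPp hPbot hnorm hcard
    apply LemU_insol H hH (i + 1)
    have e := (derivedSeries H (i + 1)).equivMapOfInjective H.subtype H.subtype_injective
    exact Group.isSolvable_of_isSolvable_injective (f := e.toMonoidHom) e.injective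

end MP_8aaf67.PT
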