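import Pool.Agent.Work.MP_8aaf67_al.PT.Stmts

/-!
# MP_8aaf67_al, PT: lifting of elements normalising a Sylow subgroup
-/

open Subgroup MP_8aaf67.PS

namespace MP_8aaf67.PT

theorem prf_LiftB : LiftB := by
  intro p _ T X _ _ _ π hπ _hk B hB g hg
  obtain ⟨g0, hg0⟩ := hπ g
  have hC : SylIn p (B.map (MulAut.conj g0).toMonoidHom) ⊤ := by
    have h1 := hB.map (MulAut.conj g0).toMonoidHom
    have h2 : (⊤ : Subgroup T).map (MulAut.conj g0).toMonoidHom = ⊤ :=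
      Subgroup.map_top_of_surjective _ (MulAut.conj g0).surjective
    rwa [h2] at h1
  have hBK : B ≤ π.ker ⊔ B := le_sup_right
  have hCK : B.map (MulAut.conj g0).toMonoidHom ≤ π.ker ⊔ B := by
    rintro _ ⟨b, hb, rfl⟩
    have h3 : (MulAut.conj g0).toMonoidHom b = g0 * b * g0⁻¹ := rfl
    rw [h3]
    obtain ⟨b', hb', hb2⟩ := hg (π b) ⟨b, hb, rfl⟩
    have h4 : (g0 * b * g0⁻¹) * b'⁻¹ ∈ π.ker := by
      rw [MonoidHom.mem_ker, map_mul, map_mul, map_mul, map_inv, map_inv, hb2, hg0]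
      group
    have h5 : g0 * b * g0⁻¹ = ((g0 * b * g0⁻¹) * b'⁻¹) * b' := by group
    rw [h5]
    exact Subgroup.mul_mem_sup h4 hb'
  obtain ⟨k, hk, hkx⟩ := (hB.mono hBK le_top).conj (hC.mono hCK le_top)
  have h6 : k ∈ ((π.ker ⊔ B : Subgroup T) : Set T) := hk
  rw [Subgroup.normal_mul] at h6
  obtain ⟨n, hn, b, hb, rfl⟩ := h6
  have hn' : π n = 1 := hn
  refine ⟨n⁻¹ * g0, ?_, ?_⟩
  · rw [map_mul, map_inv, hn', hg0]
    group
  · intro q hq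
    have h7 := (hkx (g0 * q * g0⁻¹)).1 ⟨q, hq, rfl⟩
    have h8 : n⁻¹ * g0 * q * (n⁻¹ * g0)⁻¹ =
        b * ((n * b)⁻¹ * (g0 * q * g0⁻¹) * (n * b)) * b⁻¹ := by group
    rw [h8]
    exact B.mul_mem (B.mul_mem hb h7) (B.inv_mem hb)

end MP_8aaf67.PT
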