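import Pool.Agent.Work.MP_8aaf67_al.PT.Stmts
import Pool.Agent.Work.MP_8aaf67_al.PS.GTL

/-!
# Project PT: lifting of a pair whose commutator normalises a p-subgroup
-/

set_option autoImplicit false

open Subgroup MP_8aaf67.PS

namespace MP_8aaf67.PT

/-- a minimal normal subgroup of the Frattini subgroup commutes with it -/
theorem LiftN_cent {T : Type} [Group T] [Finite T] {V : Subgroup T} (hV : MinNormal V)
    (hF : V ≤ frattini T) : ∀ v ∈ V, ∀ m ∈ frattini T, v * m = m * v := by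
  have := hV.1
  have hnil : Group.IsNilpotent (frattini T) := frattini_nilpotent (G := T)
  obtain ⟨n, hn⟩ := (isNilpotent_iff_lowerCentralSeries (frattini T)).1 hnil
  have hle : ⁅V, frattini T⁆ ≤ V := Subgroup.commutator_le_left V (frattini T)
  rcases hV.2.2 ⁅V, frattini T⁆ inferInstance hle with h | h
  · rw [Subgroup.commutator_eq_bot_iff_le_centralizer] at h
    intro x hx y hy
    exact (Subgroup.mem_centralizer_iff.1 (h hx) y hy).symm
  · exfalso
    have key : ∀ n, V ≤ (frattini T).lowerCentralSeries n := by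
      intro n
      induction n with
      | zero => exact hF
      | succ n ih =>
        rw [Subgroup.lowerCentralSeries_succ]
        calc V = ⁅V, frattini T⁆ := h.symm
          _ ≤ _ := Subgroup.commutator_mono ih le_rfl
    apply hV.2.1
    rw [eq_bot_iff, ← hn]
    exact key n

/-- commutative group structure -/
@[reducible] def LiftN_cg {T : Type} [Group T] (V : Subgroup T)
    (hc : ∀ x ∈ V, ∀ y ∈ V, x * y = y * x) : CommGroup V :=
  { (inferInstance : Group V) with mul_comm := fun x y => Subtype.ext (hc x x.2 y y.2) }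

/-- powers -/
theorem LiftN_pow {p : ℕ} [Fact p.Prime] {T : Type} [Group T] [Finite T] {V Q : Subgroup T}
    (hpV : ¬ p ∣ Nat.card V) (hQ : IsPGroup p Q) {x y v : T} (hx : x ∈ Q) (hy : y ∈ Q)
    (hv : v ∈ V) (hyv : Commute y v) (s : T) (h : s * x * s⁻¹ = y * v) : v = 1 := by
  obtain ⟨i, hi⟩ := hQ ⟨x, hx⟩
  obtain ⟨j, hj⟩ := hQ ⟨y, hy⟩
  have hi' : x ^ p ^ i = 1 := congrArg Subtype.val hi
  have hj' : y ^ p ^ j = 1 := congrArg Subtype.val hj
  have h1 : x ^ p ^ (i + j) = 1 := by rw [pow_add, pow_mul, hi', one_pow]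
  have h2 : y ^ p ^ (i + j) = 1 := by rw [add_comm, pow_add, pow_mul, hj', one_pow]
  have h3 : (y * v) ^ p ^ (i + j) = 1 := by
    rw [← h, conj_pow, h1, mul_one, mul_inv_cancel]
  rw [hyv.mul_pow, h2, one_mul] at h3
  have h4 : orderOf v ∣ p ^ (i + j) := orderOf_dvd_of_pow_eq_one h3
  have h5 : orderOf v ∣ Nat.card V := by
    have := orderOf_dvd_natCard (⟨v, hv⟩ : V)
    rwa [Subgroup.orderOf_mk] at this
  have h6 : orderOf v = 1 := eq_one_of_pow_of_not_dvd h4 (fun h => hpV (h.trans h5))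
  exact orderOf_eq_one_iff.1 h6

/-- a conjugate of Q in QV is conjugate to Q by an element of V -/
theorem LiftN_conj {p : ℕ} [Fact p.Prime] {T : Type} [Group T] [Finite T] {V Q : Subgroup T}
    [V.Normal] (hpV : ¬ p ∣ Nat.card V) (hQ : IsPGroup p Q) (s : T)
    (hs : ∀ q ∈ Q, s * q * s⁻¹ ∈ Q ⊔ V) :
    ∃ v ∈ V, ∀ q ∈ Q, (v⁻¹ * s) * q * (v⁻¹ * s)⁻¹ ∈ Q := by
  set K : Subgroup T := Q ⊔ V with hK
  have hcard : ∀ H : Subgroup T, H ≤ K → Nat.card H * H.relIndex K = Nat.card K := by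
    intro H hH
    have := relIndex_mul_relIndex ⊥ H K bot_le hH
    rwa [relIndex_bot_left, relIndex_bot_left] at this
  have hB : SylIn p Q K := by
    refine ⟨le_sup_left, hQ, ?_⟩
    rw [hK, relIndex_sup_eq]
    exact fun h => hpV (h.trans (relIndex_dvd_card Q V))
  set Qs : Subgroup T := Q.map (MulAut.conj s).toMonoidHom with hQs
  have hQsK : Qs ≤ K := by
    rintro _ ⟨q, hq, rfl⟩
    exact hs q hq
  have hcQs : Nat.card Qs = Nat.card Q :=
    (Nat.card_congr (Q.equivMapOfInjective _ (MulAut.conj s).injective).toEquiv).symm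
  have hC : SylIn p Qs K := by
    refine ⟨hQsK, hQ.map _, ?_⟩
    have h1 := hcard Q hB.1
    have h2 := hcard Qs hQsK
    rw [hcQs, ← h1] at h2
    have h3 := Nat.eq_of_mul_eq_mul_left Nat.card_pos h2
    rw [h3]
    exact hB.2.2
  obtain ⟨k, hk, hkk⟩ := hB.conj hC
  obtain ⟨v, hv, q0, hq0, rfl⟩ := mem_sup_of_normal_left.1 (show k ∈ V ⊔ Q by
    rw [sup_comm]; exact hk)
  refine ⟨v, hv, fun q hq => ?_⟩
  have h1 := (hkk (s * q * s⁻¹)).1 ⟨q, hq, rfl⟩
  have h2 := Q.mul_mem (Q.mul_mem hq0 h1) (Q.inv_mem hq0)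
  have e : q0 * ((v * q0)⁻¹ * (s * q * s⁻¹) * (v * q0)) * q0⁻¹ =
      (v⁻¹ * s) * q * (v⁻¹ * s)⁻¹ := by group
  rwa [e] at h2

/-- the action of the quotient on V -/
theorem LiftN_act {T X : Type} [Group T] [Group X] (π : T →* X)
    (hπ : Function.Surjective π) (V : Subgroup T) [V.Normal]
    (hc : ∀ m ∈ π.ker, ∀ v ∈ V, m * v = v * m) :
    ∃ ρ : X →* MulAut V, ∀ (t : T) (v : V), ((ρ (π t) v : V) : T) = t * v * t⁻¹ := by
  have hk : π.ker ≤ (MulAut.conjNormal (H := V) : T →* MulAut V).ker := by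
    intro m hm
    rw [MonoidHom.mem_ker]
    apply MulEquiv.ext
    intro v
    apply Subtype.ext
    rw [MulAut.conjNormal_apply, hc m hm v v.2]
    simp
  refine ⟨(π.liftOfSurjective hπ) ⟨_, hk⟩, fun t v => ?_⟩
  have h1 := π.liftOfRightInverse_comp_apply (Function.surjInv hπ)
    (Function.rightInverse_surjInv hπ) ⟨MulAut.conjNormal (H := V), hk⟩ t
  rw [MonoidHom.liftOfSurjective, h1]
  rfl

/-- the noncentral case -/
theorem LiftN_nc (hVar : VarS) {p : ℕ} [Fact p.Prime] {T X : Type} [Group T] [Group X] [Finite T]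
    (π : T →* X) (hπ : Function.Surjective π) {V Q : Subgroup T} (hV : MinNormal V)
    (hc : ∀ x ∈ V, ∀ y ∈ V, x * y = y * x)
    (hMc : ∀ m ∈ π.ker, ∀ v ∈ V, m * v = v * m) (hVn : ¬ V ≤ center T)
    (hpV : ¬ p ∣ Nat.card V) (hQ : IsPGroup p Q) (a0 b0 : T)
    (hmod : ModC p X (closure {π a0, π b0}) (Q.map π))
    (hs : ∀ q ∈ Q, cm a0 b0 * q * (cm a0 b0)⁻¹ ∈ Q ⊔ V) :
    ∃ v₁ ∈ V, ∃ v₂ ∈ V, ∀ q ∈ Q, cm (a0 * v₁) (b0 * v₂) * q * (cm (a0 * v₁) (b0 * v₂))⁻¹ ∈ Q := by
  have := hV.1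
  obtain ⟨ρ, hρ⟩ := LiftN_act π hπ V hMc
  obtain ⟨v', hv', hn⟩ := LiftN_conj hpV hQ (cm a0 b0) hs
  set s := cm a0 b0 with hsdef
  set n := v'⁻¹ * s with hndef
  have hu' : n⁻¹ * v' * n ∈ V := by
    have h1 := hV.1.conj_mem v' hv' n⁻¹
    rwa [inv_inv] at h1
  obtain ⟨w, hw, z, hz, hwz⟩ := @hmod V (LiftN_cg V hc) _ ρ hpV (by
    intro W hW
    have hWn : (W.map V.subtype).Normal := by
      refine ⟨?_⟩
      rintro _ ⟨w, hw, rfl⟩ t
      refine ⟨ρ (π t) w, hW _ w hw, hρ t w⟩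
    rcases hV.2.2 _ hWn (map_subtype_le W) with h | h
    · left
      rw [eq_bot_iff]
      intro w hw
      have h1 : (w : T) ∈ W.map V.subtype := ⟨w, hw, rfl⟩
      rw [h, mem_bot] at h1
      exact mem_bot.2 (Subtype.ext h1)
    · right
      rw [eq_top_iff]
      intro w _
      have h1 : (w : T) ∈ W.map V.subtype := by rw [h]; exact w.2
      obtain ⟨w', hw', hww⟩ := h1
      have h2 : w' = w := Subtype.ext hww
      rw [← h2]
      exact hw') (by
    by_contra hcon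
    push Not at hcon
    apply hVn
    intro v hv
    rw [mem_center_iff]
    intro t
    have h1 := hρ t ⟨v, hv⟩
    rw [hcon] at h1
    change v = t * v * t⁻¹ at h1
    nth_rewrite 2 [h1]
    group) ⟨n⁻¹ * v' * n, hu'⟩
  -- w in T
  have hwT : (w : T) ∈ closure {x : T | ∃ l ∈ closure ({a0, b0} : Set T), ∃ u ∈ V,
      x = l * u * l⁻¹ * u⁻¹} := by
    have h1 : (w : T) ∈ (closure {w : V | ∃ l ∈ closure {π a0, π b0}, ∃ u : V,
        w = ρ l u * u⁻¹}).map V.subtype := ⟨w, hw, rfl⟩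
    rw [MonoidHom.map_closure] at h1
    refine closure_mono ?_ h1
    rintro _ ⟨x, ⟨l, hl, u, rfl⟩, rfl⟩
    have h2 : l ∈ (closure ({a0, b0} : Set T)).map π := by
      rw [MonoidHom.map_closure, Set.image_pair]
      exact hl
    obtain ⟨l', hl', rfl⟩ := h2
    refine ⟨l', hl', u, u.2, ?_⟩
    change ((ρ (π l') u : V) : T) * (u : T)⁻¹ = _
    rw [hρ]
  have hwz' : n⁻¹ * v' * n = (w : T) * (z : T) := congrArg Subtype.val hwz
  obtain ⟨v₁, hv₁, v₂, hv₂, hcm⟩ := hVar T V hc a0 b0 (w : T)⁻¹ (inv_mem hwT)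
  refine ⟨v₁, hv₁, v₂, hv₂, fun q hq => ?_⟩
  have hsn : s = n * (n⁻¹ * v' * n) := by
    rw [hndef]; group
  have h5 : cm (a0 * v₁) (b0 * v₂) = n * z := by
    rw [hcm, ← hsdef, hsn, hwz', hc w w.2 z z.2]
    group
  have hzq : (z : T) * q * (z : T)⁻¹ = q := by
    have h6 := hz (π q) ⟨q, hq, rfl⟩
    have h7 := hρ q z
    rw [h6] at h7
    have h8 : (z : T) * q = q * z := by
      nth_rewrite 1 [h7]
      group
    rw [h8]
    group
  rw [h5]
  have h9 : n * (z : T) * q * (n * (z : T))⁻¹ = n * ((z : T) * q * (z : T)⁻¹) * n⁻¹ := by group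
  rw [h9, hzq]
  exact hn q hq

theorem LiftN_aux (hVar : VarS) (hLNC : LNC) (hLC : LC) (p : ℕ) [Fact p.Prime] (n : ℕ) :
    ∀ (T X : Type) [Group T] [Group X] [Finite T] (π : T →* X), Function.Surjective π →
    Nat.card π.ker ≤ n → π.ker ≤ frattini T → ¬ p ∣ Nat.card π.ker →
    ∀ (Q : Subgroup T), IsPGroup p Q → ∀ (k : ℕ) (a b : X), a ∈ GT X k → b ∈ GT X k →
    ModC p X (closure {a, b}) (Q.map π) →
    (∀ q ∈ Q.map π, cm a b * q * (cm a b)⁻¹ ∈ Q.map π) →
    ∃ a' ∈ GT T k, ∃ b' ∈ GT T k, π a' = a ∧ π b' = b ∧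
      ∀ q ∈ Q, cm a' b' * q * (cm a' b')⁻¹ ∈ Q := by
  induction n with
  | zero =>
    intro T X _ _ _ π _ hn
    have : 0 < Nat.card π.ker := Nat.card_pos
    omega
  | succ n ih =>
    intro T X _ _ _ π hπ hn hMF hpM Q hQ k a b ha hb hmod hab
    by_cases hM : π.ker = ⊥
    · have hinj : Function.Injective π := (MonoidHom.ker_eq_bot_iff π).1 hM
      set e : T ≃* X := MulEquiv.ofBijective π ⟨hinj, hπ⟩ with he
      have hee : ∀ x : X, π (e.symm x) = x := fun x => e.apply_symm_apply x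
      refine ⟨e.symm a, GTL_map e.symm.toMonoidHom e.symm.surjective k ha, e.symm b,
        GTL_map e.symm.toMonoidHom e.symm.surjective k hb, hee a, hee b, fun q hq => ?_⟩
      obtain ⟨q', hq', hqq⟩ := hab (π q) ⟨q, hq, rfl⟩
      have h1 : π (cm (e.symm a) (e.symm b) * q * (cm (e.symm a) (e.symm b))⁻¹) = π q' := by
        rw [hqq, map_mul, map_mul, map_inv, map_cm, hee, hee]
      rw [hinj h1]
      exact hq'
    · have hMn : (π.ker).Normal := inferInstance
      obtain ⟨V, hV, hVM⟩ := exists_minNormal hMn hM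
      have := hV.1
      have hVF : V ≤ frattini T := hVM.trans hMF
      have hcomm := GTL_comm hV hVF
      have hcard := GTL_card hVM hV.2.1
      have hpV : ¬ p ∣ Nat.card V := fun h => hpM (h.trans (Subgroup.card_dvd_of_le hVM))
      set π1 : T ⧸ V →* X := QuotientGroup.lift V π (fun x hx => hVM hx) with hπ1
      have hπ1m : ∀ t : T, π1 (QuotientGroup.mk t) = π t := fun t => rfl
      have hker : π1.ker = (π.ker).map (QuotientGroup.mk' V) := by
        ext x
        obtain ⟨t, rfl⟩ := QuotientGroup.mk_surjective x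
        constructor
        · intro hx
          exact ⟨t, hx, rfl⟩
        · rintro ⟨t', ht', htt⟩
          rw [MonoidHom.mem_ker, ← htt]
          exact ht'
      have hπ1s : Function.Surjective π1 := by
        intro x
        obtain ⟨t, rfl⟩ := hπ x
        exact ⟨QuotientGroup.mk t, rfl⟩
      have hQ1 : (Q.map (QuotientGroup.mk' V)).map π1 = Q.map π := by
        rw [Subgroup.map_map]
        rfl
      obtain ⟨a1, ha1, b1, hb1, ha1', hb1', hn1⟩ := ih (T ⧸ V) X π1 hπ1s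
        (by rw [hker]; omega) (by rw [hker]; exact GTL_frat hMF)
        (by rw [hker]; exact fun h => hpM (h.trans hcard.2))
        (Q.map (QuotientGroup.mk' V)) (hQ.map _) k a b ha hb (by rw [hQ1]; exact hmod)
        (by rw [hQ1]; exact hab)
      obtain ⟨a0, rfl⟩ := QuotientGroup.mk_surjective a1
      obtain ⟨b0, rfl⟩ := QuotientGroup.mk_surjective b1
      rw [hπ1m] at ha1' hb1'
      have mkV : ∀ (t v : T), v ∈ V →
          (QuotientGroup.mk (t * v) : T ⧸ V) = QuotientGroup.mk t := by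
        intro t v hv
        have e1 : (QuotientGroup.mk v : T ⧸ V) = 1 := (QuotientGroup.eq_one_iff v).2 hv
        rw [QuotientGroup.mk_mul, e1, mul_one]
      have piV : ∀ (t v : T), v ∈ V → π (t * v) = π t := by
        intro t v hv
        rw [← hπ1m, ← hπ1m, mkV t v hv]
      -- every lift normalises QV
      have hnorm : ∀ a' b' : T, (QuotientGroup.mk a' : T ⧸ V) = QuotientGroup.mk a0 →
          (QuotientGroup.mk b' : T ⧸ V) = QuotientGroup.mk b0 → ∀ q ∈ Q,
          ∃ q' ∈ Q, ∃ v ∈ V, cm a' b' * q * (cm a' b')⁻¹ = q' * v := by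
        intro a' b' ha' hb' q hq
        obtain ⟨q', hq', hqq⟩ := hn1 (QuotientGroup.mk' V q) ⟨q, hq, rfl⟩
        refine ⟨q', hq', q'⁻¹ * (cm a' b' * q * (cm a' b')⁻¹), ?_, by group⟩
        have h1 : QuotientGroup.mk' V (cm a' b' * q * (cm a' b')⁻¹) = QuotientGroup.mk' V q' := by
          rw [hqq, map_mul, map_mul, map_inv, map_cm]
          change cm (QuotientGroup.mk a' : T ⧸ V) (QuotientGroup.mk b') * _ *
            (cm (QuotientGroup.mk a' : T ⧸ V) (QuotientGroup.mk b'))⁻¹ = _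
          rw [ha', hb']
        exact QuotientGroup.eq.1 h1.symm
      by_cases hVc : V ≤ center T
      · obtain ⟨z1, hz1, hG1⟩ := hLC T V hVF hVc k a0 ha1
        obtain ⟨z2, hz2, hG2⟩ := hLC T V hVF hVc k b0 hb1
        refine ⟨a0 * z1, hG1, b0 * z2, hG2, by rw [piV _ _ hz1, ha1'],
          by rw [piV _ _ hz2, hb1'], fun q hq => ?_⟩
        obtain ⟨q', hq', v, hv, hqv⟩ := hnorm (a0 * z1) (b0 * z2) (mkV _ _ hz1) (mkV _ _ hz2) q hq
        have hcq : Commute q' v := (mem_center_iff.1 (hVc hv)) q'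
        have hv1 := LiftN_pow hpV hQ hq hq' hv hcq _ hqv
        rw [hqv, hv1, mul_one]
        exact hq'
      · have hMc : ∀ m ∈ π.ker, ∀ v ∈ V, m * v = v * m := fun m hm v hv =>
          (LiftN_cent hV hVF v hv m (hMF hm)).symm
        obtain ⟨v₁, hv₁, v₂, hv₂, hres⟩ := LiftN_nc hVar π hπ hV hcomm hMc hVc hpV hQ a0 b0
          (by rw [ha1', hb1']; exact hmod)
          (by
            intro q hq
            obtain ⟨q', hq', v, hv, hqv⟩ := hnorm a0 b0 rfl rfl q hq
            rw [hqv]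
            exact mul_mem_sup hq' hv)
        refine ⟨a0 * v₁, hLNC T V hV hcomm hVF hVc k _ ?_, b0 * v₂,
          hLNC T V hV hcomm hVF hVc k _ ?_, by rw [piV _ _ hv₁, ha1'],
          by rw [piV _ _ hv₂, hb1'], hres⟩
        · rw [mkV _ _ hv₁]
          exact ha1
        · rw [mkV _ _ hv₂]
          exact hb1

theorem prf_LiftN (hVar : VarS) (hLNC : LNC) (hLC : LC) : LiftN := by
  intro p _ T X _ _ _ π hπ hMF hpM Q hQ k a b ha hb hmod hab
  exact LiftN_aux hVar hLNC hLC p (Nat.card π.ker) T X π hπ le_rfl hMF hpM Q hQ k a b ha hb hmod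
    hab

end MP_8aaf67.PT
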