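import Pool.Agent.Work.MP_8aaf67_al.PT.Stmts

/-!
# No nonsoluble p'-subgroup is normalised by a p-subgroup, characteristic 2
-/

set_option autoImplicit false

open Subgroup MP_8aaf67.PS

namespace MP_8aaf67.PT

private theorem NCe_dih {T : Type} [Group T] (x y : T) (hx : x * x = 1) (hy : y * y = 1) (k : ℕ)
    (h : (y * x) ^ (2 * k + 1) = 1) : IsConj x y := by
  have hx' : x⁻¹ = x := inv_eq_of_mul_eq_one_right hx
  have hy' : y⁻¹ = y := inv_eq_of_mul_eq_one_right hy
  have h1 : (y * x) * x = y := by rw [mul_assoc, hx, mul_one]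
  have h2 : SemiconjBy x (y * x)⁻¹ (y * x) := by
    show x * (y * x)⁻¹ = y * x * x
    rw [h1, mul_inv_rev, hx', hy', ← mul_assoc, hx, one_mul]
  have h3 := (h2.pow_right (k + 1)).eq
  rw [isConj_iff]
  refine ⟨(y * x) ^ (k + 1), ?_⟩
  rw [← inv_pow, mul_assoc, h3, ← mul_assoc, ← pow_add,
    show k + 1 + (k + 1) = 2 * k + 1 + 1 by ring, pow_succ, h, one_mul, h1]

/-- two involutions, one not commuting with the other, are conjugate -/
private theorem NCe_conj {T : Type} [Group T] [Finite T]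
    (hC : ∀ v : T, v ≠ 1 → v * v = 1 → ∀ x y : T, x * v = v * x → y * v = v * y →
      x * x = 1 ∧ x * y = y * x) (x y : T) (hx : x * x = 1) (hy : y * y = 1)
    (hne : x * y ≠ y * x) : IsConj x y := by
  have hx' : x⁻¹ = x := inv_eq_of_mul_eq_one_right hx
  have hy' : y⁻¹ = y := inv_eq_of_mul_eq_one_right hy
  have hodd : ¬ 2 ∣ orderOf (y * x) := by
    rintro ⟨m, hm⟩
    have hpos : 0 < orderOf (y * x) := orderOf_pos _
    have hm0 : 0 < m := by omega
    set c := (y * x) ^ m with hc
    have hc1 : c ≠ 1 := by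
      intro h
      have := Nat.le_of_dvd hm0 (orderOf_dvd_of_pow_eq_one h)
      omega
    have hc2 : c * c = 1 := by
      rw [hc, ← pow_add, ← two_mul, ← hm]
      exact pow_orderOf_eq_one _
    have hci : c⁻¹ = c := inv_eq_of_mul_eq_one_right hc2
    have h2 : SemiconjBy x (y * x) (y * x)⁻¹ := by
      show x * (y * x) = (y * x)⁻¹ * x
      rw [mul_inv_rev, hx', hy', mul_assoc]
    have h3 : x * c = c * x := by
      have := (h2.pow_right m).eq
      rw [inv_pow, ← hc, hci] at this
      exact this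
    have h4 : SemiconjBy y (y * x) (y * x)⁻¹ := by
      show y * (y * x) = (y * x)⁻¹ * y
      rw [mul_inv_rev, hx', hy', ← mul_assoc, hy, one_mul, mul_assoc, hy, mul_one]
    have h5 : y * c = c * y := by
      have := (h4.pow_right m).eq
      rw [inv_pow, ← hc, hci] at this
      exact this
    exact hne (hC c hc1 hc2 x y h3 h5).2
  obtain ⟨k, hk⟩ : ∃ k, orderOf (y * x) = 2 * k + 1 := ⟨orderOf (y * x) / 2, by omega⟩
  exact NCe_dih x y hx hy k (by rw [← hk]; exact pow_orderOf_eq_one _)

/-- the abstract argument: `P` acts on `N` -/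
private theorem NCe_abs {N P : Type} [Group N] [Finite N] [Group P] [Finite P]
    [MulDistribMulAction P N] (p : ℕ) [Fact p.Prime] (hP : IsPGroup p P)
    (hN : ¬ p ∣ Nat.card N) (h2 : 2 ∣ Nat.card N)
    (hC : ∀ v : N, v ≠ 1 → v * v = 1 → ∀ x y : N, x * v = v * x → y * v = v * y →
      x * x = 1 ∧ x * y = y * x)
    (hfix : ∀ v : N, v ≠ 1 → v * v = 1 → ∃ x : P, x • v ≠ v) :
    ∃ D : Subgroup N, D ≠ ⊥ ∧ (∀ k, ∀ n ∈ D, k * n * k⁻¹ ∈ D) ∧
      ∀ a ∈ D, ∀ b ∈ D, a * b = b * a := by
  classical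
  have : Fact (Nat.Prime 2) := ⟨Nat.prime_two⟩
  have : Finite (Sylow 2 N) := inferInstance
  have hcard : ¬ p ∣ Nat.card (Sylow 2 N) := by
    intro h
    have Q : Sylow 2 N := default
    rw [Sylow.card_eq_index_normalizer Q] at h
    exact hN (h.trans (Subgroup.index_dvd_card _))
  obtain ⟨Q, hQ⟩ := hP.nonempty_fixed_point_of_prime_not_dvd_card (Sylow 2 N) hcard
  have hQfix : ∀ (x : P) (q : N), q ∈ Q → x • q ∈ Q := by
    intro x q hq
    have h1 : x • Q = Q := hQ x
    have h3 : x • q ∈ ((x • Q : Sylow 2 N) : Subgroup N) :=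
      Subgroup.smul_mem_pointwise_smul q x Q hq
    rw [h1] at h3
    exact h3
  have hQb : (Q : Subgroup N) ≠ ⊥ := Q.ne_bot_of_dvd_card h2
  have : Nontrivial Q := (Subgroup.nontrivial_iff_ne_bot _).2 hQb
  have hQ2 : IsPGroup 2 Q := Q.isPGroup'
  -- an involution in the centre
  obtain ⟨v, hvQ, hv1, hv2, hvc⟩ : ∃ v : N, v ∈ Q ∧ v ≠ 1 ∧ v * v = 1 ∧
      ∀ q ∈ Q, q * v = v * q := by
    have : Nontrivial (center Q) := hQ2.center_nontrivial
    have hz : IsPGroup 2 (center Q) := hQ2.to_subgroup _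
    obtain ⟨n, hn⟩ := hz.exists_card_eq
    have hn0 : n ≠ 0 := by
      rintro rfl
      rw [pow_zero] at hn
      have := Finite.one_lt_card_iff_nontrivial.2 (inferInstance : Nontrivial (center Q))
      omega
    have hd : 2 ∣ Nat.card (center Q) := by
      rw [hn]
      exact dvd_pow_self 2 hn0
    obtain ⟨z, hz2⟩ := exists_prime_orderOf_dvd_card' 2 hd
    refine ⟨((z : Q) : N), (z : Q).2, ?_, ?_, ?_⟩
    · intro h
      have h1 : z = 1 := by
        apply Subtype.ext
        apply Subtype.ext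
        exact h
      rw [h1, orderOf_one] at hz2
      omega
    · have h1 : z ^ 2 = 1 := (orderOf_dvd_iff_pow_eq_one).1 (dvd_of_eq hz2)
      have h3 := congrArg (fun u : center Q => ((u : Q) : N)) h1
      simpa [pow_two] using h3
    · intro q hq
      have h1 := (mem_center_iff.1 z.2) ⟨q, hq⟩
      exact congrArg Subtype.val h1
  -- the centraliser of an involution centralised by Q
  have key : ∀ v : N, v ≠ 1 → v * v = 1 → (∀ q ∈ Q, q * v = v * q) →
      ∀ x : N, x * v = v * x → x ∈ Q := by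
    intro v hv1 hv2 hvc
    have hcm : ∀ x : N, x ∈ centralizer ({v} : Set N) ↔ x * v = v * x := by
      intro x
      rw [mem_centralizer_singleton_iff]
    have hpg : IsPGroup 2 (centralizer ({v} : Set N)) := by
      intro x
      refine ⟨1, ?_⟩
      apply Subtype.ext
      have h1 := (hcm x).1 x.2
      have h3 := (hC v hv1 hv2 x x h1 h1).1
      simpa [pow_two] using h3
    have hle : (Q : Subgroup N) ≤ centralizer ({v} : Set N) := fun q hq => (hcm q).2 (hvc q hq)
    have heq := Q.is_maximal' hpg hle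
    intro x hx
    have : x ∈ centralizer ({v} : Set N) := (hcm x).2 hx
    rw [heq] at this
    exact this
  -- Q is elementary abelian
  have hab : ∀ a ∈ Q, ∀ b ∈ Q, a * b = b * a := fun a ha b hb =>
    (hC v hv1 hv2 a b (hvc a ha) (hvc b hb)).2
  have hel : ∀ a ∈ Q, a * a = 1 := fun a ha => (hC v hv1 hv2 a a (hvc a ha) (hvc a ha)).1
  by_contra hcon
  push Not at hcon
  -- an involution outside Q
  obtain ⟨s, hs2, hsQ⟩ : ∃ s : N, s * s = 1 ∧ s ∉ Q := by
    by_contra hall
    push Not at hall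
    obtain ⟨a, ha, b, hb, hne⟩ := hcon Q hQb (by
      intro k n hn
      apply hall
      have : k * n * k⁻¹ * (k * n * k⁻¹) = k * (n * n) * k⁻¹ := by group
      rw [this, hel n hn]
      group)
    exact hne (hab a ha b hb)
  have hconj : ∀ t ∈ Q, t ≠ 1 → IsConj t s := by
    intro t ht ht1
    apply NCe_conj hC t s (hel t ht) hs2
    intro h
    exact hsQ (key t ht1 (hel t ht) (fun q hq => hab q hq t ht) s h.symm)
  -- all elements of Q minus 1 are conjugate in the normaliser
  have hN2 : ∀ t ∈ Q, t ≠ 1 → ∀ t' ∈ Q, t' ≠ 1 →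
      ∃ n ∈ normalizer ((Q : Subgroup N) : Set N), n * t * n⁻¹ = t' := by
    intro t ht ht1 t' ht' ht1'
    obtain ⟨n, hn⟩ := isConj_iff.1 ((hconj t ht ht1).trans (hconj t' ht' ht1').symm)
    refine ⟨n, ?_, hn⟩
    have h1 : ∀ q ∈ Q, n * q * n⁻¹ ∈ Q := by
      intro q hq
      apply key t' ht1' (hel t' ht') (fun q hq => hab q hq t' ht')
      rw [← hn]
      have e1 : n * q * n⁻¹ * (n * t * n⁻¹) = n * (q * t) * n⁻¹ := by group
      have e2 : n * t * n⁻¹ * (n * q * n⁻¹) = n * (t * q) * n⁻¹ := by group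
      rw [e1, e2, hab q hq t ht]
    have h1' : ∀ q ∈ Q, n⁻¹ * q * n ∈ Q := by
      intro q hq
      apply key t ht1 (hel t ht) (fun q hq => hab q hq t ht)
      have e0 : t = n⁻¹ * t' * n := by rw [← hn]; group
      rw [e0]
      have e1 : n⁻¹ * q * n * (n⁻¹ * t' * n) = n⁻¹ * (q * t') * n := by group
      have e2 : n⁻¹ * t' * n * (n⁻¹ * q * n) = n⁻¹ * (t' * q) * n := by group
      rw [e1, e2, hab q hq t' ht']
    rw [mem_normalizer_iff]
    intro q
    constructor
    · exact h1 q
    · intro hq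
      have := h1' _ hq
      have e : n⁻¹ * (n * q * n⁻¹) * n = q := by group
      rw [e] at this
      exact this
  -- the orbit
  have hdvd : Nat.card Q - 1 ∣ Nat.card N := by
    let : MulAction (normalizer ((Q : Subgroup N) : Set N)) N :=
      MulAction.compHom N (MulAut.conj.comp (normalizer ((Q : Subgroup N) : Set N)).subtype)
    have hsm : ∀ (n : normalizer ((Q : Subgroup N) : Set N)) (x : N), n • x = (n : N) * x * (n : N)⁻¹ :=
      fun n x => rfl
    have horb : MulAction.orbit (normalizer ((Q : Subgroup N) : Set N)) v = {x | x ∈ Q ∧ x ≠ 1} := by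
      ext x
      constructor
      · rintro ⟨n, rfl⟩
        refine ⟨?_, ?_⟩
        · show n • v ∈ Q
          rw [hsm]
          exact (mem_normalizer_iff.1 n.2 v).1 hvQ
        · show n • v ≠ 1
          rw [hsm]
          intro h
          apply hv1
          have := congrArg (fun y => (n : N)⁻¹ * y * n) h
          simpa [mul_assoc] using this
      · rintro ⟨hx, hx1⟩
        obtain ⟨n, hn, hnx⟩ := hN2 v hvQ hv1 x hx hx1
        exact ⟨⟨n, hn⟩, hnx⟩
    have h1 := Nat.card_congr (MulAction.orbitProdStabilizerEquivGroup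
      (normalizer ((Q : Subgroup N) : Set N)) v)
    rw [Nat.card_prod, horb] at h1
    have h3 : Nat.card ({x | x ∈ Q ∧ x ≠ 1} : Set N) = Nat.card Q - 1 := by
      have e1 : ({x | x ∈ Q ∧ x ≠ 1} : Set N) = (Q : Set N) \ {1} := by
        ext x
        simp
      have e2 : Nat.card (Q : Set N) = Nat.card Q := rfl
      rw [e1, ← e2, Nat.card_coe_set_eq, Nat.card_coe_set_eq,
        Set.ncard_sdiff_singleton_of_mem (one_mem Q)]
    rw [h3] at h1
    exact (Dvd.intro _ h1).trans (Subgroup.card_subgroup_dvd_card _)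
  -- fixed points of P
  have hmod : Nat.card Q ≡ 1 [MOD p] := by
    let : MulAction P Q := {
      smul := fun x q => ⟨x • (q : N), hQfix x q q.2⟩
      one_smul := fun q => Subtype.ext (one_smul P (q : N))
      mul_smul := fun x y q => Subtype.ext (mul_smul x y (q : N)) }
    have h1 := hP.card_modEq_card_fixedPoints Q
    have h3 : Nat.card (MulAction.fixedPoints P Q) = 1 := by
      rw [Nat.card_eq_one_iff_unique]
      refine ⟨⟨?_⟩, ⟨⟨1, ?_⟩⟩⟩
      · have hh : ∀ a : MulAction.fixedPoints P Q, ((a : Q) : N) = 1 := by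
          intro a
          by_contra ha
          obtain ⟨x, hx⟩ := hfix _ ha (hel _ (a : Q).2)
          apply hx
          exact congrArg (Subtype.val) (a.2 x)
        intro a b
        apply Subtype.ext
        apply Subtype.ext
        rw [hh a, hh b]
      · intro x
        apply Subtype.ext
        exact smul_one x
    rw [h3] at h1
    exact h1
  have hpos : 0 < Nat.card Q := Nat.card_pos
  have hd : p ∣ Nat.card Q - 1 := (Nat.modEq_iff_dvd' hpos).1 hmod.symm
  exact hN (hd.trans hdvd)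

theorem prf_NCe (hNSO : NSO) (hCen : CenE) (hNA : NormAb) : NCe := by
  intro F _ _ hF hHS p _ hp P N hP hPb hPN hpN
  by_contra hns
  have hHSN : HS N := by
    intro X _ _ hX
    obtain ⟨H, f, hf⟩ := hX
    apply hHS
    refine ⟨H.map N.subtype,
      f.comp (H.equivMapOfInjective N.subtype N.subtype_injective).symm.toMonoidHom, ?_⟩
    rw [MonoidHom.coe_comp]
    exact hf.comp (MulEquiv.surjective _)
  have h2 : 2 ∣ Nat.card N := (hNSO N hHSN hns).1
  let act : MulDistribMulAction P N := {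
    smul := fun x n => ⟨(x : PSL2 F) * n * (x : PSL2 F)⁻¹, hPN x x.2 n n.2⟩
    one_smul := by
      intro n
      apply Subtype.ext
      show (1 : PSL2 F) * n * (1 : PSL2 F)⁻¹ = n
      group
    mul_smul := by
      intro x y n
      apply Subtype.ext
      show ((x : PSL2 F) * y) * n * ((x : PSL2 F) * y)⁻¹ =
        (x : PSL2 F) * ((y : PSL2 F) * n * (y : PSL2 F)⁻¹) * (x : PSL2 F)⁻¹
      group
    smul_mul := by
      intro x m n
      apply Subtype.ext
      show (x : PSL2 F) * (m * n) * (x : PSL2 F)⁻¹ =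
        ((x : PSL2 F) * m * (x : PSL2 F)⁻¹) * ((x : PSL2 F) * n * (x : PSL2 F)⁻¹)
      group
    smul_one := by
      intro x
      apply Subtype.ext
      show (x : PSL2 F) * 1 * (x : PSL2 F)⁻¹ = 1
      group }
  have hsm : ∀ (x : P) (n : N), ((x • n : N) : PSL2 F) = x * n * (x : PSL2 F)⁻¹ :=
    fun x n => rfl
  obtain ⟨D, hDb, hDn, hDc⟩ := NCe_abs (N := N) (P := P) p hP hpN h2 (by
    intro v hv1 hv2 x y hx hy
    have h := hCen F hF v (fun h => hv1 (Subtype.ext h)) (congrArg Subtype.val hv2) x y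
      (congrArg Subtype.val hx) (congrArg Subtype.val hy)
    exact ⟨Subtype.ext h.1, Subtype.ext h.2⟩) (by
    intro v hv1 hv2
    by_contra hall
    push Not at hall
    apply hPb
    rw [eq_bot_iff]
    intro x hx
    rw [mem_bot]
    have h1 := congrArg Subtype.val (hall ⟨x, hx⟩)
    rw [hsm] at h1
    have h3 : x * (v : PSL2 F) = v * x := by
      have h4 : x * (v : PSL2 F) * x⁻¹ = v := h1
      calc x * (v : PSL2 F) = (x * v * x⁻¹) * x := by group
        _ = v * x := by rw [h4]
    have h5 := (hCen F hF v (fun h => hv1 (Subtype.ext h)) (congrArg Subtype.val hv2) x x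
      h3 h3).1
    obtain ⟨k, hk⟩ := hP ⟨x, hx⟩
    have hk' : x ^ p ^ k = 1 := congrArg Subtype.val hk
    have hco : Nat.Coprime 2 (p ^ k) := by
      apply Nat.Coprime.pow_right
      rw [Nat.coprime_primes Nat.prime_two (Fact.out)]
      exact hp.symm
    have h6 : orderOf x ∣ 2 := orderOf_dvd_of_pow_eq_one (by rw [pow_two, h5])
    have h7 : orderOf x ∣ p ^ k := orderOf_dvd_of_pow_eq_one hk'
    exact orderOf_eq_one_iff.1 (Nat.eq_one_of_dvd_coprimes hco h6 h7))
  apply hDb
  have hmb : D.map N.subtype = ⊥ := by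
    refine hNA F N (D.map N.subtype) ?_ ?_ ?_ hns
    · rintro _ ⟨d, _, rfl⟩
      exact d.2
    · rintro k hk _ ⟨d, hd, rfl⟩
      exact ⟨⟨k, hk⟩ * d * ⟨k, hk⟩⁻¹, hDn _ _ hd, rfl⟩
    · rintro _ ⟨a, ha, rfl⟩ _ ⟨b, hb, rfl⟩
      have := hDc a ha b hb
      exact congrArg Subtype.val this
  exact (Subgroup.map_eq_bot_iff_of_injective _ N.subtype_injective).1 hmb

end MP_8aaf67.PT
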