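import Pool.Agent.Work.MP_8aaf67_al.PT.Stmts

/-!
# MP_8aaf67_al, project PT: item NCo
-/

set_option autoImplicit false

open Subgroup MP_8aaf67.PS

namespace MP_8aaf67.PT

/-- sections of subgroups -/
private theorem NCo_HS {S X : Type} [Group S] [Group X] (f : X →* S)
    (hf : Function.Injective f) (h : HS S) : HS X := by
  intro Z _ _ hZ
  refine h Z ?_
  obtain ⟨H, g, hg⟩ := hZ
  refine ⟨H.map f, g.comp (H.equivMapOfInjective f hf).symm.toMonoidHom, ?_⟩
  exact hg.comp (H.equivMapOfInjective f hf).symm.surjective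

open scoped Pointwise in
/-- a Sylow subgroup of `N` normalised by `P` -/
theorem NCo_fix {G : Type*} [Group G] [Finite G] (p q : ℕ) [Fact p.Prime] [Fact q.Prime]
    (P N : Subgroup G) (hP : IsPGroup p P) (hPN : ∀ x ∈ P, ∀ n ∈ N, x * n * x⁻¹ ∈ N)
    (hN : ¬ p ∣ Nat.card N) : ∃ D : Subgroup G, SylIn q D N ∧
      ∀ x ∈ P, ∀ d ∈ D, x * d * x⁻¹ ∈ D := by
  let inst : MulDistribMulAction P N :=
    { smul := fun x n => ⟨x * n * (x : G)⁻¹, hPN x x.2 n n.2⟩
      one_smul := fun n => Subtype.ext (by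
        change (1 : G) * n * (1 : G)⁻¹ = n
        simp)
      mul_smul := fun x y n => Subtype.ext (by
        change ((x : G) * y) * n * ((x : G) * y)⁻¹ = x * (y * n * (y : G)⁻¹) * (x : G)⁻¹
        group)
      smul_mul := fun x n m => Subtype.ext (by
        change (x : G) * (n * m) * (x : G)⁻¹ = (x * n * (x : G)⁻¹) * (x * m * (x : G)⁻¹)
        group)
      smul_one := fun x => Subtype.ext (by
        change (x : G) * 1 * (x : G)⁻¹ = 1
        simp) }
  obtain ⟨D0⟩ : Nonempty (Sylow q N) := inferInstance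
  have h1 : ¬ p ∣ Nat.card (Sylow q N) := by
    intro h
    exact hN (h.trans ((D0.card_dvd_index).trans (index_dvd_card _)))
  obtain ⟨D, hD⟩ := hP.nonempty_fixed_point_of_prime_not_dvd_card (Sylow q N) h1
  refine ⟨(D : Subgroup N).map N.subtype, SylIn.of_sylow_sub D, ?_⟩
  rintro x hx _ ⟨d, hd, rfl⟩
  have h2 : (⟨x, hx⟩ : P) • D = D := hD ⟨x, hx⟩
  have h3 : (⟨x, hx⟩ : P) • d ∈ (⟨x, hx⟩ : P) • (D : Subgroup N) :=
    smul_mem_pointwise_smul d _ _ hd
  rw [← Sylow.pointwise_smul_def, h2] at h3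
  exact ⟨_, h3, rfl⟩

/-- elements of p-power order and q-power order -/
private theorem NCo_one {G : Type*} [Group G] {p q : ℕ} (hp : p.Prime) (hq : q.Prime)
    (hpq : p ≠ q) {P D : Subgroup G} (hP : IsPGroup p P) (hD : IsPGroup q D) {x : G}
    (h1 : x ∈ P) (h2 : x ∈ D) : x = 1 := by
  obtain ⟨n, hn⟩ := hP ⟨x, h1⟩
  obtain ⟨m, hm⟩ := hD ⟨x, h2⟩
  have hn' : x ^ p ^ n = 1 := congrArg Subtype.val hn
  have hm' : x ^ q ^ m = 1 := congrArg Subtype.val hm
  have hc : Nat.Coprime (p ^ n) (q ^ m) :=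
    Nat.Coprime.pow _ _ ((Nat.coprime_primes hp hq).2 hpq)
  have h3 : orderOf x ∣ 1 := by
    rw [← hc]
    exact Nat.dvd_gcd (orderOf_dvd_of_pow_eq_one hn') (orderOf_dvd_of_pow_eq_one hm')
  exact orderOf_eq_one_iff.1 (Nat.dvd_one.1 h3)

/-- if a power with exponent prime to `p` commutes with `v`, so does `x` -/
private theorem NCo_pow {G : Type*} [Group G] {p : ℕ} (hp : p.Prime) {P : Subgroup G}
    (hP : IsPGroup p P) {x v : G} (hx : x ∈ P) {j : ℕ} (hj : ¬ p ∣ j)
    (h : Commute (x ^ j) v) : Commute x v := by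
  obtain ⟨n, hn⟩ := hP ⟨x, hx⟩
  have hn' : x ^ p ^ n = 1 := congrArg Subtype.val hn
  have hc : Nat.Coprime j (p ^ n) :=
    (Nat.Coprime.pow_right _ ((Nat.Prime.coprime_iff_not_dvd hp).2 hj).symm)
  have h1 : (x ^ j) ^ ((Nat.gcdA j (p ^ n))) = x := by
    have h2 := Nat.gcd_eq_gcd_ab j (p ^ n)
    rw [hc] at h2
    have h3 : x ^ ((1 : ℕ) : ℤ) = x ^ ((j : ℤ) * Nat.gcdA j (p ^ n) +
      ((p ^ n : ℕ) : ℤ) * Nat.gcdB j (p ^ n)) := by rw [← h2]
    rw [zpow_natCast, pow_one, zpow_add, zpow_mul, zpow_mul, zpow_natCast, zpow_natCast, hn',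
      one_zpow, mul_one] at h3
    exact h3.symm
  rw [← h1]
  exact h.zpow_left _

theorem prf_NCo (hNSO : NSO) (hCen : CenInv) : NCo := by
  intro F _ _ hF2 hHS p hp hp5 P N hP hPne hPN hN
  by_contra hns
  have hN2 : 2 ∣ Nat.card N := (hNSO N (NCo_HS N.subtype N.subtype_injective hHS) hns).1
  have hp2 : p ≠ 2 := by omega
  have hf2 : Fact (Nat.Prime 2) := ⟨Nat.prime_two⟩
  obtain ⟨D, hD, hPD⟩ := NCo_fix p 2 P N hP hPN hN
  have hDne : D ≠ ⊥ := by
    rintro rfl
    exact (not_dvd_card_iff_sylIn_bot.2 hD) hN2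
  -- an involution in the centre of D
  obtain ⟨v, hvD, hv1, hvv, hvc⟩ : ∃ v ∈ D, v ≠ 1 ∧ v * v = 1 ∧ ∀ d ∈ D, d * v = v * d := by
    have hnt : Nontrivial D := (nontrivial_iff_ne_bot D).2 hDne
    have h1 : Nontrivial (center D) := hD.2.1.center_nontrivial
    have h2 : IsPGroup 2 (center D) := hD.2.1.to_subgroup _
    have h3 : 2 ∣ Nat.card (center D) := by
      rcases h2.card_eq_or_dvd with h | h
      · exact absurd h (Nat.ne_of_gt (Finite.one_lt_card_iff_nontrivial.2 h1))
      · exact h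
    obtain ⟨z, hz⟩ := exists_prime_orderOf_dvd_card' 2 h3
    have hz2 : z ^ 2 = 1 := orderOf_dvd_iff_pow_eq_one.1 (dvd_of_eq hz)
    have hz1 : z ≠ 1 := by
      rintro rfl
      rw [orderOf_one] at hz
      omega
    refine ⟨((z : D) : PSL2 F), z.1.2, ?_, ?_, ?_⟩
    · intro h
      apply hz1
      apply Subtype.ext
      apply Subtype.ext
      exact h
    · have h4 := congrArg (fun t : center D => ((t : D) : PSL2 F)) hz2
      rw [pow_two] at h4
      exact h4
    · intro d hd
      have h4 := (mem_center_iff.1 z.2) ⟨d, hd⟩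
      exact congrArg Subtype.val h4
  obtain ⟨K, hvK, hKc, hKi, hKx⟩ := hCen F hF2 v hv1 hvv
  -- P centralises v
  have hPv : ∀ x ∈ P, x * v = v * x := by
    intro x hx
    have hpw : ∀ i : ℕ, x ^ i ∈ P := fun i => P.pow_mem hx i
    -- conjugates of v
    have hcD : ∀ i : ℕ, x ^ i * v * (x ^ i)⁻¹ ∈ D := fun i => hPD _ (hpw i) _ hvD
    have hinv : ∀ i : ℕ, (x ^ i * v * (x ^ i)⁻¹) * (x ^ i * v * (x ^ i)⁻¹) = 1 := by
      intro i
      have : (x ^ i * v * (x ^ i)⁻¹) * (x ^ i * v * (x ^ i)⁻¹) = x ^ i * (v * v) * (x ^ i)⁻¹ := by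
        group
      rw [this, hvv]
      group
    have hne : ∀ i : ℕ, x ^ i * v * (x ^ i)⁻¹ ≠ 1 := by
      intro i h
      apply hv1
      have h2 : v = (x ^ i)⁻¹ * (x ^ i * v * (x ^ i)⁻¹) * x ^ i := by group
      rw [h2, h]
      group
    have hcen : ∀ i : ℕ, ∀ d ∈ D, d * (x ^ i * v * (x ^ i)⁻¹) = (x ^ i * v * (x ^ i)⁻¹) * d := by
      intro i d hd
      have h1 : (x ^ i)⁻¹ * d * x ^ i ∈ D := by
        have := hPD _ (P.inv_mem (hpw i)) d hd
        rwa [inv_inv] at this
      have h2 := hvc _ h1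
      have h3 : d * (x ^ i * v * (x ^ i)⁻¹) =
          x ^ i * (((x ^ i)⁻¹ * d * x ^ i) * v) * (x ^ i)⁻¹ := by group
      rw [h3, h2]
      group
    by_contra hxv
    have hnc : ∀ j : ℕ, ¬ p ∣ j → x ^ j * v * (x ^ j)⁻¹ ≠ v := by
      intro j hj h
      apply hxv
      refine NCo_pow hp.out hP hx hj ?_
      change x ^ j * v = v * x ^ j
      rw [mul_inv_eq_iff_eq_mul] at h
      exact h
    have hnd : ∀ j : ℕ, 1 ≤ j → j ≤ 3 → ¬ p ∣ j := by
      intro j h1 h2 h3
      have := Nat.le_of_dvd h1 h3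
      omega
    have h1 := hnc 1 (hnd 1 (by omega) (by omega))
    have h2 := hnc 2 (hnd 2 (by omega) (by omega))
    have h3 := hnc 3 (hnd 3 (by omega) (by omega))
    have hK : ∀ i : ℕ, x ^ i * v * (x ^ i)⁻¹ ≠ v → x ^ i * v * (x ^ i)⁻¹ ∉ K := by
      intro i hi hk
      rcases hKi _ hk (hinv i) with h | h
      · exact hne i h
      · exact hi h
    have key : ∀ i j : ℕ, x ^ i * v * (x ^ i)⁻¹ ≠ v → x ^ j * v * (x ^ j)⁻¹ ≠ v →
        x ^ i * v * (x ^ i)⁻¹ ≠ x ^ j * v * (x ^ j)⁻¹ →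
        (x ^ i * v * (x ^ i)⁻¹) * (x ^ j * v * (x ^ j)⁻¹) = v := by
      intro i j hi hj hij
      rcases hKx _ (hcen 0 _ (hcD i) |> fun h => by simpa using h) with h | h
      · exact absurd h (hK i hi)
      · obtain ⟨-, -, h⟩ := h
        have h4 := h (x ^ j * v * (x ^ j)⁻¹) (hcen 0 _ (hcD j) |> fun h => by simpa using h)
        rcases h4 with h4 | h4
        · exact absurd h4 (hK j hj)
        · have h5 : ((x ^ i * v * (x ^ i)⁻¹) * (x ^ j * v * (x ^ j)⁻¹)) *
              ((x ^ i * v * (x ^ i)⁻¹) * (x ^ j * v * (x ^ j)⁻¹)) = 1 := by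
            have h6 := hcen i _ (hcD j)
            calc ((x ^ i * v * (x ^ i)⁻¹) * (x ^ j * v * (x ^ j)⁻¹)) *
                ((x ^ i * v * (x ^ i)⁻¹) * (x ^ j * v * (x ^ j)⁻¹))
                = (x ^ i * v * (x ^ i)⁻¹) * ((x ^ j * v * (x ^ j)⁻¹) *
                  (x ^ i * v * (x ^ i)⁻¹)) * (x ^ j * v * (x ^ j)⁻¹) := by group
              _ = (x ^ i * v * (x ^ i)⁻¹) * ((x ^ i * v * (x ^ i)⁻¹) *
                  (x ^ j * v * (x ^ j)⁻¹)) * (x ^ j * v * (x ^ j)⁻¹) := by rw [h6]
              _ = ((x ^ i * v * (x ^ i)⁻¹) * (x ^ i * v * (x ^ i)⁻¹)) *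
                  ((x ^ j * v * (x ^ j)⁻¹) * (x ^ j * v * (x ^ j)⁻¹)) := by group
              _ = 1 := by rw [hinv i, hinv j, one_mul]
          rcases hKi _ h4 h5 with h6 | h6
          · exfalso
            apply hij
            rw [mul_eq_one_iff_eq_inv] at h6
            rw [h6, inv_eq_iff_mul_eq_one, hinv j]
          · exact h6
    -- distinctness of the conjugates
    have hdist : ∀ i j : ℕ, ¬ p ∣ j → x ^ (i + j) * v * (x ^ (i + j))⁻¹ ≠ x ^ i * v * (x ^ i)⁻¹ := by
      intro i j hj h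
      apply hnc j hj
      have h4 : x ^ j * v * (x ^ j)⁻¹ = (x ^ i)⁻¹ * (x ^ (i + j) * v * (x ^ (i + j))⁻¹) * x ^ i := by
        rw [pow_add]
        group
      rw [h4, h]
      group
    have e1 := key 1 2 h1 h2 (hdist 1 1 (hnd 1 (by omega) (by omega))).symm
    have e2 := key 1 3 h1 h3 (hdist 1 2 (hnd 2 (by omega) (by omega))).symm
    have e3 := mul_left_cancel (e1.trans e2.symm)
    exact hdist 2 1 (hnd 1 (by omega) (by omega)) e3.symm
  -- P ≤ K
  have hPK : ∀ x ∈ P, x ∈ K := by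
    intro x hx
    rcases hKx x (hPv x hx) with h | h
    · exact h
    · have h1 : Commute (x ^ 2) x := by rw [pow_two, h.1]; exact Commute.one_left x
      have h2 : x = 1 := by
        obtain ⟨n, hn⟩ := hP ⟨x, hx⟩
        have hn' : x ^ p ^ n = 1 := congrArg Subtype.val hn
        have h3 : orderOf x ∣ p ^ n := orderOf_dvd_of_pow_eq_one hn'
        have h4 : orderOf x ∣ 2 := orderOf_dvd_of_pow_eq_one (by rw [pow_two]; exact h.1)
        have hc : Nat.Coprime (p ^ n) 2 :=
          Nat.Coprime.pow_left _ ((Nat.coprime_primes hp.out Nat.prime_two).2 hp2)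
        have h5 : orderOf x ∣ 1 := by
          rw [← hc]
          exact Nat.dvd_gcd h3 h4
        exact orderOf_eq_one_iff.1 (Nat.dvd_one.1 h5)
      rw [h2]
      exact K.one_mem
  -- D ≤ K
  have hDK : ∀ d ∈ D, d ∈ K := by
    intro d hd
    by_contra hdK
    rcases hKx d (hvc d hd) with h | h
    · exact hdK h
    · obtain ⟨-, h2, -⟩ := h
      apply hPne
      rw [eq_bot_iff]
      intro y hy
      rw [mem_bot]
      have h3 := h2 y (hPK y hy)
      have h4 : y⁻¹ * y⁻¹ ∈ D := by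
        have h5 : y⁻¹ * y⁻¹ = d * (y * d⁻¹ * y⁻¹) := by
          rw [← mul_assoc, ← mul_assoc, h3]
        rw [h5]
        exact D.mul_mem hd (hPD y hy _ (D.inv_mem hd))
      have h6 : y⁻¹ * y⁻¹ = 1 :=
        NCo_one hp.out Nat.prime_two hp2 hP hD.2.1 (P.mul_mem (P.inv_mem hy) (P.inv_mem hy)) h4
      have h7 : Commute (y ^ 2) y := Commute.pow_self y 2
      have h8 : y * y = 1 := by
        have := congrArg (fun t => t⁻¹) h6
        simpa using this
      obtain ⟨n, hn⟩ := hP ⟨y, hy⟩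
      have hn' : y ^ p ^ n = 1 := congrArg Subtype.val hn
      have h9 : orderOf y ∣ p ^ n := orderOf_dvd_of_pow_eq_one hn'
      have h10 : orderOf y ∣ 2 := orderOf_dvd_of_pow_eq_one (by rw [pow_two]; exact h8)
      have hc : Nat.Coprime (p ^ n) 2 :=
        Nat.Coprime.pow_left _ ((Nat.coprime_primes hp.out Nat.prime_two).2 hp2)
      have h11 : orderOf y ∣ 1 := by
        rw [← hc]
        exact Nat.dvd_gcd h9 h10
      exact orderOf_eq_one_iff.1 (Nat.dvd_one.1 h11)
  -- normalisers centralise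
  have hNC : ∀ n ∈ N, (∀ d ∈ D, n * d * n⁻¹ ∈ D) → ∀ d ∈ D, n * d = d * n := by
    intro n hn hnD
    have hnK : n ∈ K := by
      have h1 : n * v * n⁻¹ = v := by
        have h2 := hKi _ (hDK _ (hnD v hvD)) (by
          have : n * v * n⁻¹ * (n * v * n⁻¹) = n * (v * v) * n⁻¹ := by group
          rw [this, hvv]
          group)
        rcases h2 with h2 | h2
        · exfalso
          apply hv1
          have h3 : v = n⁻¹ * (n * v * n⁻¹) * n := by group
          rw [h3, h2]
          group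
        · exact h2
      rw [mul_inv_eq_iff_eq_mul] at h1
      rcases hKx n h1 with h2 | h2
      · exact h2
      · obtain ⟨h3, -, -⟩ := h2
        -- D ⊔ zpowers n is a 2-group
        have h4 : IsPGroup 2 (zpowers n) := by
          rw [IsPGroup.iff_orderOf]
          rintro ⟨y, hy⟩
          obtain ⟨i, rfl⟩ := mem_zpowers_iff.1 hy
          have h5 : orderOf (⟨n ^ i, hy⟩ : zpowers n) ∣ 2 ^ 1 := by
            rw [orderOf_dvd_iff_pow_eq_one]
            apply Subtype.ext
            change (n ^ i) ^ (2 ^ 1) = 1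
            have h6 : (n ^ i) ^ (2 ^ 1) = (n * n) ^ i := by
              rw [pow_one, ← pow_two n, ← zpow_natCast, ← zpow_natCast, ← zpow_mul, ← zpow_mul,
                mul_comm]
            rw [h6, h3, one_zpow]
          obtain ⟨j, -, hj⟩ := (Nat.dvd_prime_pow Nat.prime_two).1 h5
          exact ⟨j, hj⟩
        have hninv : n⁻¹ = n := by
          rw [inv_eq_iff_mul_eq_one]
          exact h3
        have h5 : zpowers n ≤ normalizer (D : Set (PSL2 F)) := by
          rw [zpowers_le]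
          rw [mem_normalizer_iff]
          intro d
          constructor
          · intro hd
            exact hnD d hd
          · intro hd
            have h6 := hnD _ hd
            have h7 : n * (n * d * n⁻¹) * n⁻¹ = (n * n) * d * (n * n)⁻¹ := by group
            rw [h7, h3] at h6
            simpa using h6
        have h6 : IsPGroup 2 (D ⊔ zpowers n : Subgroup (PSL2 F)) :=
          hD.2.1.to_sup_of_normal_left' h4 h5
        have h7 := hD.eq_of_le (le_sup_left : D ≤ D ⊔ zpowers n)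
          (sup_le hD.1 (zpowers_le.2 hn)) h6
        have h8 : n ∈ D := by
          rw [h7]
          exact mem_sup_right (mem_zpowers n)
        exact hDK n h8
    intro d hd
    exact hKc n hnK d (hDK d hd)
  -- Burnside
  obtain ⟨Q, hQ⟩ := hD.exists_sylow_sub
  have hQn : normalizer (Q : Set N) ≤ centralizer (Q : Set N) := by
    intro n hn
    rw [mem_centralizer_iff]
    intro d hd
    have hd' : (d : PSL2 F) ∈ D := by
      have : d ∈ (Q : Subgroup N) := hd
      rw [hQ] at this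
      exact this
    have h1 := hNC n n.2 ?_ d hd'
    · exact Subtype.ext h1.symm
    · intro e he
      have heN : e ∈ N := hD.1 he
      have h2 : (⟨e, heN⟩ : N) ∈ (Q : Subgroup N) := by
        rw [hQ]
        exact he
      have h3 := (mem_normalizer_iff.1 hn ⟨e, heN⟩).1 h2
      have h4 : n * (⟨e, heN⟩ : N) * n⁻¹ ∈ (Q : Subgroup N) := h3
      rw [hQ] at h4
      exact h4
  have hker := MonoidHom.not_dvd_card_ker_transferSylow Q hQn
  set T := MonoidHom.transferSylow Q hQn with hT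
  have h1 : Group.IsSolvable T.ker := by
    by_contra hc
    have hHSk : HS T.ker :=
      NCo_HS (N.subtype.comp T.ker.subtype)
        (N.subtype_injective.comp T.ker.subtype_injective) hHS
    exact hker (hNSO T.ker hHSk hc).1
  have h2 : Group.IsSolvable Q := by
    refine Group.isSolvable_of_comm ?_
    rintro ⟨a, ha⟩ ⟨b, hb⟩
    apply Subtype.ext
    apply Subtype.ext
    have ha' : (a : PSL2 F) ∈ D := by
      have : a ∈ (Q : Subgroup N) := ha
      rw [hQ] at this
      exact this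
    have hb' : (b : PSL2 F) ∈ D := by
      have : b ∈ (Q : Subgroup N) := hb
      rw [hQ] at this
      exact this
    exact hKc _ (hDK _ ha') _ (hDK _ hb')
  apply hns
  exact Group.isSolvable_of_ker_le_range T.ker.subtype T (by rw [range_subtype])

end MP_8aaf67.PT
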