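import Pool.Agent.Work.MP_8aaf67_al.PT.Stmts

/-!
# NSO: nonsoluble groups have order divisible by 6
-/

set_option autoImplicit false

open Subgroup MP_8aaf67.PS

namespace MP_8aaf67.PT

theorem prf_NSO (hSec : SecNS) (hOrd : Ord23) : NSO := by
  intro N _ _ hHS hns
  obtain ⟨X, _, _, hsec, hsim, hab⟩ := hSec N hns
  obtain ⟨F, _, _, -, ⟨e⟩⟩ := hHS X hsec hsim hab
  obtain ⟨H, f, hf⟩ := hsec
  have h1 : Nat.card X ∣ Nat.card N :=
    (card_dvd_of_surjective f hf).trans H.card_subgroup_dvd_card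
  have h2 : Nat.card (PSL2 F) = Nat.card X := (Nat.card_congr e.toEquiv).symm
  have h3 := hOrd F
  rw [h2] at h3
  exact ⟨h3.1.trans h1, h3.2.trans h1⟩

end MP_8aaf67.PT
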