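import Pool.Agent.Work.MP_8aaf67_al.PT.Stmts
import Pool.Agent.Work.MP_8aaf67_al.PS.STR

/-!
# NorT: normalisers of p-subgroups, `p` prime to the order of the field
-/

set_option autoImplicit false

open Subgroup MP_8aaf67.PS

namespace MP_8aaf67.PT

theorem NorT_pr {F : Type} [Field F] {A B : SL2 F} (h : pr A = pr B) :
    ∃ r : F, (A : Matrix (Fin 2) (Fin 2) F) = r • (B : Matrix (Fin 2) (Fin 2) F) := by
  have h1 : A⁻¹ * B ∈ center (SL2 F) := QuotientGroup.eq.mp h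
  have h2 : B⁻¹ * A ∈ center (SL2 F) := by
    have := inv_mem h1
    rwa [mul_inv_rev, inv_inv] at this
  rw [Matrix.SpecialLinearGroup.mem_center_iff] at h2
  obtain ⟨r, -, hr⟩ := h2
  refine ⟨r, ?_⟩
  have h3 : A = B * (B⁻¹ * A) := by group
  have h4 := congrArg (fun x : SL2 F => (x : Matrix (Fin 2) (Fin 2) F)) h3
  rw [Matrix.SpecialLinearGroup.coe_mul B (B⁻¹ * A), ← hr, Matrix.scalar_apply,
    ← Matrix.smul_one_eq_diagonal, Matrix.mul_smul, Matrix.mul_one] at h4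
  exact h4

theorem NorT_con {F : Type} [Field F] {N X : SL2 F} {c d : F}
    (h : ((N * X * N⁻¹ : SL2 F) : Matrix (Fin 2) (Fin 2) F) =
      c • (1 : Matrix (Fin 2) (Fin 2) F) + d • (X : Matrix (Fin 2) (Fin 2) F))
    (hX : tr X ^ 2 ≠ 4) : N * X * N⁻¹ = X ∨ N * X * N⁻¹ = X⁻¹ := by
  have h1 : 2 * c + d * tr X = tr X := by
    rw [← STR_tr_lin, ← h]
    exact STR_trc N X
  have h2 : c ^ 2 + c * d * tr X + d ^ 2 = 1 := by
    rw [← STR_det_lin, ← h]
    exact (N * X * N⁻¹).det_coe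
  rcases STR_a1 hX h1 h2 with ⟨rfl, rfl⟩ | ⟨rfl, rfl⟩
  · left
    apply Subtype.ext
    rw [zero_smul, one_smul, zero_add] at h
    exact h
  · right
    apply Subtype.ext
    rw [neg_one_smul, ← sub_eq_add_neg, ← STR_inv] at h
    exact h

theorem NorT_lin {F : Type} [Field F] {N X Y e e' : SL2 F} {a b : F}
    (hN : N * X * N⁻¹ = Y)
    (he : (e : Matrix (Fin 2) (Fin 2) F) = a • (1 : Matrix (Fin 2) (Fin 2) F) +
      b • (X : Matrix (Fin 2) (Fin 2) F))
    (he' : (e' : Matrix (Fin 2) (Fin 2) F) = a • (1 : Matrix (Fin 2) (Fin 2) F) +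
      b • (Y : Matrix (Fin 2) (Fin 2) F)) : N * e * N⁻¹ = e' := by
  have h1 : N * X = Y * N := by rw [← hN]; group
  have h2 : (N : Matrix (Fin 2) (Fin 2) F) * X = Y * N := by
    have := congrArg (fun x : SL2 F => (x : Matrix (Fin 2) (Fin 2) F)) h1
    simpa only [Matrix.SpecialLinearGroup.coe_mul] using this
  have h3 : N * e = e' * N := by
    apply Subtype.ext
    show ((N * e : SL2 F) : Matrix (Fin 2) (Fin 2) F) = ((e' * N : SL2 F) :
      Matrix (Fin 2) (Fin 2) F)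
    rw [Matrix.SpecialLinearGroup.coe_mul, Matrix.SpecialLinearGroup.coe_mul, he, he',
      Matrix.mul_add, Matrix.add_mul, Matrix.mul_smul, Matrix.mul_smul, Matrix.smul_mul,
      Matrix.smul_mul, Matrix.mul_one, Matrix.one_mul, h2]
  rw [h3, mul_assoc, mul_inv_cancel, mul_one]

theorem NorT_mul {F : Type} [Field F] (A B : SL2 F) : pr (A * B) = pr A * pr B :=
  map_mul (QuotientGroup.mk' (center (SL2 F))) A B

theorem NorT_invpr {F : Type} [Field F] (A : SL2 F) : pr A⁻¹ = (pr A)⁻¹ :=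
  map_inv (QuotientGroup.mk' (center (SL2 F))) A

theorem prf_NorT (hTor : TorS) : NorT := by
  intro F _ _ p _ hp hpF P hPp n hn
  by_cases hP : P = ⊥
  · left
    intro x hx
    rw [hP, mem_bot] at hx
    rw [hx, mul_one, mul_inv_cancel]
  obtain ⟨X₀, hX₀, ht0, ht, hXP, hall⟩ := hTor F p hp hpF P hPp hP
  obtain ⟨N, hN⟩ := QuotientGroup.mk'_surjective (center (SL2 F)) n
  have hN' : pr N = n := hN
  obtain ⟨a, b, e, he, hab⟩ := hall _ (hn _ hXP)
  have h1 : pr (N * X₀ * N⁻¹) = pr e := by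
    rw [he, NorT_mul, NorT_mul, NorT_invpr, hN']
  obtain ⟨r, hr⟩ := NorT_pr h1
  have h2 : ((N * X₀ * N⁻¹ : SL2 F) : Matrix (Fin 2) (Fin 2) F) =
      (r * a) • (1 : Matrix (Fin 2) (Fin 2) F) + (r * b) • (X₀ : Matrix (Fin 2) (Fin 2) F) := by
    rw [hr, hab, smul_add, smul_smul, smul_smul]
  rcases NorT_con h2 ht with h3 | h3
  · left
    intro x hx
    obtain ⟨c, d, f, hf, hcd⟩ := hall x hx
    have h4 := NorT_lin h3 hcd hcd
    rw [← hf, ← hN', ← NorT_invpr, ← NorT_mul, ← NorT_mul, h4]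
  · right
    intro x hx
    obtain ⟨c, d, f, hf, hcd⟩ := hall x hx
    have h5 : ((f⁻¹ : SL2 F) : Matrix (Fin 2) (Fin 2) F) = c • (1 : Matrix (Fin 2) (Fin 2) F) +
        d • ((X₀⁻¹ : SL2 F) : Matrix (Fin 2) (Fin 2) F) := by
      have h6 : tr f = 2 * c + d * tr X₀ := by
        rw [← STR_tr_lin, ← hcd]
        rfl
      rw [STR_inv, STR_inv, hcd, h6, smul_sub, smul_smul]
      module
    have h4 := NorT_lin h3 hcd h5
    rw [← hf, ← hN', ← NorT_invpr, ← NorT_mul, ← NorT_mul, h4, NorT_invpr]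

end MP_8aaf67.PT
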