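import Pool.Agent.Work.MP_8aaf67_al.PT.Stmts

/-!
# MP_8aaf67_al, project PT: item Ord23
-/

set_option autoImplicit false

open Subgroup MP_8aaf67.PS

namespace MP_8aaf67.PT

private theorem Ord23_pr_eq_one {F : Type} [Field F] (A : SL2 F) :
    pr A = 1 ↔ A ∈ center (SL2 F) := by
  unfold pr
  rw [QuotientGroup.mk'_apply]
  exact QuotientGroup.eq_one_iff A

private theorem Ord23_not_center {F : Type} [Field F] (A : SL2 F)
    (h : (A : Matrix (Fin 2) (Fin 2) F) 1 0 = 1) : A ∉ center (SL2 F) := by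
  intro hA
  rw [Matrix.SpecialLinearGroup.mem_center_iff] at hA
  obtain ⟨r, -, hr⟩ := hA
  rw [← hr] at h
  simp at h

theorem prf_Ord23 : Ord23 := by
  intro F _ _
  have hdetA : Matrix.det (!![0, -1; 1, 0] : Matrix (Fin 2) (Fin 2) F) = 1 := by
    simp [Matrix.det_fin_two]
  have hdetX : Matrix.det (!![0, -1; 1, -1] : Matrix (Fin 2) (Fin 2) F) = 1 := by
    simp [Matrix.det_fin_two]
  let A : SL2 F := ⟨!![0, -1; 1, 0], hdetA⟩
  let X : SL2 F := ⟨!![0, -1; 1, -1], hdetX⟩
  have hA : A ∉ center (SL2 F) := Ord23_not_center A (by simp [A])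
  have hX : X ∉ center (SL2 F) := Ord23_not_center X (by simp [X])
  have hA2 : A ^ 2 ∈ center (SL2 F) := by
    rw [Matrix.SpecialLinearGroup.mem_center_iff]
    refine ⟨-1, by simp, ?_⟩
    have hc : ((A ^ 2 : SL2 F) : Matrix (Fin 2) (Fin 2) F) =
        !![0, -1; 1, 0] * !![0, -1; 1, 0] := by
      rw [pow_two, Matrix.SpecialLinearGroup.coe_mul]
    rw [hc]
    ext i j
    fin_cases i <;> fin_cases j <;> simp [Matrix.mul_apply, Fin.sum_univ_two]
  have hX3 : X ^ 3 = 1 := by
    have hc : ((X ^ 3 : SL2 F) : Matrix (Fin 2) (Fin 2) F) =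
        !![0, -1; 1, -1] * !![0, -1; 1, -1] * !![0, -1; 1, -1] := by
      rw [pow_succ, pow_two, Matrix.SpecialLinearGroup.coe_mul,
        Matrix.SpecialLinearGroup.coe_mul]
    apply Subtype.ext
    rw [hc, Matrix.SpecialLinearGroup.coe_one]
    ext i j
    fin_cases i <;> fin_cases j <;> simp [Matrix.mul_apply, Fin.sum_univ_two]
  have e2 : orderOf (pr A) = 2 := by
    refine orderOf_eq_prime ?_ ?_
    · have : pr A ^ 2 = pr (A ^ 2) := (map_pow (QuotientGroup.mk' (center (SL2 F))) A 2).symm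
      rw [this, Ord23_pr_eq_one]
      exact hA2
    · intro h
      exact hA ((Ord23_pr_eq_one A).1 h)
  have e3 : orderOf (pr X) = 3 := by
    refine orderOf_eq_prime ?_ ?_
    · have : pr X ^ 3 = pr (X ^ 3) := (map_pow (QuotientGroup.mk' (center (SL2 F))) X 3).symm
      rw [this, hX3, Ord23_pr_eq_one]
      exact one_mem _
    · intro h
      exact hX ((Ord23_pr_eq_one X).1 h)
  constructor
  · rw [← e2]
    exact orderOf_dvd_natCard _
  · rw [← e3]
    exact orderOf_dvd_natCard _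

end MP_8aaf67.PT
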