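import Pool.Agent.Work.MP_8aaf67_al.PT.Stmts

/-!
# Nonsoluble groups have nonabelian simple sections
-/

set_option autoImplicit false

open Subgroup MP_8aaf67.PS

namespace MP_8aaf67.PT

private theorem SecNS_trans {X Y G : Type} [Group X] [Group Y] [Group G]
    (h1 : IsSectionOf X Y) (h2 : IsSectionOf Y G) : IsSectionOf X G := by
  obtain ⟨H, f, hf⟩ := h1
  obtain ⟨K, g, hg⟩ := h2.sub H
  exact ⟨K, f.comp g, hf.comp hg⟩

private theorem SecNS_ind (n : ℕ) : ∀ (N : Type) [Group N] [Finite N], Nat.card N = n →
    ¬ Group.IsSolvable N → ∃ (X : Type) (_ : Group X) (_ : Finite X), IsSectionOf X N ∧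
      IsSimpleGroup X ∧ ∃ a b : X, a * b ≠ b * a := by
  induction n using Nat.strong_induction_on with
  | _ n ih =>
    intro N _ _ hn hN
    have hnt : Nontrivial N := by
      by_contra h
      rw [not_nontrivial_iff_subsingleton] at h
      exact hN inferInstance
    by_cases hs : ∀ M : Subgroup N, M.Normal → M = ⊥ ∨ M = ⊤
    · refine ⟨N, inferInstance, inferInstance, IsSectionOf.self N, ⟨hs⟩, ?_⟩
      by_contra h
      push Not at h
      exact hN (Group.isSolvable_of_comm h)
    · push Not at hs
      obtain ⟨M, hM, hb, ht⟩ := hs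
      have h1 : ¬ Group.IsSolvable M ∨ ¬ Group.IsSolvable (N ⧸ M) := by
        by_contra h
        push Not at h
        exact hN ((Group.isSolvable_iff_subgroup_quotient M).mpr h)
      have hlt : Nat.card M < n := by
        rw [← hn]
        exact lt_of_le_of_ne (Subgroup.card_le_card_group M) fun h =>
          ht (Subgroup.eq_top_of_card_eq M h)
      have h1M : 1 < Nat.card M := by
        rw [Subgroup.one_lt_card_iff_ne_bot]
        exact hb
      have hq : Nat.card (N ⧸ M) < n := by
        have h2 := Subgroup.card_eq_card_quotient_mul_card_subgroup M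
        have h3 : 0 < Nat.card (N ⧸ M) := Nat.card_pos
        rw [← hn, h2]
        exact lt_mul_of_one_lt_right h3 h1M
      rcases h1 with h | h
      · obtain ⟨X, i1, i2, hX, h2, h3⟩ := ih _ hlt M rfl h
        exact ⟨X, i1, i2, SecNS_trans hX ((IsSectionOf.self N).sub M), h2, h3⟩
      · obtain ⟨X, i1, i2, hX, h2, h3⟩ := ih _ hq (N ⧸ M) rfl h
        exact ⟨X, i1, i2, SecNS_trans hX ((IsSectionOf.self N).quot M), h2, h3⟩

/-- simple sections -/
theorem prf_SecNS : SecNS := by
  intro N _ _ hN
  exact SecNS_ind _ N rfl hN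

end MP_8aaf67.PT
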