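import Pool.Agent.Work.MP_8aaf67_al.PT.Stmts

/-! `p`-subgroups of `PSL(2,F)` lie in tori. -/

set_option autoImplicit false

open Subgroup MP_8aaf67.PS

namespace MP_8aaf67.PT

private theorem TorS_CH {F : Type} [Field F] (A : SL2 F) :
    (A : Matrix (Fin 2) (Fin 2) F) ^ 2 = tr A • (A : Matrix (Fin 2) (Fin 2) F) - 1 := by
  have hd : (A : Matrix (Fin 2) (Fin 2) F).det = 1 := A.2
  rw [Matrix.det_fin_two] at hd
  unfold tr
  rw [Matrix.trace_fin_two, pow_two]
  ext i j
  fin_cases i <;> fin_cases j <;>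
    simp [Matrix.mul_apply, Fin.sum_univ_two] <;>
      first | linear_combination (-1 : F) * hd | ring

private theorem TorS_comm {F : Type} [Field F] (X D : Matrix (Fin 2) (Fin 2) F)
    (hX : ¬ (X 0 1 = 0 ∧ X 1 0 = 0 ∧ X 0 0 = X 1 1)) (h : D * X = X * D) :
    ∃ a b : F, D = a • (1 : Matrix (Fin 2) (Fin 2) F) + b • X := by
  have h00 := congrFun (congrFun h 0) 0
  have h01 := congrFun (congrFun h 0) 1
  have h10 := congrFun (congrFun h 1) 0
  simp only [Matrix.mul_apply, Fin.sum_univ_two] at h00 h01 h10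
  by_cases hy : X 0 1 = 0
  · by_cases hz : X 1 0 = 0
    · have hw : X 0 0 - X 1 1 ≠ 0 := fun h' => hX ⟨hy, hz, sub_eq_zero.mp h'⟩
      rw [hy] at h01
      rw [hz] at h10
      have hq : D 0 1 = 0 := by
        have : D 0 1 * (X 0 0 - X 1 1) = 0 := by linear_combination -h01
        exact (mul_eq_zero.mp this).resolve_right hw
      have hr : D 1 0 = 0 := by
        have : D 1 0 * (X 0 0 - X 1 1) = 0 := by linear_combination h10
        exact (mul_eq_zero.mp this).resolve_right hw
      refine ⟨D 0 0 - (D 0 0 - D 1 1) / (X 0 0 - X 1 1) * X 0 0,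
        (D 0 0 - D 1 1) / (X 0 0 - X 1 1), ?_⟩
      ext i j
      fin_cases i <;> fin_cases j
      · simp
      · simp [hy, hq]
      · simp [hz, hr]
      · simp
        field_simp
        ring
    · refine ⟨D 0 0 - D 1 0 / X 1 0 * X 0 0, D 1 0 / X 1 0, ?_⟩
      ext i j
      fin_cases i <;> fin_cases j
      · simp
      · simp
        field_simp
        linear_combination h00
      · simp
        field_simp
      · simp
        field_simp
        linear_combination h10
  · refine ⟨D 0 0 - D 0 1 / X 0 1 * X 0 0, D 0 1 / X 0 1, ?_⟩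
    ext i j
    fin_cases i <;> fin_cases j
    · simp
    · simp
      field_simp
    · simp
      field_simp
      linear_combination -h00
    · simp
      field_simp
      linear_combination -h01

private theorem TorS_scalar {F : Type} [Field F] (A : SL2 F) (s : F)
    (h : (A : Matrix (Fin 2) (Fin 2) F) = s • 1) : A ∈ center (SL2 F) := by
  rw [Matrix.SpecialLinearGroup.mem_center_iff]
  refine ⟨s, ?_, ?_⟩
  · have hd : (A : Matrix (Fin 2) (Fin 2) F).det = 1 := A.2
    rw [h, Matrix.det_smul, Matrix.det_one, mul_one] at hd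
    exact hd
  · rw [h, Matrix.scalar_apply, Matrix.smul_one_eq_diagonal]

private theorem TorS_pr_one {F : Type} [Field F] (A : SL2 F) :
    pr A = 1 ↔ A ∈ center (SL2 F) := by
  unfold pr
  exact QuotientGroup.eq_one_iff A

private theorem TorS_nonscalar {F : Type} [Field F] (A : SL2 F) (h : A ∉ center (SL2 F)) :
    ¬ ((A : Matrix (Fin 2) (Fin 2) F) 0 1 = 0 ∧ (A : Matrix (Fin 2) (Fin 2) F) 1 0 = 0 ∧
      (A : Matrix (Fin 2) (Fin 2) F) 0 0 = (A : Matrix (Fin 2) (Fin 2) F) 1 1) := by
  rintro ⟨h1, h2, h3⟩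
  refine h (TorS_scalar A ((A : Matrix (Fin 2) (Fin 2) F) 1 1) ?_)
  ext i j
  fin_cases i <;> fin_cases j <;> simp [h1, h2, h3]

theorem prf_TorS : TorS := by
  intro F _ _ p _ hp2 hpF P hP hPbot
  have : Finite (SL2 F) := inferInstance
  have : Finite (PSL2 F) := inferInstance
  have hnt : Nontrivial P := (Subgroup.nontrivial_iff_ne_bot P).mpr hPbot
  have hcn : Nontrivial (center P) := hP.center_nontrivial
  obtain ⟨⟨z, hz⟩, hz1⟩ := exists_ne (1 : center P)
  have hz1' : (z : PSL2 F) ≠ 1 := by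
    intro h
    apply hz1
    ext
    exact h
  obtain ⟨X, hX⟩ : ∃ X : SL2 F, pr X = z := QuotientGroup.mk'_surjective _ _
  have hXc : X ∉ center (SL2 F) := fun h => hz1' (hX ▸ (TorS_pr_one X).mpr h)
  have hpp : p.Prime := Fact.out
  -- the order of z
  obtain ⟨k, hk⟩ := hP z
  have hk' : (z : PSL2 F) ^ p ^ k = 1 := by
    have := congrArg (Subtype.val) hk
    simpa using this
  have hcop : ∀ l : ℕ, l.Prime → l ≠ p → pr X ^ l ≠ 1 := by
    intro l hl hlp h
    apply hz1'
    have h1 : orderOf (z : PSL2 F) ∣ l := orderOf_dvd_of_pow_eq_one (by rw [← hX]; exact h)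
    have h2 : orderOf (z : PSL2 F) ∣ p ^ k := orderOf_dvd_of_pow_eq_one hk'
    have h3 : Nat.Coprime l (p ^ k) := Nat.Coprime.pow_right _ ((Nat.coprime_primes hl hpp).mpr hlp)
    have h4 : orderOf (z : PSL2 F) = 1 := Nat.eq_one_of_dvd_coprimes h3 h1 h2
    exact orderOf_eq_one_iff.mp h4
  have hprpow : ∀ l : ℕ, X ^ l ∈ center (SL2 F) → pr X ^ l = 1 := by
    intro l hl
    have : pr X ^ l = pr (X ^ l) := by
      unfold pr
      rw [map_pow]
    rw [this]
    exact (TorS_pr_one _).mpr hl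
  have htr : tr X ≠ 0 := by
    intro h
    refine hcop 2 Nat.prime_two (fun h => hp2 h.symm) (hprpow 2 (TorS_scalar _ (-1) ?_))
    have := TorS_CH X
    rw [h, zero_smul, zero_sub] at this
    rw [Matrix.SpecialLinearGroup.coe_pow, this, neg_smul, one_smul]
  have htr4 : tr X ^ 2 ≠ 4 := by
    intro h
    obtain ⟨l, hl⟩ := CharP.exists F
    have hlp : l.Prime := (CharP.char_is_prime_or_zero F l).resolve_right (CharP.char_ne_zero_of_finite F l)
    have : Fact l.Prime := ⟨hlp⟩
    obtain ⟨s, hs1, hs2⟩ : ∃ s : F, 2 * s = tr X ∧ s ^ 2 = 1 := by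
      by_cases h2 : (2 : F) = 0
      · refine ⟨1, ?_, one_pow 2⟩
        have : tr X ^ 2 = 0 := by rw [h]; linear_combination (2 : F) * h2
        rw [pow_eq_zero_iff (by norm_num)] at this
        rw [this, h2, zero_mul]
      · refine ⟨tr X / 2, by field_simp, ?_⟩
        rw [div_pow, h]
        have h4 : (4 : F) ≠ 0 := by
          have : (4 : F) = 2 * 2 := by norm_num
          rw [this]
          exact mul_ne_zero h2 h2
        have : (2 : F) ^ 2 = 4 := by norm_num
        rw [this, div_self h4]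
    have hN : ((X : Matrix (Fin 2) (Fin 2) F) - s • 1) ^ 2 = 0 := by
      have hch := TorS_CH X
      rw [← hs1] at hch
      have e : ((X : Matrix (Fin 2) (Fin 2) F) - s • 1) ^ 2 =
          (X : Matrix (Fin 2) (Fin 2) F) ^ 2 - (2 * s) • (X : Matrix (Fin 2) (Fin 2) F) +
            (s ^ 2) • (1 : Matrix (Fin 2) (Fin 2) F) := by
        rw [pow_two, sub_mul, mul_sub, mul_sub, ← pow_two]
        simp only [Matrix.smul_mul, Matrix.mul_smul, Matrix.one_mul, Matrix.mul_one, smul_smul]
        rw [two_mul, add_smul, pow_two s]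
        abel
      rw [e, hch, hs2, one_smul]
      abel
    have hpow : (X : Matrix (Fin 2) (Fin 2) F) ^ l = s ^ l • (1 : Matrix (Fin 2) (Fin 2) F) := by
      have e1 : (X : Matrix (Fin 2) (Fin 2) F) =
          s • 1 + ((X : Matrix (Fin 2) (Fin 2) F) - s • 1) := by abel
      have hc : Commute (s • (1 : Matrix (Fin 2) (Fin 2) F))
          ((X : Matrix (Fin 2) (Fin 2) F) - s • 1) := by
        unfold Commute SemiconjBy
        simp
      have hN' : ((X : Matrix (Fin 2) (Fin 2) F) - s • 1) ^ l = 0 :=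
        pow_eq_zero_of_le hlp.two_le hN
      have : CharP (Matrix (Fin 2) (Fin 2) F) l := inferInstance
      calc (X : Matrix (Fin 2) (Fin 2) F) ^ l
          = (s • 1 + ((X : Matrix (Fin 2) (Fin 2) F) - s • 1)) ^ l := by rw [← e1]
        _ = (s • (1 : Matrix (Fin 2) (Fin 2) F)) ^ l +
            ((X : Matrix (Fin 2) (Fin 2) F) - s • 1) ^ l := add_pow_char_of_commute _ hc
        _ = s ^ l • (1 : Matrix (Fin 2) (Fin 2) F) := by
            rw [hN', add_zero, smul_pow, one_pow]
    by_cases hlpp : l = p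
    · apply hpF
      rw [← hlpp]
      have := Fintype.ofFinite F
      rw [Nat.card_eq_fintype_card]
      exact (CharP.cast_eq_zero_iff F l (Fintype.card F)).mp (by
        exact Nat.cast_card_eq_zero F)
    · refine hcop l hlp hlpp (hprpow l (TorS_scalar _ (s ^ l) ?_))
      rw [Matrix.SpecialLinearGroup.coe_pow, hpow]
  refine ⟨X, hXc, htr, htr4, hX ▸ z.2, ?_⟩
  intro x hx
  obtain ⟨D, hD⟩ : ∃ D : SL2 F, pr D = x := QuotientGroup.mk'_surjective _ _
  have hcomm : x * (z : PSL2 F) = z * x := by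
    have := Subgroup.mem_center_iff.mp hz ⟨x, hx⟩
    exact congrArg Subtype.val this
  have hcc : D * X * D⁻¹ * X⁻¹ ∈ center (SL2 F) := by
    rw [← TorS_pr_one]
    have : pr (D * X * D⁻¹ * X⁻¹) = pr D * pr X * (pr D)⁻¹ * (pr X)⁻¹ := by
      unfold pr
      simp only [map_mul, map_inv]
    rw [this, hD, hX, hcomm]
    group
  rw [Matrix.SpecialLinearGroup.mem_center_iff] at hcc
  obtain ⟨r, -, hr⟩ := hcc
  have hDX : (D * X : SL2 F) = (D * X * D⁻¹ * X⁻¹) * (X * D) := by group
  have hDX' : (D : Matrix (Fin 2) (Fin 2) F) * (X : Matrix (Fin 2) (Fin 2) F) =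
      r • ((X : Matrix (Fin 2) (Fin 2) F) * (D : Matrix (Fin 2) (Fin 2) F)) := by
    have := congrArg (fun A : SL2 F => (A : Matrix (Fin 2) (Fin 2) F)) hDX
    simp only [Matrix.SpecialLinearGroup.coe_mul] at this
    rw [this]
    simp only [Matrix.SpecialLinearGroup.coe_mul] at hr
    rw [← hr]
    simp [Matrix.scalar_apply, ← Matrix.smul_eq_diagonal_mul]
  have hr1 : r = 1 := by
    have e1 : (D : Matrix (Fin 2) (Fin 2) F) * (X : Matrix (Fin 2) (Fin 2) F) *
        ((D⁻¹ : SL2 F) : Matrix (Fin 2) (Fin 2) F) = r • (X : Matrix (Fin 2) (Fin 2) F) := by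
      rw [hDX', Matrix.smul_mul, Matrix.mul_assoc, ← Matrix.SpecialLinearGroup.coe_mul,
        mul_inv_cancel, Matrix.SpecialLinearGroup.coe_one, Matrix.mul_one]
    have e2 : ((D : Matrix (Fin 2) (Fin 2) F) * (X : Matrix (Fin 2) (Fin 2) F) *
        ((D⁻¹ : SL2 F) : Matrix (Fin 2) (Fin 2) F)).trace = tr X := by
      rw [Matrix.trace_mul_comm, ← Matrix.mul_assoc, ← Matrix.SpecialLinearGroup.coe_mul,
        inv_mul_cancel, Matrix.SpecialLinearGroup.coe_one, Matrix.one_mul]
      rfl
    rw [e1, Matrix.trace_smul] at e2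
    have e3 : r * tr X = tr X := e2
    have : (r - 1) * tr X = 0 := by linear_combination e3
    exact sub_eq_zero.mp ((mul_eq_zero.mp this).resolve_right htr)
  rw [hr1, one_smul] at hDX'
  obtain ⟨a, b, hab⟩ := TorS_comm (X : Matrix (Fin 2) (Fin 2) F) D (TorS_nonscalar X hXc) hDX'
  exact ⟨a, b, D, hD, hab⟩

end MP_8aaf67.PT
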