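import Pool.Agent.Work.MP_8aaf67_al.PT.Stmts

/-! Item TrT: traces of p-elements. -/

set_option autoImplicit false

open Subgroup MP_8aaf67.PS

namespace MP_8aaf67.PT

private theorem TrT_CH {F : Type} [Field F] (A : SL2 F) :
    (A : Matrix (Fin 2) (Fin 2) F) * A = tr A • (A : Matrix (Fin 2) (Fin 2) F) - 1 := by
  have hd : (A : Matrix (Fin 2) (Fin 2) F).det = 1 := A.2
  rw [Matrix.det_fin_two] at hd
  unfold tr
  rw [Matrix.trace_fin_two]
  ext i j
  fin_cases i <;> fin_cases j <;>
    simp [Matrix.mul_apply, Fin.sum_univ_two] <;>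
      first | linear_combination (-1 : F) * hd | ring

private theorem TrT_one {F : Type} [Field F] (A : SL2 F) : pr A = 1 ↔ A ∈ center (SL2 F) :=
  QuotientGroup.eq_one_iff A

private theorem TrT_pow {F : Type} [Field F] (A : SL2 F) (n : ℕ) : pr (A ^ n) = pr A ^ n :=
  map_pow _ _ _

private theorem TrT_scal {F : Type} [Field F] (A : SL2 F) (r : F)
    (h : (A : Matrix (Fin 2) (Fin 2) F) = r • (1 : Matrix (Fin 2) (Fin 2) F)) :
    A ∈ center (SL2 F) := by
  rw [Matrix.SpecialLinearGroup.mem_center_iff]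
  refine ⟨r, ?_, ?_⟩
  · have hd : (A : Matrix (Fin 2) (Fin 2) F).det = 1 := A.2
    rw [h, Matrix.det_smul, Matrix.det_one, mul_one] at hd
    exact hd
  · rw [h, Matrix.scalar_apply, Matrix.smul_one_eq_diagonal]

private theorem TrT_trc {F : Type} [Field F] (A : SL2 F) (h : A ∈ center (SL2 F)) :
    tr A ^ 2 = 4 := by
  rw [Matrix.SpecialLinearGroup.mem_center_iff] at h
  obtain ⟨r, hr, hr'⟩ := h
  rw [Fintype.card_fin] at hr
  unfold tr
  rw [← hr', Matrix.trace_fin_two]
  simp
  linear_combination 4 * hr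

theorem prf_TrT (hCnj : Cnj) : TrT := by
  intro F _ _ p hpp hp2 hpF C e hord
  have hp : p.Prime := hpp.out
  have hodd : Odd (orderOf (pr C)) := by
    rw [hord]
    exact (hp.odd_of_ne_two hp2).pow
  have hgt : 1 < orderOf (pr C) := by
    rw [hord]
    exact Nat.one_lt_pow (by omega) hp.one_lt
  have hCc : C ∉ center (SL2 F) := by
    intro h
    rw [← TrT_one, ← orderOf_eq_one_iff] at h
    omega
  have h2pow : ∀ k : ℕ, pr C ^ (2 ^ k) ≠ 1 := by
    intro k h
    have h1 := orderOf_dvd_of_pow_eq_one h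
    have h2 : Nat.Coprime (orderOf (pr C)) (2 ^ k) :=
      Nat.Coprime.pow_right k (Nat.coprime_two_right.mpr hodd)
    have h3 := Nat.Coprime.eq_one_of_dvd h2 h1
    omega
  have hCH := TrT_CH C
  have ht0 : tr C ≠ 0 := by
    intro h
    apply h2pow 1
    rw [← TrT_pow, TrT_one]
    apply TrT_scal _ (-1)
    rw [pow_one, Matrix.SpecialLinearGroup.coe_pow, pow_two, hCH, h]
    simp
  have ht2 : tr C ^ 2 ≠ 2 := by
    intro h
    apply h2pow 2
    rw [← TrT_pow, TrT_one]
    apply TrT_scal _ (-1)
    rw [Matrix.SpecialLinearGroup.coe_pow, show (2 : ℕ) ^ 2 = 2 * 2 by norm_num, pow_mul,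
      pow_two (C : Matrix (Fin 2) (Fin 2) F), hCH, pow_two]
    have e1 : (tr C • (C : Matrix (Fin 2) (Fin 2) F) - 1) *
        (tr C • (C : Matrix (Fin 2) (Fin 2) F) - 1) =
        (tr C ^ 2) • ((C : Matrix (Fin 2) (Fin 2) F) * C) -
          (2 * tr C) • (C : Matrix (Fin 2) (Fin 2) F) + 1 := by
      simp only [sub_mul, mul_sub, smul_mul_assoc, mul_smul_comm, smul_smul, one_mul, mul_one]
      module
    rw [e1, hCH, h]
    module
  have ht4 : tr C ^ 2 ≠ 4 := by
    intro h
    have h2 : (2 : F) ≠ 0 := by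
      intro h2
      apply ht0
      have : tr C ^ 2 = 0 := by rw [h]; linear_combination 2 * h2
      exact pow_eq_zero_iff (by norm_num) |>.mp this
    obtain ⟨l, hl⟩ := CharP.exists F
    have := hl
    have hlp : l.Prime := CharP.char_is_prime F l
    have : Fact l.Prime := ⟨hlp⟩
    set ε : F := tr C / 2 with hε
    set N : Matrix (Fin 2) (Fin 2) F := (C : Matrix (Fin 2) (Fin 2) F) - ε • 1 with hN
    have hN2 : N * N = 0 := by
      have e1 : N * N = (C : Matrix (Fin 2) (Fin 2) F) * C -
          (2 * ε) • (C : Matrix (Fin 2) (Fin 2) F) + (ε * ε) • 1 := by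
        rw [hN]
        simp only [sub_mul, mul_sub, smul_mul_assoc, mul_smul_comm, smul_smul, one_mul, mul_one]
        module
      have e2 : 2 * ε = tr C := by rw [hε]; field_simp
      have e3 : ε * ε = 1 := by
        rw [hε]
        field_simp
        linear_combination h
      rw [e1, hCH, e2, e3]
      module
    have hCN : (C : Matrix (Fin 2) (Fin 2) F) = ε • 1 + N := by
      rw [hN]
      abel
    have hcom : Commute (ε • (1 : Matrix (Fin 2) (Fin 2) F)) N := by
      unfold Commute SemiconjBy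
      simp
    have hpow : pr C ^ l = 1 := by
      rw [← TrT_pow, TrT_one]
      apply TrT_scal _ (ε ^ l)
      rw [Matrix.SpecialLinearGroup.coe_pow, hCN]
      have : CharP (Matrix (Fin 2) (Fin 2) F) l := Matrix.charP l
      rw [add_pow_char_of_commute _ hcom]
      have hl2 : l = 2 + (l - 2) := by have := hlp.two_le; omega
      have hN3 : N ^ l = 0 := by
        rw [hl2, pow_add, pow_two, hN2, zero_mul]
      rw [hN3, add_zero, smul_pow, one_pow]
    have h1 := orderOf_dvd_of_pow_eq_one hpow
    rw [hord] at h1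
    have h3 : p ∣ l := dvd_trans (dvd_pow_self p (by omega)) h1
    have h4 : p = l := (Nat.prime_dvd_prime_iff_eq hp hlp).mp h3
    apply hpF
    rw [h4]
    have := Fintype.ofFinite F
    rw [Nat.card_eq_fintype_card]
    obtain ⟨n, _, hn⟩ := FiniteField.card F l
    rw [hn]
    exact dvd_pow_self l n.ne_zero
  refine ⟨ht0, ht2, ht4, ?_, ?_⟩
  · intro h
    have hpow : pr C ^ 3 = 1 := by
      rw [← TrT_pow, TrT_one]
      apply TrT_scal _ (-tr C)
      rw [Matrix.SpecialLinearGroup.coe_pow, pow_succ, pow_two, hCH, sub_mul, smul_mul_assoc, hCH,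
        one_mul, smul_sub, smul_smul, ← pow_two, h]
      module
    have h1 := orderOf_dvd_of_pow_eq_one hpow
    rcases (Nat.dvd_prime Nat.prime_three).mp h1 with h2 | h2
    · omega
    · exact h2
  · intro D hD
    have hDc : D ∉ center (SL2 F) := by
      intro h
      apply ht4
      rw [← hD]
      exact TrT_trc D h
    obtain ⟨φ, -, hφ⟩ := hCnj F C D hCc hDc hD.symm
    rw [orderOf_eq_orderOf_iff]
    intro n
    rw [← TrT_pow, ← TrT_pow, TrT_one, TrT_one, ← hφ, ← map_pow, Subgroup.mem_center_iff,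
      Subgroup.mem_center_iff]
    constructor
    · intro h g
      have := h (φ g)
      rw [← map_mul, ← map_mul] at this
      exact φ.injective this
    · intro h g
      have := h (φ.symm g)
      have h5 := congrArg φ this
      rw [map_mul, map_mul, MulEquiv.apply_symm_apply] at h5
      exact h5

end MP_8aaf67.PT
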