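import Pool.Agent.Work.MP_8aaf67_al.PT.Stmts
import Pool.Agent.Work.MP_8aaf67_al.PS.LNC

/-!
# Block PT: the variation of a commutator
-/

set_option autoImplicit false

open Subgroup MP_8aaf67.PS

namespace MP_8aaf67.PT

private theorem VarS_all {T : Type} [Group T] {a b : T} (K : Subgroup T)
    (h1 : (cm a b)⁻¹ * b ∈ K) (h2 : a * cm a b ∈ K) : closure {a, b} ≤ K := by
  have e2 : a = b * (a * cm a b) * b⁻¹ := by
    unfold cm
    group
  have e1 : b * a = b * ((a * cm a b) * ((cm a b)⁻¹ * b)) * b⁻¹ := by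
    unfold cm
    group
  have hK : closure {a, b} ≤ K.map (MulAut.conj b).toMonoidHom := by
    rw [closure_le]
    have ha : a ∈ K.map (MulAut.conj b).toMonoidHom := ⟨a * cm a b, h2, by
      change b * (a * cm a b) * b⁻¹ = a
      exact e2.symm⟩
    have hba : b * a ∈ K.map (MulAut.conj b).toMonoidHom :=
      ⟨(a * cm a b) * ((cm a b)⁻¹ * b), K.mul_mem h2 h1, by
        change b * ((a * cm a b) * ((cm a b)⁻¹ * b)) * b⁻¹ = b * a
        exact e1.symm⟩
    rintro x (rfl | rfl)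
    · exact ha
    · have := mul_mem hba (inv_mem ha)
      rwa [mul_inv_cancel_right] at this
  intro x hx0
  have hb : b ∈ closure ({a, b} : Set T) := subset_closure (by simp)
  obtain ⟨y, hy, hxy⟩ := hK (mul_mem (mul_mem hb hx0) (inv_mem hb))
  have hxy' : b * y * b⁻¹ = b * x * b⁻¹ := hxy
  have : y = x := by
    have h3 := mul_right_cancel hxy'
    exact mul_left_cancel h3
  rw [← this]
  exact hy

private def VarS_S {T : Type} [Group T] (V U : Subgroup T) [hVn : V.Normal] : Subgroup T where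
  carrier := {l | ∀ u ∈ V, LNC_d l u ∈ U}
  mul_mem' := by
    intro l m hl hm u hu
    have hu' : l⁻¹ * u * l ∈ V := by
      have := hVn.conj_mem u hu l⁻¹
      rwa [inv_inv] at this
    have e : LNC_d (l * m) u = LNC_d l u * LNC_d m (l⁻¹ * u * l) := by
      unfold LNC_d
      group
    rw [e]
    exact U.mul_mem (hl u hu) (hm _ hu')
  one_mem' := by
    intro u _
    have e : LNC_d (1 : T) u = 1 := by
      unfold LNC_d
      group
    rw [e]
    exact U.one_mem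
  inv_mem' := by
    intro l hl u hu
    have hu' : l * u * l⁻¹ ∈ V := hVn.conj_mem u hu l
    have e : LNC_d (l⁻¹) u = (LNC_d l (l * u * l⁻¹))⁻¹ := by
      unfold LNC_d
      group
    rw [e]
    exact U.inv_mem (hl _ hu')

theorem prf_VarS : VarS := by
  intro T _ V hVn hc a b w hw
  set h1 : T := (cm a b)⁻¹ * b with hh1
  set h2 : T := a * cm a b with hh2
  set U : Subgroup T := LNC_U V hc h1 h2 with hU
  have hcl : closure ({a, b} : Set T) ≤ VarS_S V U := by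
    apply VarS_all
    · exact fun x hx => LNC_U_left hc h1 h2 hx
    · exact fun x hx => LNC_U_right hc h1 h2 hx
  have hu : w ∈ U := by
    have hle : closure {x : T | ∃ l ∈ closure ({a, b} : Set T), ∃ u ∈ V,
        x = l * u * l⁻¹ * u⁻¹} ≤ U := by
      rw [closure_le]
      rintro _ ⟨l, hl, u, hu, rfl⟩
      have hu' : l * u * l⁻¹ ∈ V := hVn.conj_mem u hu l
      have e : l * u * l⁻¹ * u⁻¹ = LNC_d (l⁻¹) u := by
        rw [hc _ hu' _ (V.inv_mem hu)]
        unfold LNC_d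
        group
      rw [e]
      exact hcl (inv_mem hl) u hu
    exact hle hw
  obtain ⟨w1, hw1, w2, hw2, rfl⟩ := hu
  have hv1 : cm a b * w1 * (cm a b)⁻¹ ∈ V := hVn.conj_mem w1 hw1 _
  refine ⟨cm a b * w1 * (cm a b)⁻¹, hv1, w2⁻¹, V.inv_mem hw2, ?_⟩
  have hP2 : h2⁻¹ * w2 * h2 ∈ V := by
    have := hVn.conj_mem w2 hw2 h2⁻¹
    rwa [inv_inv] at this
  have hP3 : h1⁻¹ * w1 * h1 ∈ V := by
    have := hVn.conj_mem w1 hw1 h1⁻¹
    rwa [inv_inv] at this
  have e0 : cm (a * (cm a b * w1 * (cm a b)⁻¹)) (b * w2⁻¹) =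
      cm a b * (w1⁻¹ * (h2⁻¹ * w2 * h2) * (h1⁻¹ * w1 * h1) * w2⁻¹) := by
    rw [hh1, hh2]
    unfold cm
    group
  rw [e0]
  congr 1
  unfold LNC_d
  have e1 := hc _ hP2 _ hP3
  have e2 := hc _ hP2 _ (V.inv_mem hw2)
  calc w1⁻¹ * (h2⁻¹ * w2 * h2) * (h1⁻¹ * w1 * h1) * w2⁻¹
      = w1⁻¹ * ((h2⁻¹ * w2 * h2) * (h1⁻¹ * w1 * h1)) * w2⁻¹ := by group
    _ = w1⁻¹ * ((h1⁻¹ * w1 * h1) * (h2⁻¹ * w2 * h2)) * w2⁻¹ := by rw [e1]
    _ = w1⁻¹ * (h1⁻¹ * w1 * h1) * ((h2⁻¹ * w2 * h2) * w2⁻¹) := by group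
    _ = w1⁻¹ * (h1⁻¹ * w1 * h1) * (w2⁻¹ * (h2⁻¹ * w2 * h2)) := by rw [e2]

end MP_8aaf67.PT
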