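import Pool.Agent.Work.MP_8aaf67_al.PT.Stmts

/-!
# MP_8aaf67_al, project PT: item VerbD
-/

set_option autoImplicit false

open Subgroup MP_8aaf67.PS

namespace MP_8aaf67.PT

theorem prf_VerbD : VerbD := by
  intro G _ k
  induction k with
  | zero =>
    intro g _
    exact subset_closure (Set.mem_univ g)
  | succ k ih =>
    have hN : (verb (dtree (k + 1)) G).Normal := verb_normal _
    have key : ∀ s ∈ closure (vals (dtree k) G), ∀ t ∈ closure (vals (dtree k) G),
        cm s t ∈ verb (dtree (k + 1)) G := by
      refine cm_mem_of_closure ?_ ?_ ?_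
      · intro s _
        rw [normalizer_eq_top]
        exact mem_top s
      · intro s _
        rw [normalizer_eq_top]
        exact mem_top s
      · intro s hs t ht
        exact subset_closure ⟨s, hs, t, ht, rfl⟩
    rw [derivedSeries_succ, Subgroup.commutator_le]
    intro a ha b hb
    have h1 := key a⁻¹ (inv_mem (ih ha)) b⁻¹ (inv_mem (ih hb))
    have h2 : cm a⁻¹ b⁻¹ = a * b * a⁻¹ * b⁻¹ := by
      rw [cm, inv_inv, inv_inv]
    rw [h2] at h1
    rw [commutatorElement_def]
    exact h1

end MP_8aaf67.PT
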