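import Pool.Agent.Work.MP_8aaf67_al.PT.Stmts

/-!
# MP_8aaf67_al, project PT: ActV
-/

set_option autoImplicit false

open Subgroup MP_8aaf67.PS

namespace MP_8aaf67.PT

/-- in a finite group an element that maps `B` into itself normalises `B` -/
private theorem ActV_inv {T : Type} [Group T] [Finite T] {B : Subgroup T} {s : T}
    (h : ∀ q ∈ B, s * q * s⁻¹ ∈ B) : ∀ q ∈ B, s⁻¹ * q * s ∈ B := by
  have h1 : ∀ m : ℕ, ∀ q ∈ B, s ^ m * q * (s ^ m)⁻¹ ∈ B := by
    intro m
    induction m with
    | zero =>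
      intro q hq
      simpa using hq
    | succ m ih =>
      intro q hq
      have h2 := ih _ (h q hq)
      have h3 : s ^ (m + 1) * q * (s ^ (m + 1))⁻¹ = s ^ m * (s * q * s⁻¹) * (s ^ m)⁻¹ := by
        rw [pow_succ]
        group
      rw [h3]
      exact h2
  intro q hq
  have hpos : 0 < orderOf s := orderOf_pos s
  have h4 : s ^ (orderOf s - 1) = s⁻¹ := by
    apply eq_inv_of_mul_eq_one_left
    rw [← pow_succ, Nat.sub_add_cancel hpos, pow_orderOf_eq_one]
  have h5 := h1 (orderOf s - 1) q hq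
  rw [h4, inv_inv] at h5
  exact h5

theorem prf_ActV : ActV := by
  intro p hp T X _ _ _ π _ hk B hB g hcm hs k
  have hinj : ∀ x ∈ B, π x = 1 → x = 1 := by
    intro x hx h1
    obtain ⟨n, hn⟩ := hB.2.1 ⟨x, hx⟩
    have h2 : x ^ p ^ n = 1 := congrArg Subtype.val hn
    have h3 : x ^ Nat.card π.ker = 1 := by
      have := pow_card_eq_one' (x := (⟨x, h1⟩ : π.ker))
      exact congrArg Subtype.val this
    have h4 : Nat.Coprime (p ^ n) (Nat.card π.ker) :=
      Nat.Coprime.pow_left n ((hp.out.coprime_iff_not_dvd).2 hk)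
    have h5 : orderOf x ∣ Nat.gcd (p ^ n) (Nat.card π.ker) :=
      Nat.dvd_gcd (orderOf_dvd_of_pow_eq_one h2) (orderOf_dvd_of_pow_eq_one h3)
    rw [h4] at h5
    exact orderOf_eq_one_iff.1 (Nat.dvd_one.1 h5)
  have key : ∀ k, ∀ x ∈ B, x ∈ vals (dtree k) T := by
    intro k
    induction k with
    | zero =>
      intro x _
      exact Set.mem_univ x
    | succ k ih =>
      intro x hx
      obtain ⟨s, hsv, hsg, hsn⟩ := hs k
      obtain ⟨y0, ⟨y, hy, rfl⟩, hy2⟩ := hcm (π x) ⟨x, hx, rfl⟩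
      have h1 : cm y s ∈ B := by
        have h2 := mul_mem (inv_mem hy) (ActV_inv hsn y hy)
        have h3 : cm y s = y⁻¹ * (s⁻¹ * y * s) := by
          simp only [cm]
          group
        rw [h3]
        exact h2
      have h2 : π (cm y s) = π x := by
        rw [map_cm, hsg]
        exact hy2
      have h3 : cm y s = x := by
        have h4 := hinj (cm y s * x⁻¹) (mul_mem h1 (inv_mem hx))
          (by rw [map_mul, map_inv, h2, mul_inv_cancel])
        exact mul_inv_eq_one.1 h4
      exact ⟨y, ih y hy, s, hsv, h3⟩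
  refine A_of_one ⟨B, hB, ?_⟩
  intro x hx
  exact subset_closure ⟨hx.1, key k x hx.1⟩

end MP_8aaf67.PT
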