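import Pool.Agent.Work.MP_8aaf67_al.PT.Stmts

/-!
# Modules of the Borel subgroup, characteristic 2
-/

set_option autoImplicit false

open Subgroup MP_8aaf67.PS

namespace MP_8aaf67.PT

/-- the abstract argument -/
private theorem ModB_abs {G V F : Type} [Group G] [CommGroup V] [Finite V] [Field F] [Fintype F]
    (B P : Subgroup G) [Finite P] (w : G) (u : F → G) (ρ : G →* MulAut V) (p : ℕ)
    [Fact p.Prime] (hP : IsPGroup p P) (hV : ¬ p ∣ Nat.card V)
    (hu : ∀ x y, u (x + y) = u x * u y) (huB : ∀ x, u x ∈ B)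
    (hBr : ∀ y, y ∉ B → ∃ x, ∃ b ∈ B, y = u x * w * b) (hww : w * w = 1)
    (hwu : ∀ x, x ≠ 0 → ∃ b ∈ B, w * u x * w = u x⁻¹ * w * b)
    (h1 : G) (hh1 : ∀ h ∈ P, h1⁻¹ * h ∉ B)
    (hirr : ∀ W : Subgroup V, (∀ g, ∀ w ∈ W, ρ g w ∈ W) → W = ⊥ ∨ W = ⊤)
    (hnt : ∃ g v, ρ g v ≠ v) :
    ∀ v : V, ∃ w ∈ closure {w : V | ∃ l ∈ B, ∃ u : V, w = ρ l u * u⁻¹}, ∃ z : V,
      (∀ q ∈ P, ρ q z = z) ∧ v = w * z := by
  classical
  have := Fintype.ofFinite P
  let Fx : Subgroup V := {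
    carrier := {z | ∀ q ∈ P, ρ q z = z}
    mul_mem' := by
      intro a b ha hb q hq
      rw [map_mul, ha q hq, hb q hq]
    one_mem' := by
      intro q hq
      rw [map_one]
    inv_mem' := by
      intro a ha q hq
      rw [map_inv, ha q hq] }
  set C : Subgroup V := closure {w : V | ∃ l ∈ B, ∃ u : V, w = ρ l u * u⁻¹} with hC
  set Y : Subgroup V := C ⊔ Fx with hY
  -- the homomorphism
  let φ : V →* V ⧸ Y := QuotientGroup.mk' Y
  have hker : ∀ v, φ v = 1 ↔ v ∈ Y := fun v => QuotientGroup.eq_one_iff v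
  have hM : ¬ p ∣ Nat.card (V ⧸ Y) := fun h => hV (h.trans (Subgroup.card_quotient_dvd_card Y))
  let Φ : G → V → V ⧸ Y := fun h v => φ (ρ h⁻¹ v)
  have Φdef : ∀ h v, Φ h v = φ (ρ h⁻¹ v) := fun _ _ => rfl
  have Φmul : ∀ h k v, Φ (h * k) v = Φ k (ρ h⁻¹ v) := by
    intro h k v
    rw [Φdef, Φdef, mul_inv_rev, map_mul, MulAut.mul_apply]
  -- (a)
  have ha0 : ∀ b ∈ B, ∀ v, Φ b v = φ v := by
    intro b hb v
    rw [Φdef, ← div_eq_one, ← map_div, hker, div_eq_mul_inv]
    apply mem_sup_left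
    exact subset_closure ⟨b⁻¹, inv_mem hb, v, rfl⟩
  have ha : ∀ h, ∀ b ∈ B, ∀ v, Φ (h * b) v = Φ h v := by
    intro h b hb v
    rw [Φmul, ha0 b hb]
  -- (b)
  have hb : ∀ v, ∏ h : P, Φ (h : G) v = 1 := by
    intro v
    have e1 : ∏ h : P, Φ (h : G) v = φ (∏ h : P, ρ (h : G)⁻¹ v) := by
      rw [map_prod]
    rw [e1, hker]
    apply mem_sup_right
    intro q hq
    rw [map_prod]
    refine Fintype.prod_equiv (Equiv.mulRight (⟨q, hq⟩⁻¹ : P)) _ _ ?_
    intro h
    show ρ q (ρ (h : G)⁻¹ v) = ρ (((h * ⟨q, hq⟩⁻¹ : P) : G))⁻¹ v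
    rw [← MulAut.mul_apply, ← map_mul]
    congr 2
    rw [Subgroup.coe_mul, Subgroup.coe_inv, mul_inv_rev, inv_inv]
  have hb2 : ∀ (k : G) (v : V), ∏ h : P, Φ (k * (h : G)) v = 1 := by
    intro k v
    rw [← hb (ρ k⁻¹ v)]
    refine Finset.prod_congr rfl ?_
    intro h _
    rw [Φmul]
  -- (d)
  have hd1 : ∀ (h : G), h ∈ P → ∀ v, ∏ x : F, Φ (h1 * u x * h1⁻¹ * h) v =
      ∏ x : F, Φ (h1 * u x * w) v := by
    intro h hh v
    obtain ⟨x1, b, hb', e⟩ := hBr _ (hh1 h hh)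
    refine Fintype.prod_equiv (Equiv.addRight x1) _ _ ?_
    intro x
    rw [Equiv.coe_addRight, hu]
    have e2 : h1 * u x * h1⁻¹ * h = (h1 * (u x * u x1) * w) * b := by
      rw [mul_assoc (h1 * u x), e]
      group
    rw [e2, ha _ b hb']
  have hd2 : ∀ v, ∏ x : F, Φ (h1 * u x * w) v = 1 := by
    intro v
    have e1 : ∏ h : P, ∏ x : F, Φ (h1 * u x * h1⁻¹ * (h : G)) v = 1 := by
      rw [Finset.prod_comm]
      refine Finset.prod_eq_one ?_
      intro x _
      exact hb2 _ v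
    have e2 : ∏ h : P, ∏ x : F, Φ (h1 * u x * h1⁻¹ * (h : G)) v =
        (∏ x : F, Φ (h1 * u x * w) v) ^ Nat.card P := by
      rw [Nat.card_eq_fintype_card, ← Finset.card_univ, ← Finset.prod_const]
      refine Finset.prod_congr rfl ?_
      intro h _
      exact hd1 h h.2 v
    rw [e2] at e1
    obtain ⟨n, hn⟩ := hP.exists_card_eq
    rw [hn] at e1
    have hco : Nat.Coprime (Nat.card (V ⧸ Y)) (p ^ n) := by
      apply Nat.Coprime.pow_right
      exact ((Nat.Prime.coprime_iff_not_dvd Fact.out).2 hM).symm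
    have h3 := orderOf_dvd_of_pow_eq_one e1
    have h4 := orderOf_dvd_natCard (∏ x : F, Φ (h1 * u x * w) v)
    exact orderOf_eq_one_iff.1 (Nat.eq_one_of_dvd_coprimes hco h4 h3)
  have hd3 : ∀ v, ∏ x : F, Φ (u x * w) v = 1 := by
    intro v
    rw [← hd2 (ρ h1 v)]
    refine Finset.prod_congr rfl ?_
    intro x _
    rw [mul_assoc, Φmul h1]
    congr 1
    rw [← MulAut.mul_apply, ← map_mul, inv_mul_cancel, map_one, MulAut.one_apply]
  -- (e)
  have u0 : u 0 = 1 := by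
    have := hu 0 0
    rw [add_zero] at this
    exact (mul_eq_left.1 this.symm)
  have he : ∀ v, Φ w v = φ v := by
    intro v
    have e1 : ∏ x : F, Φ (w * u x * w) v = 1 := by
      rw [← hd3 (ρ w⁻¹ v)]
      refine Finset.prod_congr rfl ?_
      intro x _
      rw [mul_assoc, Φmul w]
    have e2 : ∏ x : F, Φ (u x⁻¹ * w) v = 1 := by
      rw [← hd3 v]
      exact Fintype.prod_equiv (Equiv.inv F) _ _ (fun x => rfl)
    rw [← Finset.mul_prod_erase _ _ (Finset.mem_univ (0 : F))] at e1 e2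
    have e3 : ∏ x ∈ Finset.univ.erase (0 : F), Φ (w * u x * w) v =
        ∏ x ∈ Finset.univ.erase (0 : F), Φ (u x⁻¹ * w) v := by
      refine Finset.prod_congr rfl ?_
      intro x hx
      obtain ⟨b, hb', e⟩ := hwu x (Finset.ne_of_mem_erase hx)
      rw [e, ha _ b hb']
    rw [e3] at e1
    have e4 := mul_right_cancel (e1.trans e2.symm)
    rw [inv_zero, u0, mul_one, hww, one_mul] at e4
    rw [← e4, Φdef, inv_one, map_one, MulAut.one_apply]
  -- (f)
  have hf : ∀ h v, Φ h v = φ v := by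
    intro h v
    by_cases hh : h ∈ B
    · exact ha0 h hh v
    · obtain ⟨x, b, hb', e⟩ := hBr h hh
      rw [e, ha _ b hb', Φmul, he, ← Φdef, ha0 _ (huB x)]
  have hf2 : ∀ h v, ρ h v * v⁻¹ ∈ Y := by
    intro h v
    have := hf h⁻¹ v
    rw [Φdef, inv_inv] at this
    rw [← hker, map_mul, map_inv, this, mul_inv_cancel]
  -- the end
  let W : Subgroup V := Subgroup.closure {w : V | ∃ l : G, ∃ u : V, w = ρ l u * u⁻¹}
  have hWinv : ∀ g, ∀ w ∈ W, ρ g w ∈ W := by
    intro g w hw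
    have hle : W ≤ W.comap (ρ g).toMonoidHom := by
      show Subgroup.closure _ ≤ _
      rw [closure_le]
      rintro _ ⟨l, u, rfl⟩
      show ρ g (ρ l u * u⁻¹) ∈ W
      have e : ρ g (ρ l u * u⁻¹) = (ρ (g * l) u * u⁻¹) * (ρ g u * u⁻¹)⁻¹ := by
        rw [map_mul, map_inv, map_mul ρ, MulAut.mul_apply, mul_inv_rev, inv_inv]
        group
      rw [e]
      exact mul_mem (subset_closure ⟨g * l, u, rfl⟩) (inv_mem (subset_closure ⟨g, u, rfl⟩))
    exact hle hw
  have hWY : W ≤ Y := by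
    show Subgroup.closure _ ≤ _
    rw [closure_le]
    rintro _ ⟨l, u, rfl⟩
    exact hf2 l u
  have hYtop : Y = ⊤ := by
    rcases hirr W hWinv with h | h
    · exfalso
      obtain ⟨g, v, hgv⟩ := hnt
      apply hgv
      have : ρ g v * v⁻¹ ∈ W := subset_closure ⟨g, v, rfl⟩
      rw [h, mem_bot] at this
      exact mul_inv_eq_one.1 this
    · rw [eq_top_iff, ← h]
      exact hWY
  intro v
  have hv : v ∈ Y := by rw [hYtop]; trivial
  obtain ⟨a, ha', z, hz, e⟩ := mem_sup.1 hv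
  exact ⟨a, ha', z, hz, e.symm⟩

/-! ## Matrices -/

section

variable {F : Type} [Field F]

private def ModB_U (x : F) : SL2 F := ⟨!![1, x; 0, 1], by simp [Matrix.det_fin_two]⟩

private def ModB_W (h2 : (2 : F) = 0) : SL2 F := ⟨!![0, 1; 1, 0], by
  simp only [Matrix.det_fin_two_of, mul_zero, mul_one, zero_sub]
  linear_combination (-1 : F) * h2⟩

private theorem ModB_Uc (x : F) :
    (ModB_U x : Matrix (Fin 2) (Fin 2) F) = !![1, x; 0, 1] := rfl

private theorem ModB_Wc (h2 : (2 : F) = 0) :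
    (ModB_W h2 : Matrix (Fin 2) (Fin 2) F) = !![0, 1; 1, 0] := rfl

private theorem ModB_Uadd (x y : F) : ModB_U (x + y) = ModB_U x * ModB_U y := by
  apply Subtype.ext
  rw [Matrix.SpecialLinearGroup.coe_mul, ModB_Uc, ModB_Uc, ModB_Uc, Matrix.mul_fin_two]
  ext i j
  fin_cases i <;> fin_cases j <;> simp [add_comm]

private theorem ModB_U0 : ModB_U (0 : F) = 1 := by
  apply Subtype.ext
  rw [ModB_Uc, Matrix.SpecialLinearGroup.coe_one]
  ext i j
  fin_cases i <;> fin_cases j <;> simp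

private theorem ModB_WW (h2 : (2 : F) = 0) : ModB_W h2 * ModB_W h2 = 1 := by
  apply Subtype.ext
  rw [Matrix.SpecialLinearGroup.coe_mul, ModB_Wc, Matrix.mul_fin_two,
    Matrix.SpecialLinearGroup.coe_one]
  ext i j
  fin_cases i <;> fin_cases j <;> simp

private theorem ModB_UW (h2 : (2 : F) = 0) (x : F) :
    ((ModB_U x * ModB_W h2 : SL2 F) : Matrix (Fin 2) (Fin 2) F) 1 0 = 1 := by
  rw [Matrix.SpecialLinearGroup.coe_mul, ModB_Uc, ModB_Wc, Matrix.mul_fin_two]
  simp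

private theorem ModB_WUW (h2 : (2 : F) = 0) (x : F) :
    ((ModB_W h2 * ModB_U x * ModB_W h2 : SL2 F) : Matrix (Fin 2) (Fin 2) F) 1 0 = x ∧
    ((ModB_W h2 * ModB_U x * ModB_W h2 : SL2 F) : Matrix (Fin 2) (Fin 2) F) 0 0 = 1 := by
  rw [Matrix.SpecialLinearGroup.coe_mul, Matrix.SpecialLinearGroup.coe_mul, ModB_Uc, ModB_Wc,
    Matrix.mul_fin_two, Matrix.mul_fin_two]
  constructor <;> simp

private theorem ModB_Bru (h2 : (2 : F) = 0) (A : SL2 F)
    (hA : (A : Matrix (Fin 2) (Fin 2) F) 1 0 ≠ 0) :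
    ∃ B : SL2 F, (B : Matrix (Fin 2) (Fin 2) F) 1 0 = 0 ∧
      A = ModB_U ((A : Matrix (Fin 2) (Fin 2) F) 0 0 / (A : Matrix (Fin 2) (Fin 2) F) 1 0) *
        ModB_W h2 * B := by
  set x := (A : Matrix (Fin 2) (Fin 2) F) 0 0 / (A : Matrix (Fin 2) (Fin 2) F) 1 0 with hx
  refine ⟨ModB_W h2 * (ModB_U (-x) * A), ?_, ?_⟩
  · have e : ((ModB_W h2 * (ModB_U (-x) * A) : SL2 F) : Matrix (Fin 2) (Fin 2) F) 1 0 =
        (A : Matrix (Fin 2) (Fin 2) F) 0 0 + -x * (A : Matrix (Fin 2) (Fin 2) F) 1 0 := by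
      rw [Matrix.SpecialLinearGroup.coe_mul, Matrix.SpecialLinearGroup.coe_mul, ModB_Uc,
        ModB_Wc, Matrix.mul_apply, Fin.sum_univ_two, Matrix.mul_apply, Fin.sum_univ_two]
      simp
    rw [e, hx]
    field_simp
    ring
  · have e1 : ModB_W h2 * (ModB_W h2 * (ModB_U (-x) * A)) = ModB_U (-x) * A := by
      rw [← mul_assoc, ModB_WW, one_mul]
    rw [mul_assoc, e1, ← mul_assoc, ← ModB_Uadd, add_neg_cancel, ModB_U0, one_mul]

/-- the upper triangular matrices -/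
private def ModB_UT (F : Type) [Field F] : Subgroup (SL2 F) where
  carrier := {A | (A : Matrix (Fin 2) (Fin 2) F) 1 0 = 0}
  mul_mem' := by
    intro a b ha hb
    rw [Set.mem_ofPred_eq] at ha hb ⊢
    rw [Matrix.SpecialLinearGroup.coe_mul, Matrix.mul_apply, Fin.sum_univ_two, ha, hb]
    ring
  one_mem' := by simp
  inv_mem' := by
    intro a ha
    rw [Set.mem_ofPred_eq] at ha ⊢
    rw [Matrix.SpecialLinearGroup.SL2_inv_expl]
    simp [ha]

private theorem ModB_mem (A : SL2 F) :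
    pr A ∈ Bor F ↔ (A : Matrix (Fin 2) (Fin 2) F) 1 0 = 0 := by
  constructor
  · intro h
    have hle : Bor F ≤ (ModB_UT F).map (QuotientGroup.mk' (center (SL2 F))) := by
      unfold Bor
      rw [closure_le]
      rintro _ ⟨A, hA, rfl⟩
      exact ⟨A, hA, rfl⟩
    obtain ⟨A', hA', e⟩ := hle h
    have hz : A'⁻¹ * A ∈ center (SL2 F) := QuotientGroup.eq.1 e
    obtain ⟨r, _, hr⟩ := Matrix.SpecialLinearGroup.mem_center_iff.1 hz
    have hz' : A'⁻¹ * A ∈ ModB_UT F := by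
      show ((A'⁻¹ * A : SL2 F) : Matrix (Fin 2) (Fin 2) F) 1 0 = 0
      rw [← hr]
      simp
    have := mul_mem hA' hz'
    rw [mul_inv_cancel_left] at this
    exact this
  · intro h
    exact subset_closure ⟨A, h, rfl⟩

end

theorem prf_ModB : ModB := by
  intro F _ _ h2 p _ hq P hP hPB V _ _ ρ hV hirr hnt
  classical
  have := Fintype.ofFinite F
  have hprmul : ∀ A B : SL2 F, pr (A * B) = pr A * pr B := fun A B => map_mul _ A B
  have hprs : ∀ y : PSL2 F, ∃ A : SL2 F, pr A = y := fun y => QuotientGroup.mk_surjective y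
  have hpr1 : pr (1 : SL2 F) = 1 := map_one _
  let w : PSL2 F := pr (ModB_W h2)
  let u : F → PSL2 F := fun x => pr (ModB_U x)
  have hww : w * w = 1 := by
    show pr _ * pr _ = 1
    rw [← hprmul, ModB_WW, hpr1]
  have hu : ∀ x y, u (x + y) = u x * u y := by
    intro x y
    show pr _ = pr _ * pr _
    rw [ModB_Uadd, hprmul]
  have huB : ∀ x, u x ∈ Bor F := fun x => (ModB_mem _).2 (by simp [ModB_U])
  have hBr : ∀ y, y ∉ Bor F → ∃ x, ∃ b ∈ Bor F, y = u x * w * b := by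
    intro y hy
    obtain ⟨A, rfl⟩ := hprs y
    obtain ⟨B, hB, e⟩ := ModB_Bru h2 A (fun h => hy ((ModB_mem A).2 h))
    refine ⟨(A : Matrix (Fin 2) (Fin 2) F) 0 0 / (A : Matrix (Fin 2) (Fin 2) F) 1 0, pr B,
      (ModB_mem B).2 hB, ?_⟩
    show pr A = pr _ * pr _ * pr B
    rw [← hprmul, ← hprmul]
    exact congrArg pr e
  have hwu : ∀ x, x ≠ 0 → ∃ b ∈ Bor F, w * u x * w = u x⁻¹ * w * b := by
    intro x hx
    have e0 := ModB_WUW h2 x
    obtain ⟨B, hB, e⟩ := ModB_Bru h2 (ModB_W h2 * ModB_U x * ModB_W h2) (by rw [e0.1]; exact hx)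
    rw [e0.1, e0.2, one_div] at e
    refine ⟨pr B, (ModB_mem B).2 hB, ?_⟩
    show pr _ * pr _ * pr _ = pr _ * pr _ * pr B
    rw [← hprmul, ← hprmul, ← hprmul, ← hprmul]
    exact congrArg pr e
  -- the number of cosets
  have hcos : Nat.card (PSL2 F ⧸ Bor F) = Nat.card F + 1 := by
    rw [← Finite.card_option]
    symm
    refine Nat.card_congr (Equiv.ofBijective
      (fun o : Option F => (QuotientGroup.mk (o.elim 1 (fun x => u x * w)) : PSL2 F ⧸ Bor F)) ?_)
    constructor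
    · have k1 : ∀ x, u x * w ∉ Bor F := by
        intro x h
        have h' : pr (ModB_U x * ModB_W h2) ∈ Bor F := by rw [hprmul]; exact h
        rw [ModB_mem, ModB_UW] at h'
        exact one_ne_zero h'
      rintro (_ | x) (_ | y) h
      · rfl
      · exfalso
        have h' := QuotientGroup.eq.1 h
        simp only [Option.elim] at h'
        rw [inv_one, one_mul] at h'
        exact k1 y h'
      · exfalso
        have h' := QuotientGroup.eq.1 h.symm
        simp only [Option.elim] at h'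
        rw [inv_one, one_mul] at h'
        exact k1 x h'
      · have h' := QuotientGroup.eq.1 h
        simp only [Option.elim] at h'
        have e : (u x * w)⁻¹ * (u y * w) = pr (ModB_W h2 * ModB_U (-x + y) * ModB_W h2) := by
          rw [hprmul, hprmul, ModB_Uadd, hprmul]
          have hwi : w⁻¹ = w := inv_eq_of_mul_eq_one_right hww
          have hxi : (u x)⁻¹ = u (-x) := by
            apply inv_eq_of_mul_eq_one_right
            rw [← hu, add_neg_cancel]
            show pr _ = 1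
            rw [ModB_U0, hpr1]
          rw [mul_inv_rev, hwi, hxi]
          show w * u (-x) * (u y * w) = w * (u (-x) * u y) * w
          group
        rw [e, ModB_mem, (ModB_WUW h2 _).1] at h'
        congr 1
        linear_combination -h'
    · intro y
      obtain ⟨y, rfl⟩ := QuotientGroup.mk_surjective y
      by_cases hy : y ∈ Bor F
      · refine ⟨none, ?_⟩
        show (QuotientGroup.mk (1 : PSL2 F) : PSL2 F ⧸ Bor F) = QuotientGroup.mk y
        rw [QuotientGroup.eq, inv_one, one_mul]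
        exact hy
      · obtain ⟨x, b, hb, e⟩ := hBr y hy
        refine ⟨some x, ?_⟩
        show (QuotientGroup.mk (u x * w) : PSL2 F ⧸ Bor F) = QuotientGroup.mk y
        rw [QuotientGroup.eq, e, inv_mul_cancel_left]
        exact hb
  obtain ⟨h1, hh1⟩ : ∃ h1 : PSL2 F, ∀ h ∈ P, h1⁻¹ * h ∉ Bor F := by
    by_contra hcon
    push Not at hcon
    apply hq
    obtain ⟨e, he⟩ := hP.exists_card_eq
    refine ⟨e, ?_⟩
    rw [← he, ← hcos]
    symm
    refine Nat.card_congr (Equiv.ofBijective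
      (fun h : P => (QuotientGroup.mk (h : PSL2 F) : PSL2 F ⧸ Bor F)) ?_)
    constructor
    · intro a b hab
      have h' : (a : PSL2 F)⁻¹ * b ∈ Bor F := QuotientGroup.eq.1 hab
      have h'' : (a : PSL2 F)⁻¹ * b ∈ P ⊓ Bor F :=
        mem_inf.2 ⟨mul_mem (inv_mem a.2) b.2, h'⟩
      rw [hPB, mem_bot] at h''
      exact Subtype.ext (inv_mul_eq_one.1 h'')
    · intro y
      obtain ⟨y, rfl⟩ := QuotientGroup.mk_surjective y
      obtain ⟨h, hh, hhB⟩ := hcon y
      exact ⟨⟨h, hh⟩, (QuotientGroup.eq.2 hhB).symm⟩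
  exact ModB_abs (Bor F) P w u ρ p hP hV hu huB hBr hww hwu h1 hh1 hirr hnt

end MP_8aaf67.PT
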