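import Pool.Agent.Work.MP_8aaf67_al.PT.Stmts

/-!
# MP_8aaf67_al, project PT: item NC
-/

set_option autoImplicit false

open Subgroup MP_8aaf67.PS

namespace MP_8aaf67.PT

/-- sections of subgroups are sections -/
theorem NC_section {X G : Type} [Group X] [Group G] {H : Subgroup G}
    (h1 : IsSectionOf X H) : IsSectionOf X G := by
  obtain ⟨K, f, hf⟩ := h1
  obtain ⟨L, g, hg⟩ := (IsSectionOf.self G).sub H |>.sub K
  exact ⟨L, f.comp g, hf.comp hg⟩

theorem prf_NC (hE : NCe) (hO : NCo) (hNSO : NSO) : NC := by
  intro F _ _ hHS p _ hp P N hP hP1 hPN hpN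
  by_cases h2 : (2 : F) = 0
  · exact hE F h2 hHS p hp P N hP hP1 hPN hpN
  · rcases le_or_gt 5 p with h5 | h5
    · exact hO F h2 hHS p h5 P N hP hP1 hPN hpN
    · have hprime : p.Prime := Fact.out
      have h3 : p = 3 := by
        have := hprime.two_le
        have h4 : p ≠ 4 := by
          rintro rfl
          revert hprime
          norm_num
        omega
      by_contra hs
      have hHN : HS N := by
        intro X _ _ hX hsim hc
        exact hHS X (NC_section hX) hsim hc
      have := (hNSO N hHN hs).2
      rw [h3] at hpN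
      exact hpN this

end MP_8aaf67.PT
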