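import Pool.Agent.Work.MP_8aaf67_al.PS.Stmts

/-!
# MP_8aaf67_al, project PT: Sylow p-subgroups, p odd, sections of type PSL(2,F)

Statements of the items. `cm a b = a⁻¹ * b⁻¹ * a * b`.
-/

set_option autoImplicit false

open Subgroup MP_8aaf67.PS

namespace MP_8aaf67.PT

/-! ## Definitions -/

/-- the condition on the order `q` of the field (`p` odd) -/
def GoodF (p q : ℕ) : Prop :=
  (2 ∣ q → ¬ ∃ e : ℕ, q + 1 = p ^ e) ∧ (¬ 2 ∣ q → (p ∣ q → 7 ≤ q) ∧ (¬ p ∣ q → 9 ≤ q))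

/-- nonabelian simple sections are of type `PSL(2,F)` -/
def HS (G : Type) [Group G] : Prop := ∀ (X : Type) [Group X] [Finite X], IsSectionOf X G →
  IsSimpleGroup X → (∃ a b : X, a * b ≠ b * a) →
  ∃ (F : Type) (_ : Field F) (_ : Finite F), 4 ≤ Nat.card F ∧ Nonempty (X ≃* PSL2 F)

/-- the hypothesis on the sections -/
def HypP (p : ℕ) (G : Type) [Group G] : Prop := ∀ (X : Type) [Group X] [Finite X],
  IsSectionOf X G → IsSimpleGroup X → (∃ a b : X, a * b ≠ b * a) →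
  ∃ (F : Type) (_ : Field F) (_ : Finite F), 4 ≤ Nat.card F ∧ Nonempty (X ≃* PSL2 F) ∧
    (p ∣ Nat.card X → GoodF p (Nat.card F))

/-- every nontrivial simple `X`-module `V` of order prime to `p` is the product of `[V,L]` and
`C_V(Q)` -/
def ModC (p : ℕ) (X : Type) [Group X] (L Q : Subgroup X) : Prop :=
  ∀ (V : Type) [CommGroup V] [Finite V] (ρ : X →* MulAut V), ¬ p ∣ Nat.card V →
    (∀ W : Subgroup V, (∀ g, ∀ w ∈ W, ρ g w ∈ W) → W = ⊥ ∨ W = ⊤) → (∃ g v, ρ g v ≠ v) →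
    ∀ v : V, ∃ w ∈ closure {w : V | ∃ l ∈ L, ∃ u : V, w = ρ l u * u⁻¹}, ∃ z : V,
      (∀ q ∈ Q, ρ q z = z) ∧ v = w * z

/-! ## Lifting -/

/-- the variation of a commutator -/
def VarS : Prop := ∀ (T : Type) [Group T] (V : Subgroup T) [V.Normal],
  (∀ x ∈ V, ∀ y ∈ V, x * y = y * x) → ∀ a b : T,
  ∀ w ∈ closure {x : T | ∃ l ∈ closure ({a, b} : Set T), ∃ u ∈ V, x = l * u * l⁻¹ * u⁻¹},
  ∃ v₁ ∈ V, ∃ v₂ ∈ V, cm (a * v₁) (b * v₂) = cm a b * w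

/-- GTL for a surjective homomorphism -/
def GTLp : Prop := ∀ (p : ℕ) [Fact p.Prime] (T X : Type) [Group T] [Group X] [Finite T]
  (π : T →* X), Function.Surjective π → π.ker ≤ frattini T → ¬ p ∣ Nat.card π.ker →
  ∀ (Q : Subgroup T), IsPGroup p Q → ∀ (k : ℕ) (g : T), (∀ q ∈ Q, g * q * g⁻¹ ∈ Q) →
  π g ∈ GT X k → ∃ c ∈ π.ker, (∀ q ∈ Q, c * q = q * c) ∧ g * c ∈ GT T k

/-- lifting of a pair whose commutator normalises a p-subgroup -/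
def LiftN : Prop := ∀ (p : ℕ) [Fact p.Prime] (T X : Type) [Group T] [Group X] [Finite T]
  (π : T →* X), Function.Surjective π → π.ker ≤ frattini T → ¬ p ∣ Nat.card π.ker →
  ∀ (Q : Subgroup T), IsPGroup p Q → ∀ (k : ℕ) (a b : X), a ∈ GT X k → b ∈ GT X k →
  ModC p X (closure {a, b}) (Q.map π) →
  (∀ q ∈ Q.map π, cm a b * q * (cm a b)⁻¹ ∈ Q.map π) →
  ∃ a' ∈ GT T k, ∃ b' ∈ GT T k, π a' = a ∧ π b' = b ∧
    ∀ q ∈ Q, cm a' b' * q * (cm a' b')⁻¹ ∈ Q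

/-- derived words -/
def VerbD : Prop := ∀ (G : Type) [Group G] (k : ℕ), derivedSeries G k ≤ verb (dtree k) G

/-- lifting of elements normalising a Sylow subgroup -/
def LiftB : Prop := ∀ (p : ℕ) [Fact p.Prime] (T X : Type) [Group T] [Group X] [Finite T]
  (π : T →* X), Function.Surjective π → ¬ p ∣ Nat.card π.ker → ∀ (B : Subgroup T),
  SylIn p B ⊤ → ∀ g : X, (∀ x ∈ B.map π, g * x * g⁻¹ ∈ B.map π) →
  ∃ g' : T, π g' = g ∧ ∀ q ∈ B, g' * q * g'⁻¹ ∈ B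

/-- Sylow subgroups consisting of values -/
def ActV : Prop := ∀ (p : ℕ) [Fact p.Prime] (T X : Type) [Group T] [Group X] [Finite T]
  (π : T →* X), Function.Surjective π → ¬ p ∣ Nat.card π.ker → ∀ (B : Subgroup T),
  SylIn p B ⊤ → ∀ g : X, (∀ x ∈ B.map π, ∃ y ∈ B.map π, cm y g = x) →
  (∀ k, ∃ s ∈ vals (dtree k) T, π s = g ∧ ∀ q ∈ B, s * q * s⁻¹ ∈ B) → ∀ k, A p (dtree k) T

/-- the case of an element of GT -/
def ActG : Prop := ∀ (p : ℕ) [Fact p.Prime] (T X : Type) [Group T] [Group X] [Finite T]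
  (π : T →* X), Function.Surjective π → π.ker ≤ frattini T → ¬ p ∣ Nat.card π.ker →
  ∀ (B : Subgroup T), SylIn p B ⊤ → ∀ g : X, (∀ k, g ∈ GT X k) →
  (∀ x ∈ B.map π, g * x * g⁻¹ ∈ B.map π) → (∀ x ∈ B.map π, ∃ y ∈ B.map π, cm y g = x) →
  ∀ k, A p (dtree k) T

/-- the case of a commutator of a pair that need not generate -/
def ActE : Prop := ∀ (p : ℕ) [Fact p.Prime] (T X : Type) [Group T] [Group X] [Finite T]
  (π : T →* X), Function.Surjective π → π.ker ≤ frattini T → ¬ p ∣ Nat.card π.ker →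
  ∀ (B : Subgroup T), SylIn p B ⊤ → ∀ a b : X, (∀ k, a ∈ GT X k ∧ b ∈ GT X k) →
  ModC p X (closure {a, b}) (B.map π) →
  (∀ x ∈ B.map π, cm a b * x * (cm a b)⁻¹ ∈ B.map π) →
  (∀ x ∈ B.map π, ∃ y ∈ B.map π, cm y (cm a b) = x) → ∀ k, A p (dtree k) T

/-! ## GT in PSL(2,F) -/

/-- `F` odd, subgroups containing an element of trace `x₀` -/
def GTPodd : Prop := ∀ (F : Type) [Field F] [Finite F], (2 : F) ≠ 0 → ∀ x₀ : F, x₀ ≠ 0 →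
  x₀ ^ 2 ≠ 1 → x₀ ^ 2 ≠ 2 → x₀ ^ 2 ≠ 4 →
  (∀ H : Subgroup (PSL2 F), ¬ Group.IsSolvable H → (∃ A : SL2 F, tr A = x₀ ∧ pr A ∈ H) → H = ⊤) →
  ∀ (k : ℕ) (C : SL2 F), C ∉ center (SL2 F) → pr C ∈ GT (PSL2 F) k

/-- `F` even -/
def GTPeven : Prop := ∀ (F : Type) [Field F] [Finite F], (2 : F) = 0 → 4 ≤ Nat.card F →
  ∀ x₀ x₁ : F, x₀ ≠ 0 → x₁ ≠ 0 → x₀ ≠ x₁ →
  (∀ H : Subgroup (PSL2 F), ¬ Group.IsSolvable H →
    (∃ A : SL2 F, (tr A = x₀ ∨ tr A = x₁) ∧ pr A ∈ H) → H = ⊤) →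
  ∀ (k : ℕ) (C : SL2 F), tr C ≠ 0 → pr C ∈ GT (PSL2 F) k

/-- unipotent elements -/
def GTU : Prop := ∀ (F : Type) [Field F] [Finite F], (2 : F) ≠ 0 → (3 : F) ≠ 0 →
  (∀ H : Subgroup (PSL2 F), ¬ Group.IsSolvable H →
    (∃ A : SL2 F, A ∉ center (SL2 F) ∧ tr A ^ 2 = 4 ∧ pr A ∈ H) → H = ⊤) →
  ∀ (k : ℕ) (C : SL2 F) (τ : F), τ ≠ 0 → tr C = 2 + τ ^ 2 → C ∉ center (SL2 F) →
  pr C ∈ GT (PSL2 F) k

/-! ## p-subgroups of PSL(2,F) -/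

/-- p-subgroups lie in tori, `p` prime to the order of the field -/
def TorS : Prop := ∀ (F : Type) [Field F] [Finite F] (p : ℕ) [Fact p.Prime], p ≠ 2 →
  ¬ p ∣ Nat.card F → ∀ P : Subgroup (PSL2 F), IsPGroup p P → P ≠ ⊥ →
  ∃ X₀ : SL2 F, X₀ ∉ center (SL2 F) ∧ tr X₀ ≠ 0 ∧ tr X₀ ^ 2 ≠ 4 ∧ pr X₀ ∈ P ∧
    ∀ x ∈ P, ∃ (a b : F) (e : SL2 F), pr e = x ∧
      (e : Matrix (Fin 2) (Fin 2) F) = a • (1 : Matrix (Fin 2) (Fin 2) F) +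
        b • (X₀ : Matrix (Fin 2) (Fin 2) F)

/-- normalisers of p-subgroups, `p` prime to the order of the field -/
def NorT : Prop := ∀ (F : Type) [Field F] [Finite F] (p : ℕ) [Fact p.Prime], p ≠ 2 →
  ¬ p ∣ Nat.card F → ∀ P : Subgroup (PSL2 F), IsPGroup p P → ∀ n : PSL2 F,
  (∀ x ∈ P, n * x * n⁻¹ ∈ P) → (∀ x ∈ P, n * x * n⁻¹ = x) ∨ (∀ x ∈ P, n * x * n⁻¹ = x⁻¹)

/-- existence of an inverting element -/
def InvT : Prop := ∀ (F : Type) [Field F] [Finite F] (p : ℕ) [Fact p.Prime], p ≠ 2 →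
  ¬ p ∣ Nat.card F → ∀ P : Subgroup (PSL2 F), IsPGroup p P → P ≠ ⊥ →
  ∃ g : SL2 F, g ∉ center (SL2 F) ∧ ∀ x ∈ P, pr g * x * (pr g)⁻¹ = x⁻¹

/-- cyclic -/
def CycT : Prop := ∀ (F : Type) [Field F] [Finite F] (p : ℕ) [Fact p.Prime], p ≠ 2 →
  ¬ p ∣ Nat.card F → ∀ P : Subgroup (PSL2 F), IsPGroup p P → IsCyclic P

/-- traces of p-elements -/
def TrT : Prop := ∀ (F : Type) [Field F] [Finite F] (p : ℕ) [Fact p.Prime], p ≠ 2 →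
  ¬ p ∣ Nat.card F → ∀ (C : SL2 F) (e : ℕ), orderOf (pr C) = p ^ (e + 1) →
  tr C ≠ 0 ∧ tr C ^ 2 ≠ 2 ∧ tr C ^ 2 ≠ 4 ∧ (tr C ^ 2 = 1 → orderOf (pr C) = 3) ∧
    ∀ D : SL2 F, tr D = tr C → orderOf (pr D) = orderOf (pr C)

/-- the image of the upper triangular matrices -/
def Bor (F : Type) [Field F] : Subgroup (PSL2 F) :=
  closure {x | ∃ A : SL2 F, (A : Matrix (Fin 2) (Fin 2) F) 1 0 = 0 ∧ x = pr A}

/-- modules of the Borel subgroup, `F` even -/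
def ModB : Prop := ∀ (F : Type) [Field F] [Finite F], (2 : F) = 0 → ∀ (p : ℕ) [Fact p.Prime],
  (¬ ∃ e : ℕ, Nat.card F + 1 = p ^ e) → ∀ P : Subgroup (PSL2 F), IsPGroup p P →
  P ⊓ Bor F = ⊥ → ModC p (PSL2 F) (Bor F) P

/-- the pair in the Borel subgroup, `F` even -/
def CfgE : Prop := ∀ (F : Type) [Field F] [Finite F], (2 : F) = 0 → 4 ≤ Nat.card F →
  ∀ (p : ℕ) [Fact p.Prime], p ≠ 2 → (¬ ∃ e : ℕ, Nat.card F + 1 = p ^ e) →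
  ∀ P : Subgroup (PSL2 F), IsPGroup p P → P ≠ ⊥ →
  ∃ c d : SL2 F, tr c ≠ 0 ∧ tr d ≠ 0 ∧
    (∀ x ∈ P, cm (pr c) (pr d) * x * (cm (pr c) (pr d))⁻¹ = x⁻¹) ∧
    ModC p (PSL2 F) (closure {pr c, pr d}) P

/-- Sylow subgroups for the characteristic -/
def CfgU : Prop := ∀ (F : Type) [Field F] [Finite F], (2 : F) ≠ 0 → ∀ (p : ℕ) [Fact p.Prime],
  p ∣ Nat.card F → 7 ≤ Nat.card F → ∀ P : Subgroup (PSL2 F), SylIn p P ⊤ →
  ∃ (g : SL2 F) (τ : F), τ ≠ 0 ∧ tr g = 2 + τ ^ 2 ∧ g ∉ center (SL2 F) ∧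
    (∀ x ∈ P, pr g * x * (pr g)⁻¹ ∈ P) ∧ (∀ x ∈ P, ∃ y ∈ P, cm y (pr g) = x)

/-- conjugates of one element generate -/
def ConjU : Prop := ∀ (F : Type) [Field F] [Finite F], (2 : F) ≠ 0 → ∀ (p : ℕ) [Fact p.Prime],
  p ∣ Nat.card F → ∀ P : Subgroup (PSL2 F), SylIn p P ⊤ → ∀ v ∈ P, v ≠ 1 →
  P ≤ closure {x | ∃ g, (∀ y ∈ P, g * y * g⁻¹ ∈ P) ∧ x = g * v * g⁻¹}

/-! ## Nonsoluble subgroups -/

/-- simple sections -/
def SecNS : Prop := ∀ (N : Type) [Group N] [Finite N], ¬ Group.IsSolvable N →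
  ∃ (X : Type) (_ : Group X) (_ : Finite X), IsSectionOf X N ∧ IsSimpleGroup X ∧
    ∃ a b : X, a * b ≠ b * a

/-- orders -/
def Ord23 : Prop := ∀ (F : Type) [Field F] [Finite F],
  2 ∣ Nat.card (PSL2 F) ∧ 3 ∣ Nat.card (PSL2 F)

/-- nonsoluble groups have order divisible by 6 -/
def NSO : Prop := ∀ (N : Type) [Group N] [Finite N], HS N → ¬ Group.IsSolvable N →
  2 ∣ Nat.card N ∧ 3 ∣ Nat.card N

/-- centralisers of involutions, `F` odd -/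
def CenInv : Prop := ∀ (F : Type) [Field F], (2 : F) ≠ 0 → ∀ v : PSL2 F, v ≠ 1 → v * v = 1 →
  ∃ K : Subgroup (PSL2 F), v ∈ K ∧ (∀ a ∈ K, ∀ b ∈ K, a * b = b * a) ∧
    (∀ a ∈ K, a * a = 1 → a = 1 ∨ a = v) ∧
    ∀ x : PSL2 F, x * v = v * x → x ∈ K ∨ (x * x = 1 ∧ (∀ a ∈ K, x * a * x⁻¹ = a⁻¹) ∧
      ∀ y : PSL2 F, y * v = v * y → y ∈ K ∨ x * y ∈ K)

/-- centralisers of involutions, `F` even -/
def CenE : Prop := ∀ (F : Type) [Field F], (2 : F) = 0 → ∀ v : PSL2 F, v ≠ 1 → v * v = 1 →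
  ∀ x y : PSL2 F, x * v = v * x → y * v = v * y → x * x = 1 ∧ x * y = y * x

/-- no nonsoluble p'-subgroup is normalised by a p-subgroup: `F` even -/
def NCe : Prop := ∀ (F : Type) [Field F] [Finite F], (2 : F) = 0 → HS (PSL2 F) →
  ∀ (p : ℕ) [Fact p.Prime], p ≠ 2 → ∀ P N : Subgroup (PSL2 F), IsPGroup p P → P ≠ ⊥ →
  (∀ x ∈ P, ∀ n ∈ N, x * n * x⁻¹ ∈ N) → ¬ p ∣ Nat.card N → Group.IsSolvable N

/-- no nonsoluble p'-subgroup is normalised by a p-subgroup: `F` odd, `p ≥ 5` -/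
def NCo : Prop := ∀ (F : Type) [Field F] [Finite F], (2 : F) ≠ 0 → HS (PSL2 F) →
  ∀ (p : ℕ) [Fact p.Prime], 5 ≤ p → ∀ P N : Subgroup (PSL2 F), IsPGroup p P → P ≠ ⊥ →
  (∀ x ∈ P, ∀ n ∈ N, x * n * x⁻¹ ∈ N) → ¬ p ∣ Nat.card N → Group.IsSolvable N

/-- both cases -/
def NC : Prop := ∀ (F : Type) [Field F] [Finite F], HS (PSL2 F) →
  ∀ (p : ℕ) [Fact p.Prime], p ≠ 2 → ∀ P N : Subgroup (PSL2 F), IsPGroup p P → P ≠ ⊥ →
  (∀ x ∈ P, ∀ n ∈ N, x * n * x⁻¹ ∈ N) → ¬ p ∣ Nat.card N → Group.IsSolvable N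

/-- Sylow subgroups lie in the residual, `p` prime to the order of the field -/
def LemR : Prop := ∀ (F : Type) [Field F] [Finite F], HS (PSL2 F) → ∀ (p : ℕ) [Fact p.Prime],
  p ≠ 2 → ¬ p ∣ Nat.card F → ∀ H P : Subgroup (PSL2 F), ¬ Group.IsSolvable H → SylIn p P ⊤ →
  P ≤ H → ∀ i, P ≤ (derivedSeries H i).map H.subtype

/-- the characteristic divides the order of the residual -/
def LemU : Prop := ∀ (F : Type) [Field F] [Finite F], HS (PSL2 F) → ∀ (p : ℕ) [Fact p.Prime],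
  p ≠ 2 → ∀ H : Subgroup (PSL2 F), ¬ Group.IsSolvable H → p ∣ Nat.card H →
  p ∣ Nat.card F → ∀ i, p ∣ Nat.card (derivedSeries H i)

/-! ## The end -/

/-- a proper nonsoluble subgroup containing a Sylow subgroup -/
def Core1 : Prop := ∀ (p : ℕ) [Fact p.Prime], p ≠ 2 → ∀ (S F : Type) [Group S] [Finite S]
  [Field F] [Finite F] (π : S →* PSL2 F), Function.Surjective π → ¬ p ∣ Nat.card π.ker →
  HS S → ¬ p ∣ Nat.card F → (∀ Y : Subgroup S, Y ≠ ⊤ → ∀ t, A p t Y) →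
  ∀ H P : Subgroup (PSL2 F), H ≠ ⊤ → ¬ Group.IsSolvable H → SylIn p P ⊤ → P ≤ H →
  ∀ k, A p (dtree k) S

/-- no such subgroup, `F` odd -/
def Core2 : Prop := ∀ (p : ℕ) [Fact p.Prime], p ≠ 2 → ∀ (S F : Type) [Group S] [Finite S]
  [Field F] [Finite F] (π : S →* PSL2 F), Function.Surjective π → π.ker ≤ frattini S →
  ¬ p ∣ Nat.card π.ker → HS S → p ∣ Nat.card (PSL2 F) → ¬ p ∣ Nat.card F → (2 : F) ≠ 0 →
  9 ≤ Nat.card F →
  (∀ H P : Subgroup (PSL2 F), ¬ Group.IsSolvable H → SylIn p P ⊤ → P ≤ H → H = ⊤) →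
  ∀ k, A p (dtree k) S

/-- no such subgroup, `F` even -/
def Core3 : Prop := ∀ (p : ℕ) [Fact p.Prime], p ≠ 2 → ∀ (S F : Type) [Group S] [Finite S]
  [Field F] [Finite F] (π : S →* PSL2 F), Function.Surjective π → π.ker ≤ frattini S →
  ¬ p ∣ Nat.card π.ker → HS S → p ∣ Nat.card (PSL2 F) → (2 : F) = 0 →
  4 ≤ Nat.card F → (¬ ∃ e : ℕ, Nat.card F + 1 = p ^ e) →
  (∀ H P : Subgroup (PSL2 F), ¬ Group.IsSolvable H → SylIn p P ⊤ → P ≤ H → H = ⊤) →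
  ∀ k, A p (dtree k) S

/-- the characteristic, a proper nonsoluble subgroup of order divisible by p -/
def Core4 : Prop := ∀ (p : ℕ) [Fact p.Prime], p ≠ 2 → ∀ (S F : Type) [Group S] [Finite S]
  [Field F] [Finite F] (π : S →* PSL2 F), Function.Surjective π → ¬ p ∣ Nat.card π.ker →
  HS S → p ∣ Nat.card F → (∀ Y : Subgroup S, Y ≠ ⊤ → ∀ t, A p t Y) →
  ∀ H : Subgroup (PSL2 F), H ≠ ⊤ → ¬ Group.IsSolvable H → p ∣ Nat.card H →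
  ∀ k, A p (dtree k) S

/-- the characteristic, no such subgroup -/
def Core5 : Prop := ∀ (p : ℕ) [Fact p.Prime], p ≠ 2 → ∀ (S F : Type) [Group S] [Finite S]
  [Field F] [Finite F] (π : S →* PSL2 F), Function.Surjective π → π.ker ≤ frattini S →
  ¬ p ∣ Nat.card π.ker → HS S → p ∣ Nat.card F → 7 ≤ Nat.card F →
  (∀ H : Subgroup (PSL2 F), ¬ Group.IsSolvable H → p ∣ Nat.card H → H = ⊤) →
  ∀ k, A p (dtree k) S

/-- all cases -/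
def CoreP : Prop := ∀ (p : ℕ) [Fact p.Prime], p ≠ 2 → ∀ (S F : Type) [Group S] [Finite S]
  [Field F] [Finite F] (π : S →* PSL2 F), Function.Surjective π → π.ker ≤ frattini S →
  ¬ p ∣ Nat.card π.ker → HS S → p ∣ Nat.card (PSL2 F) → 4 ≤ Nat.card F →
  GoodF p (Nat.card F) → (∀ Y : Subgroup S, Y ≠ ⊤ → ∀ t, A p t Y) → ∀ k, A p (dtree k) S

/-- the final statement -/
def FinP : Prop := ∀ (p : ℕ) [Fact p.Prime], p ≠ 2 → ∀ (G : Type) [Group G] [Finite G],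
  HypP p G → ∀ t : Tree, A p t G

end MP_8aaf67.PT
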